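import Pool.Agent.N536.HH.Tot
import Pool.Agent.N202.HZ.Dich

/-!
# The law in all codimensions
-/

open CategoryTheory AlgebraicGeometry Finset Filter

universe u v

namespace Pool.Agent.N536.HH

open Module
open Pool.Agent.H914 Pool.Agent.H914.VarClass Pool.Agent.H914.VarClass.Obj
  Pool.Agent.H914.WeilCohomology Pool.Agent.H281R3.HT Pool.Agent.W552 Pool.Agent.W539.Ker
  Pool.Agent.N202.HZ

variable {k : Type u} [Field k] {𝒱 : VarClass k} {ops : CycleOps 𝒱}
  {W : WeilCohomology.{u, v} ops}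

lemma one_le_total' {Q : Polarized 𝒱} (hQ : Pos Q ops) : 1 ≤ total W Q.X Q.D := by
  have h2 : 1 ≤ nPos W Q.X Q.D 0 :=
    le_csSup (bddAbove_family W hQ.isCyc (n := 0) (by omega)).1 (hQ.fund W)
  calc 1 ≤ nPos W Q.X Q.D 0 + nNeg W Q.X Q.D 0 := by omega
    _ ≤ _ := Finset.single_le_sum (f := fun n => nPos W Q.X Q.D n + nNeg W Q.X Q.D n)
        (fun _ _ => Nat.zero_le _) (Finset.mem_range.2 (by omega))

/-- With hard Lefschetz and the Lefschetz standard conjecture, nonnegativity gives the conjecture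
modulo numerical equivalence. -/
lemma HodgeNonneg.num {P : Polarized 𝒱} (h : HodgeNonneg W P) (hG : Good W P) :
    HodgeTypeNum W P.X P.D := by
  by_contra hno
  obtain ⟨f, G⟩ := exists_gd hG.isCyc hG.hardLefschetz hG.lefschetzB
  obtain ⟨j, hj, z, hz, hneg, -⟩ := exists_neg G.fr hno
  have h1 := h j hj _ (hz 0)
  have h2 := hneg 0
  linarith

section

variable (hMUL : S_MUL.{u, v}) (hDFJ : S_DFJ.{u, v}) (hSTR : S_STR.{u, v})

include hMUL hDFJ hSTR in
/-- A negative square on `P ^ (K + 1)` gives two orthogonal classes of opposite signs in the middle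
codimension of `P ^ (4 (K + 1))`. -/
theorem exists_opp4 {P : Polarized 𝒱} (hP : Pos P ops) {K : ℕ}
    (h : ¬ HodgeNonneg W (power ops P K)) :
    ∃ e y z s t, Opp W (power ops P (4 * K + 3)).X (power ops P (4 * K + 3)).D e y z s t := by
  rw [HodgeNonneg] at h
  push Not at h
  obtain ⟨j, hj, z, hz, hneg⟩ := h
  have hF : HasFamily W (power ops P K).X (power ops P K).D j (-1) 1 := by
    refine ⟨fun _ => z, fun _ => hz, fun _ => by linarith, fun i i' hii => ?_⟩
    exact absurd (Subsingleton.elim i i') hii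
  have hPn := hP.power W K
  have hZ : Pos ((power ops P K).prod ops (power ops P K)) ops := deg_pos_prod W hPn hPn
  have h1 := hDFJ W (power ops P K) hPn j (by omega)
  have h2 : HasFamily W ((power ops P K).prod ops (power ops P K)).X
      ((power ops P K).prod ops (power ops P K)).D j (-1) 1 := by
    have := hMUL W _ _ hPn.isCyc hPn.isCyc j 0 hj (by omega) (-1) 1 hF (hPn.fund W)
    simpa using this
  have hdim : ((power ops P K).prod ops (power ops P K)).X.dim =
    (power ops P K).X.dim + (power ops P K).X.dim := rfl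
  have e1 := hSTR W _ hZ.isCyc j (by omega) 1 1 h1 h1
  have e2 := hSTR W _ hZ.isCyc j (by omega) (-1) 1 h2 h1
  rw [one_mul] at e1
  rw [mul_one] at e2
  have hiso := power_add W P K K
  have hiso2 := (hiso.prod hiso).trans (power_add W P (K + K + 1) (K + K + 1))
  rw [show K + K + 1 + (K + K + 1) + 1 = 4 * K + 3 by ring] at hiso2
  have hZZ := deg_pos_prod W hZ hZ
  have hdim2 : (power ops P (4 * K + 3)).X.dim =
      2 * ((power ops P K).prod ops (power ops P K)).X.dim := by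
    rw [← hiso2.dim_eq]
    change ((power ops P K).prod ops (power ops P K)).X.dim +
      ((power ops P K).prod ops (power ops P K)).X.dim = _
    ring
  have f1 := hiso2.symm.hasFamily (hP.power W _).isCyc hZZ.isCyc (by omega) e1
  have f2 := hiso2.symm.hasFamily (hP.power W _).isCyc hZZ.isCyc (by omega) e2
  obtain ⟨y, z, s, t, hO⟩ := exists_opp (hP.power W _).isCyc hdim2 f1 f2
  exact ⟨_, y, z, s, t, hO⟩

end

section

variable (hBNJ : S_BNJ.{u, v})

include hBNJ in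
/-- **The bound for the signatures in all codimensions.** -/
theorem imbalance_power_le' {Q P : Polarized 𝒱} (hQ : Q.X.IsCyc 1 Q.D) (hP : P.X.IsCyc 1 P.D)
    {K e : ℕ} {y z : W.H (power ops P K).X} {s t : ℚ}
    (O : Opp W (power ops P K).X (power ops P K).D e y z s t) (n : ℕ) :
    imbalance W (Q.prod ops (power ops P n)).X (Q.prod ops (power ops P n)).D ≤
      bsum W Q * bsum W P ^ (n % (K + 1) + 1) * (bsum W P ^ (K + 1) - 2) ^ (n / (K + 1)) := by
  have hr : (Q.prod ops (power ops P (n % (K + 1)))).X.IsCyc 1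
      (Q.prod ops (power ops P (n % (K + 1)))).D := isCyc_prod hQ (isCyc_power hP _)
  have hK := isCyc_power (ops := ops) hP K
  obtain ⟨g, Θ, N, hg⟩ := exists_flip_tower hr hK O (n / (K + 1))
  have h1 := hBNJ W _ _ (isCyc_tower hr hK (n / (K + 1))) (-(s * t))
    (by have := O.neg; linarith) g Θ N
  have h2 := (tower_power W Q P (n % (K + 1)) K (n / (K + 1))).imbalance_eq
    (isCyc_tower hr hK _) (isCyc_prod hQ (isCyc_power hP _))
  rw [h2, Nat.mod_add_div] at h1
  refine (h1.trans hg).trans ?_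
  have h3 : finrank W.K (W.H (Q.prod ops (power ops P (n % (K + 1)))).X) =
      bsum W Q * bsum W P ^ (n % (K + 1) + 1) := by
    have : finrank W.K (W.H (Q.prod ops (power ops P (n % (K + 1)))).X) =
      finrank W.K (W.H Q.X) * finrank W.K (W.H (power ops P (n % (K + 1))).X) :=
      Y129.Half.finrank_prod _ _
    rw [this, finrank_power, bsum, bsum]
  rw [h3, finrank_power, ← bsum]

end

section

variable (hGRO : S_GRO.{u, v}) (hKUN : S_KUN.{u, v})

include hGRO hKUN in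
/-- The squares on `P ^ (2 (l + 1))`. -/
theorem growth_power' {P : Polarized 𝒱} (hP : P.X.IsCyc 1 P.D) (hC : KunnethStd W P.X) (l : ℕ) :
    bsum W P ^ (2 * (l + 1)) ≤ total W (power ops P (2 * l + 1)).X (power ops P (2 * l + 1)).D *
      (l + 2) ^ (bsum W P ^ 2) := by
  have h1 := hGRO W P hP l (kun_power hKUN hC l)
  refine h1.trans (Nat.mul_le_mul_right _ ?_)
  have h2 : PolIso W ((power ops P l).prod ops (power ops P l)) (power ops P (2 * l + 1)) := by
    have := power_add W P l l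
    rwa [show l + l + 1 = 2 * l + 1 by ring] at this
  have hl := isCyc_power (ops := ops) hP l
  rw [← h2.total_eq (isCyc_prod hl hl) (isCyc_power hP _), total]
  have hdim : ((power ops P l).prod ops (power ops P l)).X.dim =
    (power ops P l).X.dim + (power ops P l).X.dim := rfl
  exact Finset.single_le_sum (f := fun n => nPos W _ _ n + nNeg W _ _ n)
    (fun _ _ => Nat.zero_le _) (Finset.mem_range.2 (by omega))

include hGRO hKUN in
/-- **Growth of the number of squares.** -/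
theorem growth_le' {Q P : Polarized 𝒱} (hQ : Pos Q ops) (hP : Pos P ops) (hC : KunnethStd W P.X)
    (hN : 1 ≤ bsum W P) (n : ℕ) :
    bsum W P ^ n ≤ total W (Q.prod ops (power ops P n)).X (Q.prod ops (power ops P n)).D *
        (n + 2) ^ (bsum W P ^ 2) := by
  set N := bsum W P with hNdef
  rcases Nat.even_or_odd' n with ⟨m, rfl | rfl⟩
  · rcases Nat.eq_zero_or_pos m with rfl | hm
    · rw [mul_zero, pow_zero]
      have h1 : 1 ≤ total W (Q.prod ops (power ops P 0)).X (Q.prod ops (power ops P 0)).D :=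
        one_le_total' (deg_pos_prod W hQ hP)
      exact Nat.mul_pos h1 (by positivity)
    · obtain ⟨l, rfl⟩ : ∃ l, m = l + 1 := ⟨m - 1, by omega⟩
      have h1 := growth_power' hGRO hKUN hP.isCyc hC l
      have h2 := total_le_prod' (W := W) (Q := Q.prod ops P) (Z := power ops P (2 * l + 1))
        (deg_pos_prod W hQ hP) (isCyc_power hP.isCyc _)
      have h3 : PolIso W ((Q.prod ops P).prod ops (power ops P (2 * l + 1)))
          (Q.prod ops (power ops P (2 * (l + 1)))) := by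
        refine (PolIso.assoc Q P (power ops P (2 * l + 1))).trans ((PolIso.refl Q).prod ?_)
        have h4 := power_add W P 0 (2 * l + 1)
        rwa [show 0 + (2 * l + 1) + 1 = 2 * (l + 1) by ring] at h4
      rw [h3.total_eq (isCyc_prod (isCyc_prod hQ.isCyc hP.isCyc) (isCyc_power hP.isCyc _))
        (isCyc_prod hQ.isCyc (isCyc_power hP.isCyc _))] at h2
      calc N ^ (2 * (l + 1)) ≤ total W (power ops P (2 * l + 1)).X
            (power ops P (2 * l + 1)).D * (l + 2) ^ (N ^ 2) := h1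
        _ ≤ _ := Nat.mul_le_mul h2 (Nat.pow_le_pow_left (by omega) _)
  · have h1 := growth_power' hGRO hKUN hP.isCyc hC m
    have h2 := total_le_prod' (W := W) (Q := Q) (Z := power ops P (2 * m + 1))
      hQ (isCyc_power hP.isCyc _)
    calc N ^ (2 * m + 1) ≤ N ^ (2 * (m + 1)) := Nat.pow_le_pow_right hN (by omega)
      _ ≤ total W (power ops P (2 * m + 1)).X
          (power ops P (2 * m + 1)).D * (m + 2) ^ (N ^ 2) := h1
      _ ≤ _ := Nat.mul_le_mul h2 (Nat.pow_le_pow_left (by omega) _)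

end

section

variable (hBNJ : S_BNJ.{u, v}) (hGRO : S_GRO.{u, v}) (hKUN : S_KUN.{u, v})
  (hMUL : S_MUL.{u, v}) (hDFJ : S_DFJ.{u, v}) (hSTR : S_STR.{u, v})

include hBNJ hGRO hKUN hMUL hDFJ hSTR

/-- **The law for the products `Q × P ^ (n + 1)`.** -/
theorem law3 {P : Polarized 𝒱} (hP : Pos P ops) (hC : KunnethStd W P.X) {K : ℕ}
    (hK : ¬ HodgeNonneg W (power ops P K)) :
    2 ≤ bsum W P ∧ ∀ Q : Polarized 𝒱, Pos Q ops →
      (∀ n, imbalance W (Q.prod ops (power ops P n)).X (Q.prod ops (power ops P n)).D ≤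
          bsum W Q * bsum W P ^ (n % (4 * (K + 1)) + 1) *
            (bsum W P ^ (4 * (K + 1)) - 2) ^ (n / (4 * (K + 1))) ∧
        bsum W P ^ n ≤
          total W (Q.prod ops (power ops P n)).X (Q.prod ops (power ops P n)).D *
            (n + 2) ^ (bsum W P ^ 2)) ∧
      ∃ C c : ℝ, 0 < c ∧ c < 1 ∧ ∀ n : ℕ,
        (imbalance W (Q.prod ops (power ops P n)).X (Q.prod ops (power ops P n)).D : ℝ) ≤
          C * c ^ n * total W (Q.prod ops (power ops P n)).X (Q.prod ops (power ops P n)).D := by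
  obtain ⟨e, y, z, s, t, O⟩ := exists_opp4 hMUL hDFJ hSTR hP hK
  have h2 := O.finrank
  rw [finrank_power] at h2
  have hM : 4 * K + 3 + 1 = 4 * (K + 1) := by ring
  rw [hM] at h2
  set N := bsum W P with hN
  have hNf : finrank W.K (W.H P.X) = N := rfl
  rw [hNf] at h2
  have hB : 2 ≤ N ^ (4 * (K + 1)) := by omega
  have hN2 : 2 ≤ N := by
    by_contra h0
    have h0 : N = 0 ∨ N = 1 := by omega
    rcases h0 with h0 | h0
    · rw [h0, zero_pow (by omega)] at hB
      omega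
    · rw [h0, one_pow] at hB
      omega
  have hN1 : 1 ≤ N := by omega
  refine ⟨hN2, fun Q hQ => ?_⟩
  have hup : ∀ n, imbalance W (Q.prod ops (power ops P n)).X (Q.prod ops (power ops P n)).D ≤
          bsum W Q * N ^ (n % (4 * (K + 1)) + 1) *
            (N ^ (4 * (K + 1)) - 2) ^ (n / (4 * (K + 1))) := by
    intro n
    have := imbalance_power_le' hBNJ hQ.isCyc hP.isCyc O n
    rwa [hM] at this
  have hlow := growth_le' hGRO hKUN hQ hP hC hN1
  refine ⟨fun n => ⟨hup n, hlow n⟩, ?_⟩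
  obtain ⟨L, hL⟩ : ∃ L, 4 * (K + 1) = L + 1 := ⟨4 * K + 3, by ring⟩
  rw [hL] at hB hup
  obtain ⟨C, c, hc0, hc1, hC', hbound⟩ := exists_bound L (N ^ 2)
    (B := ((N ^ (L + 1) : ℕ) : ℝ)) (by exact_mod_cast hB)
  set NQ := bsum W Q with hNQ
  refine ⟨(NQ : ℝ) * ((N ^ (L + 1) : ℕ) : ℝ) * C, c, hc0, hc1, fun n => ?_⟩
  have hup := hup n
  have hlow := hlow n
  set I := imbalance W (Q.prod ops (power ops P n)).X (Q.prod ops (power ops P n)).D with hI
  set T := total W (Q.prod ops (power ops P n)).X (Q.prod ops (power ops P n)).D with hT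
  set q := n / (L + 1) with hq
  have hmod : n % (L + 1) + 1 ≤ L + 1 := Nat.mod_lt _ (Nat.succ_pos L)
  have h3 : I ≤ NQ * N ^ (L + 1) * (N ^ (L + 1) - 2) ^ q :=
    hup.trans (Nat.mul_le_mul_right _ (Nat.mul_le_mul_left _ (Nat.pow_le_pow_right hN1 hmod)))
  have h4 : (I : ℝ) ≤ (NQ : ℝ) * ((N ^ (L + 1) : ℕ) : ℝ) * (((N ^ (L + 1) : ℕ) : ℝ) - 2) ^ q := by
    have h5 : ((N ^ (L + 1) - 2 : ℕ) : ℝ) = ((N ^ (L + 1) : ℕ) : ℝ) - 2 := by
      rw [Nat.cast_sub hB]
      norm_num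
    rw [← h5]
    exact_mod_cast h3
  have h5 : (((N ^ (L + 1) : ℕ) : ℝ)) ^ q ≤ (T : ℝ) * ((n : ℝ) + 2) ^ (N ^ 2) := by
    have h6 : (N ^ (L + 1)) ^ q ≤ T * (n + 2) ^ (N ^ 2) := by
      refine le_trans ?_ hlow
      rw [← pow_mul]
      apply Nat.pow_le_pow_right hN1
      rw [hq]
      exact Nat.mul_div_le n (L + 1)
    exact_mod_cast h6
  have h6 := hbound n
  have hpos : (0 : ℝ) < ((n : ℝ) + 2) ^ (N ^ 2) := by positivity
  have hNB : (0 : ℝ) ≤ (NQ : ℝ) * ((N ^ (L + 1) : ℕ) : ℝ) := by positivity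
  have h7 : (I : ℝ) * ((n : ℝ) + 2) ^ (N ^ 2) ≤
      ((NQ : ℝ) * ((N ^ (L + 1) : ℕ) : ℝ) * C * c ^ n * T) * ((n : ℝ) + 2) ^ (N ^ 2) := by
    calc (I : ℝ) * ((n : ℝ) + 2) ^ (N ^ 2) ≤
        ((NQ : ℝ) * ((N ^ (L + 1) : ℕ) : ℝ) * (((N ^ (L + 1) : ℕ) : ℝ) - 2) ^ q) *
          ((n : ℝ) + 2) ^ (N ^ 2) := mul_le_mul_of_nonneg_right h4 hpos.le
      _ = ((NQ : ℝ) * ((N ^ (L + 1) : ℕ) : ℝ)) * ((((N ^ (L + 1) : ℕ) : ℝ) - 2) ^ q *
          ((n : ℝ) + 2) ^ (N ^ 2)) := by ring
      _ ≤ ((NQ : ℝ) * ((N ^ (L + 1) : ℕ) : ℝ)) * (C * c ^ n *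
          (((N ^ (L + 1) : ℕ) : ℝ)) ^ q) := mul_le_mul_of_nonneg_left h6 hNB
      _ ≤ ((NQ : ℝ) * ((N ^ (L + 1) : ℕ) : ℝ)) * (C * c ^ n *
          ((T : ℝ) * ((n : ℝ) + 2) ^ (N ^ 2))) :=
        mul_le_mul_of_nonneg_left (mul_le_mul_of_nonneg_left h5 (by positivity)) hNB
      _ = _ := by ring
  exact le_of_mul_le_mul_right h7 hpos

/-- **A small surplus suffices.** -/
theorem law4 {𝒢 : Set (Polarized 𝒱)} (hprod : ∀ P ∈ 𝒢, ∀ Q ∈ 𝒢, P.prod ops Q ∈ 𝒢)
    (hpos : ∀ P ∈ 𝒢, Pos P ops ∧ KunnethStd W P.X) {f : ℝ → ℝ}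
    (hf : ∀ δ : ℝ, 0 < δ → Tendsto (fun y => f y * y ^ δ) atTop atTop)
    (h : ∀ P ∈ 𝒢, f (bsum W P) * total W P.X P.D ≤ imbalance W P.X P.D) :
    ∀ P ∈ 𝒢, HodgeNonneg W P := by
  intro P hPm
  by_contra hno
  obtain ⟨hP, hC⟩ := hpos P hPm
  have hno' : ¬ HodgeNonneg W (power ops P 0) := hno
  obtain ⟨hb, hlaw'⟩ := law3 hBNJ hGRO hKUN hMUL hDFJ hSTR hP hC hno'
  obtain ⟨-, C, c, hc0, hc1, hlaw⟩ := hlaw' P hP
  have hpw : ∀ n, power ops P n ∈ 𝒢 := by
    intro n
    induction n with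
    | zero => exact hPm
    | succ n ih => exact hprod _ ih _ hPm
  have hmem : ∀ n, P.prod ops (power ops P n) ∈ 𝒢 := fun n => hprod _ hPm _ (hpw n)
  set b : ℝ := (bsum W P : ℝ) with hbdef
  have hb1 : (1 : ℝ) < b := by
    rw [hbdef]
    exact_mod_cast (by omega : 1 < bsum W P)
  have hb0 : 0 < b := by linarith
  have hbn : ∀ n, ((bsum W (P.prod ops (power ops P n)) : ℕ) : ℝ) = b ^ (n + 2) := by
    intro n
    have : bsum W (P.prod ops (power ops P n)) = bsum W P * bsum W (power ops P n) :=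
      Y129.Half.finrank_prod _ _
    rw [this, bsum, bsum, finrank_power, hbdef, bsum]
    push_cast
    ring
  set δ : ℝ := -Real.log c / Real.log b with hδ
  have hlb : 0 < Real.log b := Real.log_pos hb1
  have hlc : Real.log c < 0 := Real.log_neg hc0 hc1
  have hδ0 : 0 < δ := div_pos (by linarith) hlb
  have hbδ : b ^ δ = c⁻¹ := by
    rw [Real.rpow_def_of_pos hb0, hδ, mul_div_cancel₀ _ hlb.ne', Real.exp_neg,
      Real.exp_log hc0]
  have h1 := hf δ hδ0
  have h2 : Tendsto (fun n : ℕ => b ^ (n + 2)) atTop atTop :=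
    (tendsto_pow_atTop_atTop_of_one_lt hb1).comp (tendsto_add_atTop_nat 2)
  have h3 := h1.comp h2
  obtain ⟨n, hn⟩ := (h3.eventually (eventually_gt_atTop (C * (c⁻¹ * c⁻¹)))).exists
  have h4 := h _ (hmem n)
  have h5 := hlaw n
  have h6 : (0 : ℝ) < total W (P.prod ops (power ops P n)).X (P.prod ops (power ops P n)).D := by
    exact_mod_cast one_le_total' (deg_pos_prod W hP (hP.power W n))
  have h7 : f (b ^ (n + 2)) ≤ C * c ^ n := by
    have h8 := h4.trans h5
    rw [hbn] at h8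
    exact le_of_mul_le_mul_right h8 h6
  have h8 : (b ^ (n + 2)) ^ δ = c⁻¹ ^ (n + 2) := by
    rw [← Real.rpow_natCast, ← Real.rpow_mul hb0.le, mul_comm, Real.rpow_mul hb0.le, hbδ,
      Real.rpow_natCast]
  have h9 : f (b ^ (n + 2)) * (b ^ (n + 2)) ^ δ ≤ C * (c⁻¹ * c⁻¹) := by
    rw [h8]
    calc f (b ^ (n + 2)) * c⁻¹ ^ (n + 2) ≤ (C * c ^ n) * c⁻¹ ^ (n + 2) :=
          mul_le_mul_of_nonneg_right h7 (by positivity)
      _ = C * (c⁻¹ * c⁻¹) * (c ^ n * c⁻¹ ^ n) := by ring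
      _ = C * (c⁻¹ * c⁻¹) := by
        rw [← mul_pow, mul_inv_cancel₀ hc0.ne', one_pow, mul_one]
  exact absurd hn (not_lt.2 h9)

end

end Pool.Agent.N536.HH
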