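import Pool.Agent.N536.HH.Flp
import Pool.Agent.N202.HZ.Dich

/-!
# The assembly
-/

open CategoryTheory AlgebraicGeometry Finset

universe u v

namespace Pool.Agent.N536.HH

open Module
open Pool.Agent.H914 Pool.Agent.H914.VarClass Pool.Agent.H914.VarClass.Obj
  Pool.Agent.H914.WeilCohomology Pool.Agent.H281R3.HT Pool.Agent.W552 Pool.Agent.W539.Ker
  Pool.Agent.N202.HZ

variable {k : Type u} [Field k] {𝒱 : VarClass k} {ops : CycleOps 𝒱}
  {W : WeilCohomology.{u, v} ops}

/-- Two classes with squares of opposite signs give two orthogonal ones. -/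
lemma exists_opp {P : Polarized 𝒱} (hD : P.X.IsCyc 1 P.D) {e : ℕ} (he : P.X.dim = 2 * e)
    (h1 : HasFamily W P.X P.D e 1 1) (h2 : HasFamily W P.X P.D e (-1) 1) :
    ∃ y z s t, Opp W P.X P.D e y z s t := by
  obtain ⟨z, hz, hzp, -⟩ := h1
  obtain ⟨v, hv, hvp, -⟩ := h2
  have hz := hz 0
  have hzp := hzp 0
  have hv := hv 0
  have hvp := hvp 0
  have hpr : ∀ w : P.X.Cycles, Primitive W P.X P.D e w → Mid W P.X P.D e (W.cl P.X w) := by
    intro w hw
    refine ⟨⟨w, hw.1, rfl⟩, ?_⟩
    have h3 := hw.2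
    rw [cl_divPow, he, Nat.sub_self, zero_add, pow_one] at h3
    exact h3
  have htr : ∀ w w' : P.X.Cycles, P.X.IsCyc e w → P.X.IsCyc e w' →
      W.tr P.X (W.cl P.X w * W.cl P.X w') =
        (((-1 : ℚ) ^ e * pairing ops P.X P.D e w w' : ℚ) : W.K) := by
    intro w w' hw hw'
    rw [Rat.cast_mul, pairing_cast (W := W) hD (by omega) hw hw', he, Nat.sub_self, pow_zero,
      Module.End.one_apply]
    push_cast
    rw [← mul_assoc, ← mul_pow]
    simp
  set A := pairing ops P.X P.D e (z 0) (z 0) with hA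
  set B := pairing ops P.X P.D e (z 0) (v 0) with hB
  set C := pairing ops P.X P.D e (v 0) (v 0) with hC
  have hsym : W.tr P.X (W.cl P.X (v 0) * W.cl P.X (z 0)) =
      W.tr P.X (W.cl P.X (z 0) * W.cl P.X (v 0)) := by
    rw [AS.comm (AS.of ⟨v 0, hv.1, rfl⟩)]
  have hA0 : 0 < A := by linarith
  have hC0 : C < 0 := by linarith
  have hAK : (A : W.K) ≠ 0 := by exact_mod_cast hA0.ne'
  have hmz := hpr _ hz
  have hmv := hpr _ hv
  refine ⟨W.cl P.X (z 0), W.cl P.X (v 0) - ((B / A : ℚ) : W.K) • W.cl P.X (z 0),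
    (-1 : ℚ) ^ e * A, (-1 : ℚ) ^ e * (C - B * B / A), he, hmz,
    ⟨alg_sub hmv.1 (alg_smul _ hmz.1), ?_⟩, htr _ _ hz.1 hz.1, ?_, ?_, ?_⟩
  · rw [mul_sub, mul_smul_comm, hmv.2, hmz.2, smul_zero, sub_zero]
  · rw [sub_mul, mul_sub, mul_sub, smul_mul_assoc, smul_mul_assoc, mul_smul_comm, mul_smul_comm,
      map_sub, map_sub, map_sub, map_smul, map_smul, map_smul, map_smul, hsym,
      htr _ _ hz.1 hz.1, htr _ _ hz.1 hv.1, htr _ _ hv.1 hv.1, ← hA, ← hB, ← hC]
    push_cast
    simp only [smul_eq_mul]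
    field_simp
    ring
  · rw [mul_sub, mul_smul_comm, map_sub, map_smul, htr _ _ hz.1 hz.1, htr _ _ hz.1 hv.1, ← hA,
      ← hB]
    push_cast
    simp only [smul_eq_mul]
    field_simp
    ring
  · have h3 : (-1 : ℚ) ^ e * A * ((-1 : ℚ) ^ e * (C - B * B / A)) =
        ((-1 : ℚ) ^ e * (-1 : ℚ) ^ e) * (A * (C - B * B / A)) := by ring
    have h4 : (-1 : ℚ) ^ e * (-1 : ℚ) ^ e = 1 := by rw [← mul_pow]; simp
    rw [h3, h4, one_mul]
    have h5 : A * (C - B * B / A) = A * C - B * B := by field_simp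
    rw [h5]
    nlinarith [mul_self_nonneg B, mul_pos hA0 (neg_pos.2 hC0)]

/-! ### Powers of powers -/

lemma PolIso.power {P Q : Polarized 𝒱} (h : PolIso W P Q) (n : ℕ) :
    PolIso W (power ops P n) (power ops Q n) := by
  induction n with
  | zero => exact h
  | succ n ih => exact ih.prod h

lemma power_power (W : WeilCohomology.{u, v} ops) (P : Polarized 𝒱) (n m : ℕ) :
    PolIso W (power ops (power ops P n) m) (power ops P ((n + 1) * m + n)) := by
  induction m with
  | zero => rw [mul_zero, zero_add]; exact PolIso.refl _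
  | succ m ih =>
    have h1 := ih.prod (PolIso.refl (W := W) (power ops P n))
    have h2 := h1.trans (power_add W P ((n + 1) * m + n) n)
    rwa [show (n + 1) * m + n + n + 1 = (n + 1) * (m + 1) + n by ring] at h2

/-- `P ^ (r + 1) × (P ^ (K + 1)) ^ q ≅ P ^ (r + (K + 1) q + 1)`. -/
lemma tower_power' (W : WeilCohomology.{u, v} ops) (P : Polarized 𝒱) (r K q : ℕ) :
    PolIso W (tower ops (power ops P r) (power ops P K) q)
      (power ops P (r + (K + 1) * q)) := by
  induction q with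
  | zero => exact PolIso.refl _
  | succ q ih =>
    have h1 : PolIso W (tower ops (power ops P r) (power ops P K) (q + 1))
        ((power ops P (r + (K + 1) * q)).prod ops (power ops P K)) :=
      ih.prod (PolIso.refl _)
    have h2 := h1.trans (power_add W P (r + (K + 1) * q) K)
    rwa [show r + (K + 1) * q + K + 1 = r + (K + 1) * (q + 1) by ring] at h2

lemma dim_pow (P : Polarized 𝒱) (n : ℕ) : (power ops P n).X.dim = (n + 1) * P.X.dim :=
  dim_power P n

/-! ### Positive degrees -/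

lemma deg_pos_prod' (W : WeilCohomology.{u, v} ops) {X Y : 𝒱.Obj} {D : X.Cycles} {E : Y.Cycles}
    (hD : X.IsCyc 1 D) (hE : Y.IsCyc 1 E)
    (h : 0 < X.V.degCycle (divPow ops D X.dim X.V.fundCycle))
    (h' : 0 < Y.V.degCycle (divPow ops E Y.dim Y.V.fundCycle)) :
    0 < (X.prod Y).V.degCycle (divPow ops (ops.pull (fst X Y) D + ops.pull (snd X Y) E)
      (X.prod Y).dim (X.prod Y).V.fundCycle) := by
  have hDE : (X.prod Y).IsCyc 1 (ops.pull (fst X Y) D + ops.pull (snd X Y) E) :=
    SmVar.IsCyc.add (ops.pull_mem _ hD) (ops.pull_mem _ hE)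
  set a := X.dim with ha
  set b := Y.dim with hb
  -- the top power of a divisor
  have key : ∀ (X : 𝒱.Obj) (D : X.Cycles), X.IsCyc 1 D → ∀ N,
      W.cl X (divPow ops D N X.V.fundCycle) = W.cl X D ^ N := by
    intro X D hD N
    rw [cl_divPow, W.cl_fund]
    induction N with
    | zero => simp
    | succ N ih => rw [pow_succ', Module.End.mul_apply, ih, LinearMap.mulLeft_apply, pow_succ']
  have hdeg : ∀ (X : 𝒱.Obj) (D : X.Cycles), X.IsCyc 1 D →
      ((X.V.degCycle (divPow ops D X.dim X.V.fundCycle) : ℚ) : W.K) =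
        W.tr X (W.cl X D ^ X.dim) := by
    intro X D hD
    rw [← key X D hD, W.tr_cl]
    have := divPow_mem (ops := ops) hD X.dim X.V.fundCycle_mem
    rwa [zero_add] at this
  have hpm : ∀ (X : 𝒱.Obj) (D : X.Cycles), X.IsCyc 1 D → ∀ N, W.cl X D ^ N ∈ W.gr X (2 * N) := by
    intro X D hD N
    have h1 := divPow_mem (ops := ops) hD N X.V.fundCycle_mem
    rw [zero_add] at h1
    rw [← key X D hD]
    exact W.cl_mem h1
  have hzero : ∀ (X : 𝒱.Obj) (D : X.Cycles), X.IsCyc 1 D → ∀ N, X.dim < N →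
      W.cl X D ^ N = 0 := by
    intro X D hD N hN
    have h1 := hpm X D hD N
    rw [W.gr_eq_bot X _ (by omega)] at h1
    exact (Submodule.mem_bot _).1 h1
  have hcast : (((X.prod Y).V.degCycle (divPow ops (ops.pull (fst X Y) D + ops.pull (snd X Y) E)
      (X.prod Y).dim (X.prod Y).V.fundCycle) : ℚ) : W.K) = ((((a + b).choose a : ℕ) : ℚ) *
      X.V.degCycle (divPow ops D X.dim X.V.fundCycle) *
      Y.V.degCycle (divPow ops E Y.dim Y.V.fundCycle) : ℚ) := by
    rw [hdeg _ _ hDE, map_add, W.cl_pull, W.cl_pull]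
    have h2 : Commute (W.map (fst X Y) (W.cl X D)) (W.map (snd X Y) (W.cl Y E)) :=
      W.even_comm (p := 1) (W.map_mem _ (W.cl_mem hD)) _
    have h3 : (X.prod Y).dim = a + b := rfl
    rw [h3, h2.add_pow, map_sum, Finset.sum_eq_single a]
    · rw [Nat.add_sub_cancel_left, ← map_pow (W.map (fst X Y)), ← map_pow (W.map (snd X Y))]
      have h4 : W.map (fst X Y) (W.cl X D ^ a) * W.map (snd X Y) (W.cl Y E ^ b) *
          (((a + b).choose a : ℕ) : W.H (X.prod Y)) = (((a + b).choose a : ℕ) : W.K) •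
          (W.map (fst X Y) (W.cl X D ^ a) * W.map (snd X Y) (W.cl Y E ^ b)) := by
        rw [← nsmul_eq_mul', ← Nat.cast_smul_eq_nsmul W.K]
      rw [h4, map_smul, W.tr_prod, smul_eq_mul, ha, hb, ← hdeg _ _ hD, ← hdeg _ _ hE]
      push_cast
      ring
    · intro i hi hne
      rw [Finset.mem_range] at hi
      rcases lt_or_gt_of_ne hne with h | h
      · rw [← map_pow (W.map (snd X Y)), hzero _ _ hE (a + b - i) (by omega), map_zero,
          mul_zero, zero_mul, map_zero]
      · rw [← map_pow (W.map (fst X Y)), hzero _ _ hD i (by omega), map_zero,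
          zero_mul, zero_mul, map_zero]
    · intro h
      rw [Finset.mem_range] at h
      omega
  have hq : (X.prod Y).V.degCycle (divPow ops (ops.pull (fst X Y) D + ops.pull (snd X Y) E)
      (X.prod Y).dim (X.prod Y).V.fundCycle) = (((a + b).choose a : ℕ) : ℚ) *
      X.V.degCycle (divPow ops D X.dim X.V.fundCycle) *
      Y.V.degCycle (divPow ops E Y.dim Y.V.fundCycle) := by exact_mod_cast hcast
  rw [hq]
  have h6 : (0 : ℚ) < (((a + b).choose a : ℕ) : ℚ) := by
    exact_mod_cast Nat.choose_pos (Nat.le_add_right a b)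
  exact mul_pos (mul_pos h6 h) h'

lemma deg_pos_prod {P Q : Polarized 𝒱} (W : WeilCohomology.{u, v} ops) (hP : Pos P ops)
    (hQ : Pos Q ops) : Pos (P.prod ops Q) ops :=
  ⟨isCyc_prod hP.isCyc hQ.isCyc, deg_pos_prod' W hP.isCyc hQ.isCyc hP.deg_pos hQ.deg_pos⟩

lemma Pos.power (W : WeilCohomology.{u, v} ops) {P : Polarized 𝒱} (hP : Pos P ops) (n : ℕ) :
    Pos (power ops P n) ops := by
  induction n with
  | zero => exact hP
  | succ n ih => exact deg_pos_prod W ih hP

lemma Pos.fund (W : WeilCohomology.{u, v} ops) {P : Polarized 𝒱} (hP : Pos P ops) :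
    HasFamily W P.X P.D 0 1 1 := by
  refine ⟨fun _ => P.X.V.fundCycle, fun _ => prim_fund hP.isCyc, fun _ => ?_, fun i j hij => ?_⟩
  · rw [one_mul, pairing_fund W hP.isCyc]
    exact hP.deg_pos
  · exact absurd (Subsingleton.elim i j) hij

end Pool.Agent.N536.HH
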