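import Pool.Agent.N536.HH.Stm
import Pool.Agent.N202.HZ.Bd

/-!
# The zero-one-half law without the Lefschetz standard conjecture: the bound for the signature

By helper487 (project HH of helper536), after `Pool/Agent/N202/HZ/Bd.lean`.
-/

open CategoryTheory AlgebraicGeometry Finset

universe u v

set_option autoImplicit false

namespace Pool.Agent.N536.HH

open Module
open Pool.Agent.H914 Pool.Agent.H914.VarClass Pool.Agent.H914.VarClass.Obj
  Pool.Agent.H914.WeilCohomology Pool.Agent.H281R3.HT Pool.Agent.W552 Pool.Agent.W539.Ker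
  Pool.Agent.N202.HZ

namespace BND

variable {k : Type u} [Field k] {𝒱 : VarClass k} {ops : CycleOps 𝒱}
  {W : WeilCohomology.{u, v} ops} {X : 𝒱.Obj} {D : X.Cycles} {e : ℕ}

/-- The cohomology as a rational vector space. -/
noncomputable local instance ratMod' (X : 𝒱.Obj) : Module ℚ (W.H X) :=
  Module.compHom (W.H X) (algebraMap ℚ W.K)

lemma rat_smul' (q : ℚ) (x : W.H X) : q • x = (q : W.K) • x := by
  change (algebraMap ℚ W.K q) • x = _
  rw [eq_ratCast]

/-- The algebraic classes of codimension `e` killed by `D`. -/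
def MM (W : WeilCohomology.{u, v} ops) (X : 𝒱.Obj) (D : X.Cycles) (e : ℕ) :
    Submodule ℚ (W.H X) where
  carrier := {x | Mid W X D e x}
  add_mem' := by
    rintro x y ⟨hx, hx'⟩ ⟨hy, hy'⟩
    exact ⟨alg_add hx hy, by rw [mul_add, hx', hy', add_zero]⟩
  zero_mem' := ⟨alg_zero e, mul_zero _⟩
  smul_mem' := by
    rintro q x ⟨hx, hx'⟩
    rw [rat_smul']
    exact ⟨alg_smul q hx, by rw [mul_smul_comm, hx', smul_zero]⟩

lemma rat_ex {T : Module.End W.K (W.H X)} (hT : AOp W X X T) (x y : MM W X D e) :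
    ∃ q : ℚ, (-1 : W.K) ^ e * W.tr X (T (x : W.H X) * (y : W.H X)) = (q : W.K) := by
  obtain ⟨q, hq⟩ := ((hT.apply (AS.of x.2.1)).mul (AS.of y.2.1)).tr
  refine ⟨(-1) ^ e * q, ?_⟩
  rw [hq]
  push_cast
  rfl

/-- The rational number `(-1) ^ e tr (T x · y)`. -/
noncomputable def af0' {T : Module.End W.K (W.H X)} (hT : AOp W X X T) (x y : MM W X D e) : ℚ :=
  Classical.choose (rat_ex hT x y)

lemma af0'_cast {T : Module.End W.K (W.H X)} (hT : AOp W X X T) (x y : MM W X D e) :
    ((af0' hT x y : ℚ) : W.K) = (-1 : W.K) ^ e * W.tr X (T (x : W.H X) * (y : W.H X)) :=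
  (Classical.choose_spec (rat_ex hT x y)).symm

/-- The rational form `(-1) ^ e tr (T x · y)`. -/
noncomputable def AF' {T : Module.End W.K (W.H X)} (hT : AOp W X X T) (D : X.Cycles) (e : ℕ) :
    MM W X D e →ₗ[ℚ] MM W X D e →ₗ[ℚ] ℚ :=
  LinearMap.mk₂ ℚ (fun x y => af0' hT x y)
    (fun x x' y => by
      have h : ((af0' hT (x + x') y : ℚ) : W.K) = ((af0' hT x y + af0' hT x' y : ℚ) : W.K) := by
        rw [Rat.cast_add, af0'_cast, af0'_cast, af0'_cast, Submodule.coe_add, map_add, add_mul,
          map_add, mul_add]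
      exact_mod_cast h)
    (fun q x y => by
      have h : ((af0' hT (q • x) y : ℚ) : W.K) = ((q * af0' hT x y : ℚ) : W.K) := by
        rw [Rat.cast_mul, af0'_cast, af0'_cast, Submodule.coe_smul, rat_smul', map_smul,
          smul_mul_assoc, map_smul, smul_eq_mul]
        ring
      rw [smul_eq_mul]
      exact_mod_cast h)
    (fun x y y' => by
      have h : ((af0' hT x (y + y') : ℚ) : W.K) = ((af0' hT x y + af0' hT x y' : ℚ) : W.K) := by
        rw [Rat.cast_add, af0'_cast, af0'_cast, af0'_cast, Submodule.coe_add, mul_add, map_add,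
          mul_add]
      exact_mod_cast h)
    (fun q x y => by
      have h : ((af0' hT x (q • y) : ℚ) : W.K) = ((q * af0' hT x y : ℚ) : W.K) := by
        rw [Rat.cast_mul, af0'_cast, af0'_cast, Submodule.coe_smul, rat_smul', mul_smul_comm,
          map_smul, smul_eq_mul]
        ring
      rw [smul_eq_mul]
      exact_mod_cast h)

lemma AF'_cast {T : Module.End W.K (W.H X)} (hT : AOp W X X T) (x y : MM W X D e) :
    ((AF' hT D e x y : ℚ) : W.K) = (-1 : W.K) ^ e * W.tr X (T (x : W.H X) * (y : W.H X)) :=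
  af0'_cast hT x y

lemma B_cast (x y : MM W X D e) :
    ((AF' (AOp.one (W := W) (X := X)) D e x y : ℚ) : W.K) =
      (-1 : W.K) ^ e * W.tr X ((x : W.H X) * (y : W.H X)) := by
  rw [AF'_cast, Module.End.one_apply]

lemma B_symm (x y : MM W X D e) :
    AF' (AOp.one (W := W) (X := X)) D e x y = AF' (AOp.one (W := W) (X := X)) D e y x := by
  have h : ((AF' (AOp.one (W := W) (X := X)) D e x y : ℚ) : W.K) =
      ((AF' (AOp.one (W := W) (X := X)) D e y x : ℚ) : W.K) := by
    rw [B_cast, B_cast, (AS.of x.2.1).comm]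
  exact_mod_cast h

/-- The class of a primitive cycle. -/
lemma mid_cl (hdim : X.dim = 2 * e) {z : X.Cycles} (hz : Primitive W X D e z) :
    Mid W X D e (W.cl X z) := by
  refine ⟨⟨z, hz.1, rfl⟩, ?_⟩
  have h := hz.2
  rw [cl_divPow, hdim, Nat.sub_self, zero_add, pow_one, LinearMap.mulLeft_apply] at h
  exact h

lemma prim_of_mid (hdim : X.dim = 2 * e) {z : X.Cycles} (hz : X.IsCyc e z)
    (h : W.cl X D * W.cl X z = 0) : Primitive W X D e z := by
  refine ⟨hz, ?_⟩
  rw [cl_divPow, hdim, Nat.sub_self, zero_add, pow_one, LinearMap.mulLeft_apply]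
  exact h

lemma B_cl (hD : X.IsCyc 1 D) (hdim : X.dim = 2 * e) (hn : 2 * e ≤ X.dim)
    (z w : PM W X D e) (x y : MM W X D e) (hx : (x : W.H X) = W.cl X (z : X.Cycles))
    (hy : (y : W.H X) = W.cl X (w : X.Cycles)) :
    AF' (AOp.one (W := W) (X := X)) D e x y = BP W hD e hn z w := by
  have h : ((AF' (AOp.one (W := W) (X := X)) D e x y : ℚ) : W.K) =
      ((BP W hD e hn z w : ℚ) : W.K) := by
    rw [B_cast, BP_apply, pairing_cast hD hn z.2.1 w.2.1, hx, hy, hdim, Nat.sub_self, pow_zero,
      Module.End.one_apply]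
  exact_mod_cast h

end BND

open BND

/-- **The bound for the signature in the middle codimension.** -/
theorem t_BND : S_BND.{u, v} := by
  intro k _ 𝒱 ops W X D hD e hdim lam hlam g Θ F
  classical
  let _ := fun X : 𝒱.Obj => BND.ratMod' (W := W) X
  have hn : 2 * e ≤ X.dim := hdim.ge
  obtain ⟨m, x, hx⟩ := exists_prim W hD hn
  have hsig : (nPos W X D e : ℤ) - nNeg W X D e = sig W X D e := rfl
  rw [hsig, sig_eq hD hn hx]
  let y : Fin m → MM W X D e := fun i => ⟨W.cl X (x i : X.Cycles), mid_cl hdim (x i).2⟩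
  have hyB : ∀ i j, AF' (AOp.one (W := W) (X := X)) D e (y i) (y j) = BP W hD e hn (x i) (x j) :=
    fun i j => B_cl hD hdim hn _ _ _ _ rfl rfl
  have hOM : OM (AF' (AOp.one (W := W) (X := X)) D e) y := by
    refine ⟨fun i => ?_, fun i j hij => ?_, fun w hw => ?_⟩
    · rw [hyB]; exact hx.ne i
    · rw [hyB]; exact hx.orth i j hij
    · obtain ⟨⟨z, hz, hzw⟩, hDw⟩ := w.2
      have hprim : Primitive W X D e z := prim_of_mid hdim hz (by rw [hzw]; exact hDw)
      have h1 : BP W hD e hn ⟨z, hprim⟩ ⟨z, hprim⟩ = 0 := by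
        apply hx.max
        intro i
        rw [← B_cl hD hdim hn ⟨z, hprim⟩ (x i) w (y i) hzw.symm rfl]
        exact hw i
      rw [B_cl hD hdim hn ⟨z, hprim⟩ ⟨z, hprim⟩ w w hzw.symm hzw.symm]
      exact h1
  have hsum : ∑ i, ((SignType.sign (BP W hD e hn (x i) (x i)) : SignType) : ℤ) =
      ∑ i, ((SignType.sign (AF' (AOp.one (W := W) (X := X)) D e (y i) (y i)) : SignType) : ℤ) :=
    Finset.sum_congr rfl fun i _ => by rw [hyB]
  rw [hsum]
  have hΘ : ∀ x : MM W X D e, Mid W X D e (Θ (x : W.H X)) := by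
    intro x
    refine ⟨(F.aT.apply (AS.of x.2.1)).alg (F.hT _ _ (alg_gr x.2.1)), ?_⟩
    rw [← F.LT, x.2.2, map_zero]
  let T : MM W X D e →ₗ[ℚ] MM W X D e :=
    { toFun := fun x => ⟨Θ (x : W.H X), hΘ x⟩
      map_add' := fun x y => Subtype.ext (map_add Θ _ _)
      map_smul' := fun q x => Subtype.ext (by
        change Θ (q • (x : W.H X)) = q • Θ (x : W.H X)
        rw [rat_smul', rat_smul', map_smul]) }
  have hform : ∀ x y, AF' (AOp.one (W := W) (X := X)) D e (T x) (T y) =
      -lam * (AF' (AOp.one (W := W) (X := X)) D e x y - AF' F.ag D e x y) := by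
    intro x y
    have h : ((AF' (AOp.one (W := W) (X := X)) D e (T x) (T y) : ℚ) : W.K) =
        ((-lam * (AF' (AOp.one (W := W) (X := X)) D e x y - AF' F.ag D e x y) : ℚ) : W.K) := by
      rw [B_cast]
      push_cast
      rw [B_cast, AF'_cast]
      change (-1 : W.K) ^ e * W.tr X (Θ (x : W.H X) * Θ (y : W.H X)) = _
      rw [F.form]
      ring
    exact_mod_cast h
  have hsymg : ∀ x y, AF' F.ag D e x y = AF' F.ag D e y x := by
    intro x y
    have h1 := hform x y
    have h2 := hform y x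
    rw [B_symm (T y) (T x), B_symm y x] at h2
    have h3 : lam * AF' F.ag D e x y = lam * AF' F.ag D e y x := by linarith
    exact mul_left_cancel₀ hlam.ne' h3
  refine abs_sum_le B_symm hsymg hlam hform ?_ hOM
  intro l z h1 h2
  have hmem : ∀ i, g (z i : W.H X) ∈ LinearMap.range g := fun i => ⟨_, rfl⟩
  have hli : LinearIndependent W.K (fun i => (⟨_, hmem i⟩ : LinearMap.range g)) := by
    rw [Fintype.linearIndependent_iff]
    intro c hc i
    have h3 : ∑ i, c i • g (z i : W.H X) = 0 := by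
      have := congrArg Subtype.val hc
      simpa using this
    have h4 := congrArg (fun a => (-1 : W.K) ^ e * W.tr X (a * (z i : W.H X))) h3
    simp only [Finset.sum_mul, map_sum, smul_mul_assoc, map_smul, zero_mul, map_zero, mul_zero,
      smul_eq_mul, Finset.mul_sum] at h4
    rw [Finset.sum_eq_single i] at h4
    · have h5 : c i * ((AF' F.ag D e (z i) (z i) : ℚ) : W.K) = 0 := by
        rw [AF'_cast, ← h4]; ring
      rcases mul_eq_zero.1 h5 with h | h
      · exact h
      · exact absurd (by exact_mod_cast h) (h1 i)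
    · intro j _ hj
      have h5 := AF'_cast F.ag (z j) (z i)
      rw [h2 j i hj, Rat.cast_zero] at h5
      rw [mul_left_comm, ← h5, mul_zero]
    · intro h; exact absurd (Finset.mem_univ _) h
  have := hli.fintype_card_le_finrank
  rwa [Fintype.card_fin] at this

end Pool.Agent.N536.HH
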