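import Pool.Agent.N536.HH.Stm2
import Pool.Agent.N202.HZ.Bd

/-!
# The zero-one-half law without the Lefschetz standard conjecture: the bound for the signatures in
# all codimensions

By helper866 (project HH of helper536), after `Pool/Agent/N536/HH/BND.lean` (helper487) and
`Pool/Agent/N202/HZ/Bd.lean`.
-/

open CategoryTheory AlgebraicGeometry Finset

universe u v

set_option autoImplicit false

namespace Pool.Agent.N536.HH

open Module
open Pool.Agent.H914 Pool.Agent.H914.VarClass Pool.Agent.H914.VarClass.Obj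
  Pool.Agent.H914.WeilCohomology Pool.Agent.H281R3.HT Pool.Agent.W552 Pool.Agent.W539.Ker
  Pool.Agent.N202.HZ

namespace BNJ

variable {k : Type u} [Field k] {𝒱 : VarClass k} {ops : CycleOps 𝒱}
  {W : WeilCohomology.{u, v} ops} {X : 𝒱.Obj} {D : X.Cycles} {n : ℕ}

/-- The cohomology as a rational vector space. -/
noncomputable local instance ratModJ (X : 𝒱.Obj) : Module ℚ (W.H X) :=
  Module.compHom (W.H X) (algebraMap ℚ W.K)

lemma rat_smulJ (q : ℚ) (x : W.H X) : q • x = (q : W.K) • x := by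
  change (algebraMap ℚ W.K q) • x = _
  rw [eq_ratCast]

/-- The multiplication with the class of `D`. -/
noncomputable abbrev LL (W : WeilCohomology.{u, v} ops) (X : 𝒱.Obj) (D : X.Cycles) :
    Module.End W.K (W.H X) := LinearMap.mulLeft W.K (W.cl X D)

/-- The primitive algebraic classes of codimension `n`. -/
def MJ (W : WeilCohomology.{u, v} ops) (X : 𝒱.Obj) (D : X.Cycles) (n : ℕ) :
    Submodule ℚ (W.H X) where
  carrier := {x | x ∈ algClasses W X n ∧ (LL W X D ^ (X.dim - 2 * n + 1)) x = 0}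
  add_mem' := by
    rintro x y ⟨hx, hx'⟩ ⟨hy, hy'⟩
    exact ⟨alg_add hx hy, by rw [map_add, hx', hy', add_zero]⟩
  zero_mem' := ⟨alg_zero n, map_zero _⟩
  smul_mem' := by
    rintro q x ⟨hx, hx'⟩
    rw [rat_smulJ]
    exact ⟨alg_smul q hx, by rw [map_smul, hx', smul_zero]⟩

lemma Lpow_alg (hD : X.IsCyc 1 D) (m : ℕ) {x : W.H X} (hx : x ∈ algClasses W X n) :
    AS W X ((LL W X D ^ m) x) := by
  obtain ⟨z, hz, rfl⟩ := hx
  have h : (LL W X D ^ m) (W.cl X z) = W.cl X (divPow ops D m z) := (cl_divPow ..).symm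
  rw [h]
  exact AS.of ⟨_, divPow_mem (ops := ops) hD m hz, rfl⟩

lemma rat_exJ (hD : X.IsCyc 1 D) {T : Module.End W.K (W.H X)} (hT : AOp W X X T)
    (x y : MJ W X D n) :
    ∃ q : ℚ, (-1 : W.K) ^ n *
      W.tr X (T (x : W.H X) * ((LL W X D ^ (X.dim - 2 * n)) (y : W.H X))) = (q : W.K) := by
  obtain ⟨q, hq⟩ := ((hT.apply (AS.of x.2.1)).mul (Lpow_alg hD (X.dim - 2 * n) y.2.1)).tr
  refine ⟨(-1) ^ n * q, ?_⟩
  rw [hq]
  push_cast
  rfl

/-- The rational number `(-1) ^ n tr (T x · L ^ (d - 2 n) y)`. -/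
noncomputable def afJ (hD : X.IsCyc 1 D) {T : Module.End W.K (W.H X)} (hT : AOp W X X T)
    (x y : MJ W X D n) : ℚ :=
  Classical.choose (rat_exJ hD hT x y)

lemma afJ_cast (hD : X.IsCyc 1 D) {T : Module.End W.K (W.H X)} (hT : AOp W X X T)
    (x y : MJ W X D n) :
    ((afJ hD hT x y : ℚ) : W.K) = (-1 : W.K) ^ n *
      W.tr X (T (x : W.H X) * ((LL W X D ^ (X.dim - 2 * n)) (y : W.H X))) :=
  (Classical.choose_spec (rat_exJ hD hT x y)).symm

/-- The rational form `(-1) ^ n tr (T x · L ^ (d - 2 n) y)`. -/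
noncomputable def AJ (hD : X.IsCyc 1 D) {T : Module.End W.K (W.H X)} (hT : AOp W X X T) (n : ℕ) :
    MJ W X D n →ₗ[ℚ] MJ W X D n →ₗ[ℚ] ℚ :=
  LinearMap.mk₂ ℚ (fun x y => afJ hD hT x y)
    (fun x x' y => by
      have h : ((afJ hD hT (x + x') y : ℚ) : W.K) =
          ((afJ hD hT x y + afJ hD hT x' y : ℚ) : W.K) := by
        rw [Rat.cast_add, afJ_cast, afJ_cast, afJ_cast, Submodule.coe_add, map_add, add_mul,
          map_add, mul_add]
      exact_mod_cast h)
    (fun q x y => by
      have h : ((afJ hD hT (q • x) y : ℚ) : W.K) = ((q * afJ hD hT x y : ℚ) : W.K) := by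
        rw [Rat.cast_mul, afJ_cast, afJ_cast, Submodule.coe_smul, rat_smulJ, map_smul,
          smul_mul_assoc, map_smul, smul_eq_mul]
        ring
      rw [smul_eq_mul]
      exact_mod_cast h)
    (fun x y y' => by
      have h : ((afJ hD hT x (y + y') : ℚ) : W.K) =
          ((afJ hD hT x y + afJ hD hT x y' : ℚ) : W.K) := by
        rw [Rat.cast_add, afJ_cast, afJ_cast, afJ_cast, Submodule.coe_add, map_add, mul_add,
          map_add, mul_add]
      exact_mod_cast h)
    (fun q x y => by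
      have h : ((afJ hD hT x (q • y) : ℚ) : W.K) = ((q * afJ hD hT x y : ℚ) : W.K) := by
        rw [Rat.cast_mul, afJ_cast, afJ_cast, Submodule.coe_smul, rat_smulJ, map_smul,
          mul_smul_comm, map_smul, smul_eq_mul]
        ring
      rw [smul_eq_mul]
      exact_mod_cast h)

lemma AJ_cast (hD : X.IsCyc 1 D) {T : Module.End W.K (W.H X)} (hT : AOp W X X T)
    (x y : MJ W X D n) :
    ((AJ hD hT n x y : ℚ) : W.K) = (-1 : W.K) ^ n *
      W.tr X (T (x : W.H X) * ((LL W X D ^ (X.dim - 2 * n)) (y : W.H X))) :=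
  afJ_cast hD hT x y

lemma BJ_cast (hD : X.IsCyc 1 D) (x y : MJ W X D n) :
    ((AJ hD (AOp.one (W := W) (X := X)) n x y : ℚ) : W.K) =
      (-1 : W.K) ^ n * W.tr X ((x : W.H X) * ((LL W X D ^ (X.dim - 2 * n)) (y : W.H X))) := by
  rw [AJ_cast, Module.End.one_apply]

lemma BJ_symm (hD : X.IsCyc 1 D) (x y : MJ W X D n) :
    AJ hD (AOp.one (W := W) (X := X)) n x y = AJ hD (AOp.one (W := W) (X := X)) n y x := by
  have h : ((AJ hD (AOp.one (W := W) (X := X)) n x y : ℚ) : W.K) =
      ((AJ hD (AOp.one (W := W) (X := X)) n y x : ℚ) : W.K) := by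
    rw [BJ_cast, BJ_cast, ← L_pow_self hD, (Lpow_alg hD (X.dim - 2 * n) x.2.1).comm]
  exact_mod_cast h

/-- The class of a primitive cycle. -/
lemma mj_cl {z : X.Cycles} (hz : Primitive W X D n z) : W.cl X z ∈ MJ W X D n := by
  refine ⟨⟨z, hz.1, rfl⟩, ?_⟩
  have h := hz.2
  rw [cl_divPow] at h
  exact h

lemma prim_of_mj {z : X.Cycles} (hz : X.IsCyc n z)
    (h : (LL W X D ^ (X.dim - 2 * n + 1)) (W.cl X z) = 0) : Primitive W X D n z := by
  refine ⟨hz, ?_⟩
  rw [cl_divPow]
  exact h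

lemma BJ_cl (hD : X.IsCyc 1 D) (hn : 2 * n ≤ X.dim)
    (z w : PM W X D n) (x y : MJ W X D n) (hx : (x : W.H X) = W.cl X (z : X.Cycles))
    (hy : (y : W.H X) = W.cl X (w : X.Cycles)) :
    AJ hD (AOp.one (W := W) (X := X)) n x y = BP W hD n hn z w := by
  have h : ((AJ hD (AOp.one (W := W) (X := X)) n x y : ℚ) : W.K) =
      ((BP W hD n hn z w : ℚ) : W.K) := by
    rw [BJ_cast, BP_apply, pairing_cast hD hn z.2.1 w.2.1, hx, hy]
  exact_mod_cast h

lemma LT_pow {Θ : Module.End W.K (W.H X)}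
    (h : ∀ x, Θ (W.cl X D * x) = W.cl X D * Θ x) (m : ℕ) (x : W.H X) :
    (LL W X D ^ m) (Θ x) = Θ ((LL W X D ^ m) x) := by
  induction m with
  | zero => rw [pow_zero, Module.End.one_apply, Module.End.one_apply]
  | succ m ih =>
    rw [pow_succ', Module.End.mul_apply, Module.End.mul_apply, ih, LinearMap.mulLeft_apply,
      LinearMap.mulLeft_apply, h]

/-- **The bound for the signature in codimension `n`.** -/
theorem sig_le (hD : X.IsCyc 1 D) (hn : 2 * n ≤ X.dim) {lam : ℚ} (hlam : 0 < lam)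
    {g Θ : Module.End W.K (W.H X)} (F : Flip W X D lam g Θ) :
    |(nPos W X D n : ℤ) - nNeg W X D n| ≤ finrank W.K ((W.gr X (2 * n)).map g) := by
  classical
  obtain ⟨m, x, hx⟩ := exists_prim W hD hn
  have hsig : (nPos W X D n : ℤ) - nNeg W X D n = sig W X D n := rfl
  rw [hsig, sig_eq hD hn hx]
  let y : Fin m → MJ W X D n := fun i => ⟨W.cl X (x i : X.Cycles), mj_cl (x i).2⟩
  have hyB : ∀ i j, AJ hD (AOp.one (W := W) (X := X)) n (y i) (y j) =
      BP W hD n hn (x i) (x j) :=
    fun i j => BJ_cl hD hn _ _ _ _ rfl rfl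
  have hOM : OM (AJ hD (AOp.one (W := W) (X := X)) n) y := by
    refine ⟨fun i => ?_, fun i j hij => ?_, fun w hw => ?_⟩
    · rw [hyB]; exact hx.ne i
    · rw [hyB]; exact hx.orth i j hij
    · obtain ⟨⟨z, hz, hzw⟩, hDw⟩ := w.2
      have hprim : Primitive W X D n z := prim_of_mj hz (by rw [hzw]; exact hDw)
      have h1 : BP W hD n hn ⟨z, hprim⟩ ⟨z, hprim⟩ = 0 := by
        apply hx.max
        intro i
        rw [← BJ_cl hD hn ⟨z, hprim⟩ (x i) w (y i) hzw.symm rfl]
        exact hw i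
      rw [BJ_cl hD hn ⟨z, hprim⟩ ⟨z, hprim⟩ w w hzw.symm hzw.symm]
      exact h1
  have hsum : ∑ i, ((SignType.sign (BP W hD n hn (x i) (x i)) : SignType) : ℤ) =
      ∑ i, ((SignType.sign (AJ hD (AOp.one (W := W) (X := X)) n (y i) (y i)) : SignType) : ℤ) :=
    Finset.sum_congr rfl fun i _ => by rw [hyB]
  rw [hsum]
  have hΘ : ∀ x : MJ W X D n, Θ (x : W.H X) ∈ MJ W X D n := by
    intro x
    refine ⟨(F.aT.apply (AS.of x.2.1)).alg (F.hT _ _ (alg_gr x.2.1)), ?_⟩
    rw [LT_pow F.LT, x.2.2, map_zero]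
  let T : MJ W X D n →ₗ[ℚ] MJ W X D n :=
    { toFun := fun x => ⟨Θ (x : W.H X), hΘ x⟩
      map_add' := fun x y => Subtype.ext (map_add Θ _ _)
      map_smul' := fun q x => Subtype.ext (by
        change Θ (q • (x : W.H X)) = q • Θ (x : W.H X)
        rw [rat_smulJ, rat_smulJ, map_smul]) }
  have hform : ∀ x y, AJ hD (AOp.one (W := W) (X := X)) n (T x) (T y) =
      -lam * (AJ hD (AOp.one (W := W) (X := X)) n x y - AJ hD F.ag n x y) := by
    intro x y
    have h : ((AJ hD (AOp.one (W := W) (X := X)) n (T x) (T y) : ℚ) : W.K) =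
        ((-lam * (AJ hD (AOp.one (W := W) (X := X)) n x y - AJ hD F.ag n x y) : ℚ) : W.K) := by
      rw [BJ_cast]
      push_cast
      rw [BJ_cast, AJ_cast]
      change (-1 : W.K) ^ n * W.tr X (Θ (x : W.H X) *
        ((LL W X D ^ (X.dim - 2 * n)) (Θ (y : W.H X)))) = _
      rw [LT_pow F.LT, F.form]
      ring
    exact_mod_cast h
  have hsymg : ∀ x y, AJ hD F.ag n x y = AJ hD F.ag n y x := by
    intro x y
    have h1 := hform x y
    have h2 := hform y x
    rw [BJ_symm hD (T y) (T x), BJ_symm hD y x] at h2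
    have h3 : lam * AJ hD F.ag n x y = lam * AJ hD F.ag n y x := by linarith
    exact mul_left_cancel₀ hlam.ne' h3
  refine abs_sum_le (BJ_symm hD) hsymg hlam hform ?_ hOM
  intro l z h1 h2
  have hmem : ∀ i, g (z i : W.H X) ∈ (W.gr X (2 * n)).map g := fun i =>
    ⟨_, alg_gr (z i).2.1, rfl⟩
  have hli : LinearIndependent W.K (fun i => (⟨_, hmem i⟩ : (W.gr X (2 * n)).map g)) := by
    rw [Fintype.linearIndependent_iff]
    intro c hc i
    have h3 : ∑ i, c i • g (z i : W.H X) = 0 := by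
      have := congrArg Subtype.val hc
      simpa using this
    have h4 := congrArg (fun a => (-1 : W.K) ^ n *
      W.tr X (a * ((LL W X D ^ (X.dim - 2 * n)) (z i : W.H X)))) h3
    simp only [Finset.sum_mul, map_sum, smul_mul_assoc, map_smul, zero_mul, map_zero, mul_zero,
      smul_eq_mul, Finset.mul_sum] at h4
    rw [Finset.sum_eq_single i] at h4
    · have h5 : c i * ((AJ hD F.ag n (z i) (z i) : ℚ) : W.K) = 0 := by
        rw [AJ_cast, ← h4]; ring
      rcases mul_eq_zero.1 h5 with h | h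
      · exact h
      · exact absurd (by exact_mod_cast h) (h1 i)
    · intro j _ hj
      have h5 := AJ_cast hD F.ag (z j) (z i)
      rw [h2 j i hj, Rat.cast_zero] at h5
      rw [mul_left_comm, ← h5, mul_zero]
    · intro h; exact absurd (Finset.mem_univ _) h
  have := hli.fintype_card_le_finrank
  rwa [Fintype.card_fin] at this

/-- The ranks of a graded operator in the single degrees. -/
lemma sum_finrank_leJ {g : Module.End W.K (W.H X)} (hg : ∀ i, ∀ x ∈ W.gr X i, g x ∈ W.gr X i)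
    (s : Finset ℕ) :
    ∑ j ∈ s, finrank W.K ((W.gr X (2 * j)).map g) ≤ finrank W.K (LinearMap.range g) := by
  classical
  let Φ : (Π j : s, (W.gr X (2 * (j : ℕ))).map g) →ₗ[W.K] LinearMap.range g :=
    { toFun := fun v => ⟨∑ j, (v j : W.H X), Submodule.sum_mem _ fun j _ => by
        obtain ⟨y, _, hy⟩ := (v j).2
        exact ⟨y, hy⟩⟩
      map_add' := fun v w => Subtype.ext (by
        simp [Finset.sum_add_distrib])
      map_smul' := fun c v => Subtype.ext (by
        simp [Finset.smul_sum]) }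
  have hΦ : Function.Injective Φ := by
    rw [← LinearMap.ker_eq_bot, LinearMap.ker_eq_bot']
    intro v hv
    have h1 : ∑ j, (v j : W.H X) = 0 := congrArg Subtype.val hv
    funext j
    apply Subtype.ext
    have h2 := congrArg (proj (W.isInternal X) (2 * (j : ℕ))) h1
    have hm : ∀ i : s, (v i : W.H X) ∈ W.gr X (2 * (i : ℕ)) := by
      intro i
      obtain ⟨y, hy, hy'⟩ := (v i).2
      rw [← hy']
      exact hg _ _ hy
    rw [map_sum, map_zero, Finset.sum_eq_single j] at h2
    · rw [proj_same _ (hm j)] at h2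
      exact h2
    · intro i _ hi
      apply proj_ne _ (hm i)
      intro h
      apply hi
      apply Subtype.ext
      omega
    · intro h; exact absurd (Finset.mem_univ _) h
  have h := LinearMap.finrank_le_finrank_of_injective hΦ
  rw [Module.finrank_pi_fintype] at h
  rwa [← Finset.sum_coe_sort s (fun j => finrank W.K ((W.gr X (2 * j)).map g))]

end BNJ

open BNJ

/-- **The bound for the signatures in all codimensions.** -/
theorem t_BNJ : S_BNJ.{u, v} := by
  intro k _ 𝒱 ops W X D hD lam hlam g Θ F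
  have h1 : (imbalance W X D : ℤ) =
      ∑ n ∈ range (X.dim / 2 + 1), |(nPos W X D n : ℤ) - nNeg W X D n| := by
    rw [imbalance]
    push_cast
    apply Finset.sum_congr rfl
    intro n _
    rfl
  have h2 : (imbalance W X D : ℤ) ≤ finrank W.K (LinearMap.range g) := by
    rw [h1]
    refine (Finset.sum_le_sum (fun n hn => sig_le hD (by
      rw [Finset.mem_range] at hn; omega) hlam F)).trans ?_
    exact_mod_cast sum_finrank_leJ F.hg (range (X.dim / 2 + 1))
  exact_mod_cast h2

end Pool.Agent.N536.HH
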