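import Pool.Agent.N536.HH.Stm2
import Pool.Agent.N286.HH.Base

/-!
# The primitive class of codimension `j` in the ring generated by `D × X` and `X × D`
(project HH, part DFJ, helper271)
-/

open CategoryTheory AlgebraicGeometry Finset

universe u v

namespace Pool.Agent.N536.HH

open Pool.Agent.H914 Pool.Agent.H914.VarClass Pool.Agent.H914.VarClass.Obj
  Pool.Agent.H914.WeilCohomology Pool.Agent.H281R3.HT Pool.Agent.W539.Ker Pool.Agent.N286.HH

namespace DFJ

/-- Pascal's rule for alternating sums -/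
lemma alt_succ (j : ℕ) (g : ℕ → ℤ) :
    ∑ i ∈ range (j + 2), (-1 : ℤ) ^ i * ((j + 1).choose i : ℤ) * g i =
      ∑ i ∈ range (j + 1), (-1 : ℤ) ^ i * (j.choose i : ℤ) * (g i - g (i + 1)) := by
  have h1 : ∑ i ∈ range (j + 1), (-1 : ℤ) ^ i * (j.choose i : ℤ) * g i =
      g 0 + ∑ i ∈ range (j + 1), (-1 : ℤ) ^ (i + 1) * (j.choose (i + 1) : ℤ) * g (i + 1) := by
    have h2 : ∑ i ∈ range (j + 1 + 1), (-1 : ℤ) ^ i * (j.choose i : ℤ) * g i =
        ∑ i ∈ range (j + 1), (-1 : ℤ) ^ i * (j.choose i : ℤ) * g i := by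
      rw [sum_range_succ _ (j + 1), Nat.choose_succ_self]
      simp
    rw [← h2, sum_range_succ']
    simp
    ring
  rw [sum_range_succ']
  have h3 : ∀ i ∈ range (j + 1), (-1 : ℤ) ^ (i + 1) * ((j + 1).choose (i + 1) : ℤ) * g (i + 1) =
      (-1 : ℤ) ^ (i + 1) * (j.choose (i + 1) : ℤ) * g (i + 1) -
        (-1 : ℤ) ^ i * (j.choose i : ℤ) * g (i + 1) := by
    intro i _
    rw [Nat.choose_succ_succ]
    push_cast
    ring
  rw [sum_congr rfl h3, sum_sub_distrib]
  have h4 : ∀ i ∈ range (j + 1), (-1 : ℤ) ^ i * (j.choose i : ℤ) * (g i - g (i + 1)) =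
      (-1 : ℤ) ^ i * (j.choose i : ℤ) * g i - (-1 : ℤ) ^ i * (j.choose i : ℤ) * g (i + 1) := by
    intro i _
    ring
  rw [sum_congr rfl h4, sum_sub_distrib, h1]
  simp
  ring

/-- the alternating sum -/
def F (n e j a b : ℕ) : ℤ :=
  ∑ i ∈ range (j + 1), (-1 : ℤ) ^ i * (j.choose i : ℤ) *
    (((n - i).descFactorial a : ℤ) * ((e + i).descFactorial b : ℤ))

lemma desc_diff (n a : ℕ) : ((n + 1).descFactorial a : ℤ) - (n.descFactorial a : ℤ) =
    a * (n.descFactorial (a - 1) : ℤ) := by
  cases a with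
  | zero => simp
  | succ a =>
    rw [Nat.succ_descFactorial_succ, Nat.descFactorial_succ]
    rcases le_or_gt a n with h | h
    · rw [Nat.add_sub_cancel]
      push_cast [Nat.cast_sub h]
      ring
    · have h0 : n.descFactorial a = 0 := Nat.descFactorial_eq_zero_iff_lt.2 h
      rw [Nat.add_sub_cancel, h0]
      simp

lemma F_succ (n e j a b : ℕ) (h : j ≤ n) :
    F (n + 1) e (j + 1) a b = a * F n e j (a - 1) b - b * F n e j a (b - 1) := by
  unfold F
  rw [alt_succ, mul_sum, mul_sum, ← sum_sub_distrib]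
  refine sum_congr rfl fun i hi => ?_
  rw [mem_range] at hi
  have e1 : n + 1 - i = (n - i) + 1 := by omega
  have e2 : n + 1 - (i + 1) = n - i := by omega
  have e3 : e + (i + 1) = (e + i) + 1 := by ring
  rw [e1, e2, e3]
  have d1 := desc_diff (n - i) a
  have d2 := desc_diff (e + i) b
  linear_combination (-1 : ℤ) ^ i * (j.choose i : ℤ) * (((e + i).descFactorial b : ℤ) * d1 -
    ((n - i).descFactorial a : ℤ) * d2)

lemma F_zero (j : ℕ) : ∀ n e a b : ℕ, j ≤ n → a + b < j → F n e j a b = 0 := by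
  induction j with
  | zero => intro n e a b _ h; omega
  | succ j ih =>
    intro n e a b hn hab
    obtain ⟨m, rfl⟩ : ∃ m, n = m + 1 := ⟨n - 1, by omega⟩
    rw [F_succ m e j a b (by omega)]
    have h1 : (a : ℤ) * F m e j (a - 1) b = 0 := by
      rcases Nat.eq_zero_or_pos a with h | h
      · rw [h]; simp
      · rw [ih m e (a - 1) b (by omega) (by omega), mul_zero]
    have h2 : (b : ℤ) * F m e j a (b - 1) = 0 := by
      rcases Nat.eq_zero_or_pos b with h | h
      · rw [h]; simp
      · rw [ih m e a (b - 1) (by omega) (by omega), mul_zero]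
    rw [h1, h2, sub_zero]

lemma F_top (j : ℕ) : ∀ n e a b : ℕ, j ≤ n → a + b = j →
    F n e j a b = (-1) ^ (j + a) * (j.factorial : ℤ) := by
  induction j with
  | zero =>
    intro n e a b _ h
    have ha : a = 0 := by omega
    have hb : b = 0 := by omega
    subst ha; subst hb
    simp [F]
  | succ j ih =>
    intro n e a b hn hab
    obtain ⟨m, rfl⟩ : ∃ m, n = m + 1 := ⟨n - 1, by omega⟩
    rw [F_succ m e j a b (by omega)]
    have h1 : (a : ℤ) * F m e j (a - 1) b = -(a * ((-1) ^ (j + a) * (j.factorial : ℤ))) := by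
      rcases Nat.eq_zero_or_pos a with h | h
      · rw [h]; simp
      · rw [ih m e (a - 1) b (by omega) (by omega)]
        obtain ⟨c, rfl⟩ : ∃ c, a = c + 1 := ⟨a - 1, by omega⟩
        rw [Nat.add_sub_cancel, ← add_assoc, pow_succ]
        ring
    have h2 : (b : ℤ) * F m e j a (b - 1) = b * ((-1) ^ (j + a) * (j.factorial : ℤ)) := by
      rcases Nat.eq_zero_or_pos b with h | h
      · rw [h]; simp
      · rw [ih m e a (b - 1) (by omega) (by omega)]
    rw [h1, h2, Nat.factorial_succ]
    have h3 : (a : ℤ) + b = j + 1 := by exact_mod_cast hab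
    have h4 : j + 1 + a = (j + a) + 1 := by ring
    rw [h4, pow_succ]
    push_cast
    linear_combination (-1 : ℤ) * ((-1) ^ (j + a) * (j.factorial : ℤ)) * h3

/-- the numerical identity -/
lemma num (x y a b M : ℕ) (h : x + y = M + a + b) :
    (if a ≤ x then M.choose (x - a) else 0) * (x.factorial * y.factorial) =
      M.factorial * (x.descFactorial a * y.descFactorial b) := by
  split_ifs with hx
  · obtain ⟨x', rfl⟩ := Nat.exists_eq_add_of_le hx
    rw [Nat.add_sub_cancel_left]
    rcases le_or_gt x' M with h1 | h1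
    · obtain ⟨y', rfl⟩ := Nat.exists_eq_add_of_le h1
      have hy : y = y' + b := by omega
      subst hy
      have e1 := Nat.factorial_mul_descFactorial (show a ≤ a + x' by omega)
      have e2 := Nat.factorial_mul_descFactorial (show b ≤ y' + b by omega)
      rw [Nat.add_sub_cancel_left] at e1
      rw [Nat.add_sub_cancel] at e2
      have e3 := Nat.choose_mul_factorial_mul_factorial h1
      rw [Nat.add_sub_cancel_left] at e3
      rw [← e1, ← e2, ← e3]
      ring
    · rw [Nat.choose_eq_zero_of_lt h1]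
      have h2 : y.descFactorial b = 0 := Nat.descFactorial_eq_zero_iff_lt.2 (by omega)
      rw [h2]
      simp
  · have h2 : x.descFactorial a = 0 := Nat.descFactorial_eq_zero_iff_lt.2 (by omega)
    rw [h2]
    simp

/-- the coefficients -/
def co (d j i : ℕ) : ℚ :=
  (-1) ^ i * (j.choose i : ℚ) * (((d - i).factorial : ℚ) * ((d - j + i).factorial : ℚ))

lemma numA (d j p : ℕ) (hj : j ≤ d) (h1 : d - j + 1 ≤ p) (h2 : p ≤ d) :
    ∑ i ∈ range (j + 1), co d j i *
      (((if i ≤ p then (2 * (d - j) + 1).choose (p - i) else 0 : ℕ)) : ℚ) = 0 := by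
  have key : ∀ i ∈ range (j + 1), co d j i *
      (((if i ≤ p then (2 * (d - j) + 1).choose (p - i) else 0 : ℕ)) : ℚ) =
      ((2 * (d - j) + 1).factorial : ℚ) * (((-1 : ℤ) ^ i * (j.choose i : ℤ) *
        (((d - i).descFactorial (d - p) : ℤ) *
          ((d - j + i).descFactorial (p - (d - j) - 1) : ℤ)) : ℤ) : ℚ) := by
    intro i hi
    rw [mem_range] at hi
    have h3 := num (d - i) (d - j + i) (d - p) (p - (d - j) - 1) (2 * (d - j) + 1) (by omega)
    have h4 : (if d - p ≤ d - i then (2 * (d - j) + 1).choose (d - i - (d - p)) else 0) =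
        (if i ≤ p then (2 * (d - j) + 1).choose (p - i) else 0) := by
      by_cases h5 : i ≤ p
      · rw [if_pos h5, if_pos (by omega)]
        congr 1
        omega
      · rw [if_neg h5, if_neg (by omega)]
    rw [h4] at h3
    have h6 : (((if i ≤ p then (2 * (d - j) + 1).choose (p - i) else 0 : ℕ)) : ℚ) *
        (((d - i).factorial : ℚ) * ((d - j + i).factorial : ℚ)) =
        ((2 * (d - j) + 1).factorial : ℚ) * (((d - i).descFactorial (d - p) : ℚ) *
          ((d - j + i).descFactorial (p - (d - j) - 1) : ℚ)) := by exact_mod_cast h3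
    unfold co
    rw [mul_assoc, mul_comm _ (((if i ≤ p then (2 * (d - j) + 1).choose (p - i) else 0 : ℕ)) : ℚ),
      h6]
    push_cast
    ring
  rw [sum_congr rfl key, ← mul_sum, ← Int.cast_sum]
  have h7 := F_zero j d (d - j) (d - p) (p - (d - j) - 1) hj (by omega)
  unfold F at h7
  rw [h7]
  simp

lemma numB (d j a : ℕ) (hj : j ≤ d) (ha : a ≤ j) :
    ∑ i ∈ range (j + 1), co d j i *
      (((if a + i ≤ d then (2 * (d - j)).choose (d - a - i) else 0 : ℕ)) : ℚ) =
      ((2 * (d - j)).factorial : ℚ) * ((-1) ^ (j + a) * (j.factorial : ℚ)) := by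
  have key : ∀ i ∈ range (j + 1), co d j i *
      (((if a + i ≤ d then (2 * (d - j)).choose (d - a - i) else 0 : ℕ)) : ℚ) =
      ((2 * (d - j)).factorial : ℚ) * (((-1 : ℤ) ^ i * (j.choose i : ℤ) *
        (((d - i).descFactorial a : ℤ) *
          ((d - j + i).descFactorial (j - a) : ℤ)) : ℤ) : ℚ) := by
    intro i hi
    rw [mem_range] at hi
    have h3 := num (d - i) (d - j + i) a (j - a) (2 * (d - j)) (by omega)
    have h4 : (if a ≤ d - i then (2 * (d - j)).choose (d - i - a) else 0) =
        (if a + i ≤ d then (2 * (d - j)).choose (d - a - i) else 0) := by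
      by_cases h5 : a + i ≤ d
      · rw [if_pos h5, if_pos (by omega)]
        congr 1
        omega
      · rw [if_neg h5, if_neg (by omega)]
    rw [h4] at h3
    have h6 : (((if a + i ≤ d then (2 * (d - j)).choose (d - a - i) else 0 : ℕ)) : ℚ) *
        (((d - i).factorial : ℚ) * ((d - j + i).factorial : ℚ)) =
        ((2 * (d - j)).factorial : ℚ) * (((d - i).descFactorial a : ℚ) *
          ((d - j + i).descFactorial (j - a) : ℚ)) := by exact_mod_cast h3
    unfold co
    rw [mul_assoc, mul_comm _ (((if a + i ≤ d then (2 * (d - j)).choose (d - a - i) else 0 : ℕ)) : ℚ),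
      h6]
    push_cast
    ring
  rw [sum_congr rfl key, ← mul_sum, ← Int.cast_sum]
  have h7 := F_top j d (d - j) a (j - a) hj (by omega)
  unfold F at h7
  rw [h7]
  push_cast
  rfl

/-- the sum of the absolute values -/
lemma co_pos (d j : ℕ) : 0 < ∑ a ∈ range (j + 1), (-1 : ℚ) ^ a * co d j a := by
  apply sum_pos
  · intro a ha
    rw [mem_range] at ha
    unfold co
    have h1 : (-1 : ℚ) ^ a * (-1) ^ a = 1 := by
      rw [← mul_pow]; norm_num
    have h2 : (0 : ℚ) < (j.choose a : ℚ) := by
      exact_mod_cast Nat.choose_pos (by omega)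
    have h3 : (0 : ℚ) < ((d - a).factorial : ℚ) := by exact_mod_cast Nat.factorial_pos _
    have h4 : (0 : ℚ) < ((d - j + a).factorial : ℚ) := by exact_mod_cast Nat.factorial_pos _
    calc (0 : ℚ) < (j.choose a : ℚ) * (((d - a).factorial : ℚ) * ((d - j + a).factorial : ℚ)) := by
          positivity
      _ = ((-1 : ℚ) ^ a * (-1) ^ a) * ((j.choose a : ℚ) * (((d - a).factorial : ℚ) *
          ((d - j + a).factorial : ℚ))) := by rw [h1, one_mul]
      _ = _ := by ring
  · exact ⟨0, by simp⟩

/-- reindexing -/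
lemma reidx {A : Type*} [AddCommGroup A] (M i j : ℕ) (hij : i ≤ j) (G : ℕ → A) :
    ∑ l ∈ range (M + 1), M.choose l • G (l + i) =
      ∑ p ∈ range (M + j + 1), (if i ≤ p then M.choose (p - i) else 0) • G p := by
  have h1 : ∑ p ∈ (range (M + 1)).image (fun l => l + i),
      (if i ≤ p then M.choose (p - i) else 0) • G p =
      ∑ l ∈ range (M + 1), M.choose l • G (l + i) := by
    rw [sum_image (fun x _ y _ h => by simpa using h)]
    refine sum_congr rfl fun l _ => ?_
    rw [if_pos (by omega), Nat.add_sub_cancel]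
  rw [← h1]
  refine sum_subset ?_ ?_
  · intro p hp
    rw [mem_image] at hp
    obtain ⟨l, hl, rfl⟩ := hp
    rw [mem_range] at hl ⊢
    omega
  · intro p hp hn
    by_cases h2 : i ≤ p
    · rw [if_pos h2]
      rcases le_or_gt (p - i) M with h3 | h3
      · exfalso
        apply hn
        rw [mem_image]
        exact ⟨p - i, by rw [mem_range]; omega, by omega⟩
      · rw [Nat.choose_eq_zero_of_lt h3, zero_smul]
    · rw [if_neg h2, zero_smul]

lemma isCyc_sum {k : Type u} [Field k] {𝒱 : VarClass k} {X : 𝒱.Obj} {n : ℕ} {ι : Type}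
    (s : Finset ι) (f : ι → X.Cycles) (h : ∀ i ∈ s, X.IsCyc n (f i)) :
    X.IsCyc n (∑ i ∈ s, f i) := by
  classical
  induction s using Finset.induction_on with
  | empty =>
    rw [Finset.sum_empty]
    exact SmVar.IsCyc.zero _ _
  | insert a s ha ih =>
    rw [Finset.sum_insert ha]
    exact (h a (Finset.mem_insert_self a s)).add
      (ih fun i hi => h i (Finset.mem_insert_of_mem hi))

end DFJ

open DFJ in
theorem t_DFJ : S_DFJ.{u, v} := by
  intro k _ 𝒱 ops W P hpos j hj
  show HasFamily W (P.X.prod P.X) (dD ops P.D P.D) j 1 1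
  have hP := hpos.isCyc
  have hα : W.cl P.X P.D ∈ W.gr P.X 2 := W.cl_mem hP
  obtain ⟨v, hv⟩ : ∃ v, v = P.X.V.degCycle (divPow ops P.D P.X.dim P.X.V.fundCycle) := ⟨_, rfl⟩
  have hv0 : 0 < v := hv ▸ hpos.deg_pos
  have hfd : ∀ n, P.X.IsCyc n (divPow ops P.D n P.X.V.fundCycle) := by
    intro n
    have h := divPow_mem (ops := ops) hP n (SmVar.fundCycle_mem P.X.V)
    rwa [zero_add] at h
  have hfc : ∀ n, W.cl P.X (divPow ops P.D n P.X.V.fundCycle) = W.cl P.X P.D ^ n := by
    intro n
    have h2 : W.cl P.X P.X.V.fundCycle = 1 := W.cl_fund P.X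
    rw [cl_divPow, mulLeft_pow, h2, mul_one]
  have htv : W.tr P.X (W.cl P.X P.D ^ P.X.dim) = (v : W.K) := by
    have h1 := W.tr_cl (hfd P.X.dim)
    rw [hfc] at h1
    rw [h1, hv]
  obtain ⟨d, hd⟩ : ∃ d, d = P.X.dim := ⟨_, rfl⟩
  obtain ⟨α, hαe⟩ : ∃ α, α = W.cl P.X P.D := ⟨_, rfl⟩
  rw [← hαe] at hα htv
  rw [← hd] at htv hj
  have htz : ∀ n, n ≠ d → W.tr P.X (α ^ n) = 0 := by
    intro n hn
    refine W.tr_eq_zero (pow_gr hα n) ?_
    rw [← hd]
    omega
  have hα0 : ∀ n, d + 1 ≤ n → α ^ n = 0 := by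
    intro n hn
    have h1 := pow_gr hα n
    rw [W.gr_eq_bot P.X (2 * n) (by rw [← hd]; omega)] at h1
    exact (Submodule.mem_bot _).1 h1
  have hdim : (P.X.prod P.X).dim = P.X.dim + P.X.dim := rfl
  have hDP := isCyc_dD (ops := ops) hP hP
  have hLD : W.cl (P.X.prod P.X) (dD ops P.D P.D) =
      W.map (fst P.X P.X) α + W.map (snd P.X P.X) α := by
    rw [cl_dD, hαe]
  obtain ⟨Bf, hB⟩ : ∃ Bf : ℕ → ℕ → W.H (P.X.prod P.X), Bf = fun p q =>
    W.map (fst P.X P.X) (α ^ p) * W.map (snd P.X P.X) (α ^ q) := ⟨_, rfl⟩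
  have hBz1 : ∀ p q, d + 1 ≤ p → Bf p q = 0 := by
    intro p q hp
    rw [hB]
    show W.map (fst P.X P.X) (α ^ p) * W.map (snd P.X P.X) (α ^ q) = 0
    rw [hα0 p hp, map_zero, zero_mul]
  have hBz2 : ∀ p q, d + 1 ≤ q → Bf p q = 0 := by
    intro p q hp
    rw [hB]
    show W.map (fst P.X P.X) (α ^ p) * W.map (snd P.X P.X) (α ^ q) = 0
    rw [hα0 q hp, map_zero, mul_zero]
  have hBtr : ∀ p q p' q', W.tr (P.X.prod P.X) (Bf p q * Bf p' q') =
      W.tr P.X (α ^ (p + p')) * W.tr P.X (α ^ (q + q')) := by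
    intro p q p' q'
    rw [hB]
    show W.tr (P.X.prod P.X) ((W.map (fst P.X P.X) (α ^ p) * W.map (snd P.X P.X) (α ^ q)) *
      (W.map (fst P.X P.X) (α ^ p') * W.map (snd P.X P.X) (α ^ q'))) = _
    rw [tr_ext_mul _ _ _ (pow_gr hα q), ← pow_add, ← pow_add]
  obtain ⟨Z, hZ⟩ : ∃ Z : (P.X.prod P.X).Cycles, Z = ∑ i ∈ range (j + 1), (co d j i) •
      ops.mul (ops.pull (fst P.X P.X) (divPow ops P.D i P.X.V.fundCycle))
        (ops.pull (snd P.X P.X) (divPow ops P.D (j - i) P.X.V.fundCycle)) := ⟨_, rfl⟩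
  have hcyc : (P.X.prod P.X).IsCyc j Z := by
    rw [hZ]
    refine isCyc_sum _ _ fun i hi => ?_
    rw [Finset.mem_range] at hi
    apply SmVar.IsCyc.smul
    have h1 := ops.mul_mem
      (ops.pull_mem (fst P.X P.X) (hfd i))
      (ops.pull_mem (snd P.X P.X) (hfd (j - i)))
    have h2 : i + (j - i) = j := by omega
    rw [h2] at h1
    exact h1
  have hcl : W.cl (P.X.prod P.X) Z = ∑ i ∈ range (j + 1), ((co d j i : ℚ) : W.K) •
      Bf i (j - i) := by
    rw [hZ, map_sum]
    refine Finset.sum_congr rfl fun i _ => ?_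
    rw [W.cl_smul, W.cl_mul, W.cl_pull, W.cl_pull, hfc, hfc, ← hαe, hB]
  have hLM : ∀ M, (W.map (fst P.X P.X) α + W.map (snd P.X P.X) α) ^ M *
      W.cl (P.X.prod P.X) Z = ∑ p ∈ range (M + j + 1),
        (((∑ i ∈ range (j + 1), co d j i *
          (((if i ≤ p then M.choose (p - i) else 0 : ℕ)) : ℚ) : ℚ)) : W.K) •
            Bf p (M + j - p) := by
    intro M
    rw [hcl, Finset.mul_sum]
    have h1 : ∀ i ∈ range (j + 1), (W.map (fst P.X P.X) α + W.map (snd P.X P.X) α) ^ M *
        (((co d j i : ℚ) : W.K) • Bf i (j - i)) = ∑ p ∈ range (M + j + 1),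
          ((co d j i : ℚ) : W.K) • ((if i ≤ p then M.choose (p - i) else 0) •
            Bf p (M + j - p)) := by
      intro i hi
      rw [Finset.mem_range] at hi
      rw [mul_smul_comm, ← Finset.smul_sum,
        ← reidx M i j (by omega) (fun p => Bf p (M + j - p))]
      congr 1
      rw [hB]
      show (W.map (fst P.X P.X) α + W.map (snd P.X P.X) α) ^ M *
        (W.map (fst P.X P.X) (α ^ i) * W.map (snd P.X P.X) (α ^ (j - i))) = _
      rw [pow_L α hα]
      refine Finset.sum_congr rfl fun l hl => ?_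
      rw [Finset.mem_range] at hl
      have e1 : M + j - (l + i) = (M - l) + (j - i) := by omega
      rw [← pow_add, ← pow_add, ← e1]
    rw [Finset.sum_congr rfl h1, Finset.sum_comm]
    refine Finset.sum_congr rfl fun p _ => ?_
    rw [Rat.cast_sum, Finset.sum_smul]
    refine Finset.sum_congr rfl fun i _ => ?_
    rw [Rat.cast_mul, mul_smul, Rat.cast_natCast, Nat.cast_smul_eq_nsmul]
  refine hasFamily_of Z ⟨hcyc, ?_⟩ ?_
  · have h1 : (P.X.prod P.X).dim - 2 * j + 1 = 2 * (d - j) + 1 := by
      rw [hdim, ← hd]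
      omega
    rw [cl_divPow, mulLeft_pow, hLD, h1, hLM]
    refine Finset.sum_eq_zero fun p hp => ?_
    rw [Finset.mem_range] at hp
    by_cases h2 : p ≤ d
    · by_cases h3 : d - j + 1 ≤ p
      · rw [numA d j p hj h3 h2, Rat.cast_zero, zero_smul]
      · rw [hBz2 _ _ (by omega), smul_zero]
    · rw [hBz1 _ _ (by omega), smul_zero]
  · have hpair : pairing ops (P.X.prod P.X) (dD ops P.D P.D) j Z Z =
        v ^ 2 * ((2 * (d - j)).factorial : ℚ) * (j.factorial : ℚ) *
          ∑ a ∈ range (j + 1), (-1 : ℚ) ^ a * co d j a := by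
      have h1 : ((pairing ops (P.X.prod P.X) (dD ops P.D P.D) j Z Z : ℚ) : W.K) =
          ((v ^ 2 * ((2 * (d - j)).factorial : ℚ) * (j.factorial : ℚ) *
          ∑ a ∈ range (j + 1), (-1 : ℚ) ^ a * co d j a : ℚ) : W.K) := by
        have h0 : (P.X.prod P.X).dim - 2 * j = 2 * (d - j) := by
          rw [hdim, ← hd]
          omega
        have hle : 2 * j ≤ (P.X.prod P.X).dim := by
          rw [hdim, ← hd]
          omega
        rw [pairing_cast' hDP hle hcyc hcyc, h0, hLD, hLM]
        have hone : ∀ a ∈ range (j + 1), W.tr (P.X.prod P.X) ((((co d j a : ℚ) : W.K) •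
            Bf a (j - a)) * ∑ p ∈ range (2 * (d - j) + j + 1),
            (((∑ i ∈ range (j + 1), co d j i *
              (((if i ≤ p then (2 * (d - j)).choose (p - i) else 0 : ℕ)) : ℚ) : ℚ)) : W.K) •
                Bf p (2 * (d - j) + j - p)) =
            ((co d j a * (((2 * (d - j)).factorial : ℚ) * ((-1) ^ (j + a) *
              (j.factorial : ℚ))) * v ^ 2 : ℚ) : W.K) := by
          intro a ha
          rw [Finset.mem_range] at ha
          rw [Finset.mul_sum, map_sum, Finset.sum_eq_single (d - a)]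
          · rw [smul_mul_smul_comm, map_smul, hBtr]
            have e1 : a + (d - a) = d := by omega
            have e2 : j - a + (2 * (d - j) + j - (d - a)) = d := by omega
            have e3 : ∑ i ∈ range (j + 1), co d j i *
                (((if i ≤ d - a then (2 * (d - j)).choose (d - a - i) else 0 : ℕ)) : ℚ) =
                ∑ i ∈ range (j + 1), co d j i *
                (((if a + i ≤ d then (2 * (d - j)).choose (d - a - i) else 0 : ℕ)) : ℚ) := by
              refine Finset.sum_congr rfl fun i _ => ?_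
              by_cases h5 : a + i ≤ d
              · rw [if_pos h5, if_pos (by omega)]
              · rw [if_neg h5, if_neg (by omega)]
            rw [e1, e2, htv, e3, numB d j a hj (by omega), smul_eq_mul]
            push_cast
            ring
          · intro p hp hne
            rw [Finset.mem_range] at hp
            rw [smul_mul_smul_comm, map_smul, hBtr]
            rw [htz (a + p) (by omega), zero_mul, smul_zero]
          · intro h
            exfalso
            apply h
            rw [Finset.mem_range]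
            omega
        have hall : W.tr (P.X.prod P.X) (W.cl (P.X.prod P.X) Z *
            ∑ p ∈ range (2 * (d - j) + j + 1),
            (((∑ i ∈ range (j + 1), co d j i *
              (((if i ≤ p then (2 * (d - j)).choose (p - i) else 0 : ℕ)) : ℚ) : ℚ)) : W.K) •
                Bf p (2 * (d - j) + j - p)) =
            ∑ a ∈ range (j + 1), ((co d j a * (((2 * (d - j)).factorial : ℚ) * ((-1) ^ (j + a) *
              (j.factorial : ℚ))) * v ^ 2 : ℚ) : W.K) := by
          rw [hcl, Finset.sum_mul, map_sum]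
          exact Finset.sum_congr rfl hone
        refine (congrArg (fun r => (-1 : W.K) ^ j * r) hall).trans ?_
        rw [← Rat.cast_sum]
        have h9 : (-1 : ℚ) ^ j * ∑ a ∈ range (j + 1), co d j a * (((2 * (d - j)).factorial : ℚ) *
            ((-1) ^ (j + a) * (j.factorial : ℚ))) * v ^ 2 =
            v ^ 2 * ((2 * (d - j)).factorial : ℚ) * (j.factorial : ℚ) *
              ∑ a ∈ range (j + 1), (-1 : ℚ) ^ a * co d j a := by
          rw [Finset.mul_sum, Finset.mul_sum]
          refine Finset.sum_congr rfl fun a _ => ?_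
          have e4 : (-1 : ℚ) ^ j * (-1) ^ j = 1 := by
            rw [← mul_pow]; norm_num
          rw [pow_add]
          linear_combination (co d j a * (((2 * (d - j)).factorial : ℚ) *
            ((-1) ^ a * (j.factorial : ℚ))) * v ^ 2) * e4
        rw [← h9]
        push_cast
        ring
      exact_mod_cast h1
    rw [hpair, one_mul]
    have h1 := co_pos d j
    have h2 : (0 : ℚ) < ((2 * (d - j)).factorial : ℚ) := by exact_mod_cast Nat.factorial_pos _
    have h3 : (0 : ℚ) < (j.factorial : ℚ) := by exact_mod_cast Nat.factorial_pos _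
    positivity

end Pool.Agent.N536.HH
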