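import Pool.Agent.N286.HH.Base

/-!
# The class `D × X - X × D` (project HH, part DIF, helper286)
-/

open CategoryTheory AlgebraicGeometry Finset

universe u v

namespace Pool.Agent.N536.HH

open Pool.Agent.H914 Pool.Agent.H914.VarClass Pool.Agent.H914.VarClass.Obj
  Pool.Agent.H914.WeilCohomology Pool.Agent.H281R3.HT Pool.Agent.W539.Ker Pool.Agent.N286.HH

theorem t_DIF : S_DIF.{u, v} := by
  intro k _ 𝒱 ops W P hpos hd
  show HasFamily W (P.X.prod P.X) (dD ops P.D P.D) 1 1 1
  have hP := hpos.isCyc
  obtain ⟨m, hm⟩ : ∃ m, P.X.dim = m + 1 := ⟨P.X.dim - 1, by omega⟩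
  have hα : W.cl P.X P.D ∈ W.gr P.X 2 := W.cl_mem hP
  obtain ⟨v, hv⟩ : ∃ v, v = P.X.V.degCycle (divPow ops P.D P.X.dim P.X.V.fundCycle) := ⟨_, rfl⟩
  have hv0 : 0 < v := hv ▸ hpos.deg_pos
  have hfd := divPow_mem (ops := ops) hP P.X.dim (SmVar.fundCycle_mem P.X.V)
  rw [zero_add] at hfd
  have htv : W.tr P.X (W.cl P.X P.D ^ P.X.dim) = (v : W.K) := by
    have h1 := W.tr_cl hfd
    rw [cl_divPow, mulLeft_pow] at h1
    have h2 : W.cl P.X P.X.V.fundCycle = 1 := W.cl_fund P.X
    rw [h2, mul_one] at h1
    rw [h1, hv]
  obtain ⟨α, hαe⟩ : ∃ α, α = W.cl P.X P.D := ⟨_, rfl⟩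
  rw [← hαe] at hα htv
  rw [hm] at htv
  have htz : ∀ n, n ≠ m + 1 → W.tr P.X (α ^ n) = 0 := by
    intro n hn
    refine W.tr_eq_zero (pow_gr hα n) ?_
    rw [hm]
    omega
  have hα0 : ∀ n, m + 2 ≤ n → α ^ n = 0 := by
    intro n hn
    have h1 := pow_gr hα n
    rw [W.gr_eq_bot P.X (2 * n) (by rw [hm]; omega)] at h1
    exact (Submodule.mem_bot _).1 h1
  have hdim : (P.X.prod P.X).dim = P.X.dim + P.X.dim := rfl
  have hDP := isCyc_dD (ops := ops) hP hP
  have hLD : W.cl (P.X.prod P.X) (dD ops P.D P.D) =
      W.map (fst P.X P.X) α + W.map (snd P.X P.X) α := by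
    rw [cl_dD, hαe]
  obtain ⟨Z, hZ⟩ : ∃ Z : (P.X.prod P.X).Cycles, Z = ops.pull (fst P.X P.X) P.D +
      (-1 : ℚ) • ops.pull (snd P.X P.X) P.D := ⟨_, rfl⟩
  have hcyc : (P.X.prod P.X).IsCyc 1 Z := by
    rw [hZ]
    exact (ops.pull_mem (fst P.X P.X) hP).add ((ops.pull_mem (snd P.X P.X) hP).smul (-1))
  have hcl : W.cl (P.X.prod P.X) Z =
      W.map (fst P.X P.X) α * W.map (snd P.X P.X) 1 -
        W.map (fst P.X P.X) 1 * W.map (snd P.X P.X) α := by
    rw [hZ]
    rw [map_add, W.cl_smul, W.cl_pull, W.cl_pull, ← hαe, map_one, map_one, mul_one, one_mul]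
    push_cast
    rw [neg_one_smul, sub_eq_add_neg]
  have h1gr : (1 : W.H P.X) ∈ W.gr P.X (2 * 0) := W.one_mem P.X
  have hαgr : α ∈ W.gr P.X (2 * 1) := hα
  refine hasFamily_of Z ⟨hcyc, ?_⟩ ?_
  · have h1 : (P.X.prod P.X).dim - 2 * 1 + 1 = 2 * m + 1 := by
      rw [hdim, hm]
      omega
    rw [cl_divPow, mulLeft_pow, hcl, hLD, h1, mul_sub, pow_L α hα α 1, pow_L α hα 1 α,
      Finset.sum_eq_single m, Finset.sum_eq_single (m + 1), sub_eq_zero]
    · have e1 : 2 * m + 1 - m = m + 1 := by omega
      have e2 : 2 * m + 1 - (m + 1) = m := by omega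
      rw [e1, e2, Nat.choose_symm_half, mul_one, ← pow_succ]
    · intro l _ hne
      rcases lt_or_gt_of_ne hne with h3 | h3
      · rw [← pow_succ, hα0 (2 * m + 1 - l + 1) (by omega), map_zero, mul_zero, smul_zero]
      · rw [hα0 l (by omega), zero_mul, map_zero, zero_mul, smul_zero]
    · intro h
      exfalso
      apply h
      rw [Finset.mem_range]
      omega
    · intro l _ hne
      rcases lt_or_gt_of_ne hne with h3 | h3
      · rw [hα0 (2 * m + 1 - l) (by omega), zero_mul, map_zero, mul_zero, smul_zero]
      · rw [← pow_succ, hα0 (l + 1) (by omega), map_zero, zero_mul, smul_zero]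
    · intro h
      exfalso
      apply h
      rw [Finset.mem_range]
      omega
  · have hpair : pairing ops (P.X.prod P.X) (dD ops P.D P.D) 1 Z Z =
        2 * (((2 * m).choose m : ℚ) - ((2 * m).choose (m + 1) : ℚ)) * v ^ 2 := by
      have h1 : ((pairing ops (P.X.prod P.X) (dD ops P.D P.D) 1 Z Z : ℚ) : W.K) =
          ((2 * (((2 * m).choose m : ℚ) - ((2 * m).choose (m + 1) : ℚ)) * v ^ 2 : ℚ) : W.K) := by
        have h0 : (P.X.prod P.X).dim - 2 * 1 = 2 * m := by
          rw [hdim, hm]
          omega
        have hle : 2 * 1 ≤ (P.X.prod P.X).dim := by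
          rw [hdim, hm]
          omega
        rw [pairing_cast' hDP hle hcyc hcyc, h0, hcl, hLD, mul_sub, pow_L α hα α 1,
          pow_L α hα 1 α]
        -- the four sums
        have s1 : W.tr (P.X.prod P.X) ((W.map (fst P.X P.X) α * W.map (snd P.X P.X) 1) *
            ∑ k ∈ range (2 * m + 1), (2 * m).choose k •
              (W.map (fst P.X P.X) (α ^ k * α) * W.map (snd P.X P.X) (α ^ (2 * m - k) * 1))) =
            ((2 * m).choose (m + 1) : W.K) * (v : W.K) ^ 2 := by
          rw [Finset.mul_sum, map_sum, ← Finset.sum_range_reflect]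
          rw [Finset.sum_eq_single (m + 1)]
          · by_cases hm0 : m = 0
            · subst hm0
              have e0 : (2 * 0).choose (0 + 1) = 0 := by decide
              have e1 : (2 * 0).choose (2 * 0 + 1 - 1 - (0 + 1)) = 1 := by decide
              rw [e0, e1, mul_smul_comm, map_nsmul, tr_ext_mul _ _ _ h1gr]
              have e2 : α * (α ^ (2 * 0 + 1 - 1 - (0 + 1)) * α) = α ^ 2 := by
                simp
                rw [sq]
              rw [e2, htz 2 (by omega), zero_mul, nsmul_zero]
              simp
            · rw [mul_smul_comm, map_nsmul, tr_ext_mul _ _ _ h1gr]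
              have e1 : 2 * m + 1 - 1 - (m + 1) = m - 1 := by omega
              have e2 : 2 * m - (m - 1) = m + 1 := by omega
              have e3 : α * (α ^ (m - 1) * α) = α ^ (m + 1) := by
                rw [← pow_succ, ← pow_succ']
                congr 1
                omega
              have e4 : (2 * m).choose (m - 1) = (2 * m).choose (m + 1) := by
                rw [← Nat.choose_symm (show m + 1 ≤ 2 * m by omega)]
                congr 1
                omega
              rw [e1, e2, e3, e4, mul_one, one_mul, htv, nsmul_eq_mul, sq]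
          · intro l hl hne
            rw [Finset.mem_range] at hl
            rw [mul_smul_comm, map_nsmul, tr_ext_mul _ _ _ h1gr]
            have e3 : α * (α ^ (2 * m + 1 - 1 - l) * α) = α ^ (2 * m - l + 2) := by
              rw [← pow_succ, ← pow_succ']
              congr 1
            rw [e3, htz _ (by omega), zero_mul, nsmul_zero]
          · intro h
            rw [Finset.mem_range] at h
            have hm0 : m = 0 := by omega
            subst hm0
            have e1 : (2 * 0).choose (2 * 0 + 1 - 1 - (0 + 1)) = 1 := by decide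
            rw [e1, mul_smul_comm, map_nsmul, tr_ext_mul _ _ _ h1gr]
            have e2 : α * (α ^ (2 * 0 + 1 - 1 - (0 + 1)) * α) = α ^ 2 := by
              simp
              rw [sq]
            rw [e2, htz 2 (by omega), zero_mul, nsmul_zero]
        have s2 : W.tr (P.X.prod P.X) ((W.map (fst P.X P.X) 1 * W.map (snd P.X P.X) α) *
            ∑ k ∈ range (2 * m + 1), (2 * m).choose k •
              (W.map (fst P.X P.X) (α ^ k * α) * W.map (snd P.X P.X) (α ^ (2 * m - k) * 1))) =
            ((2 * m).choose m : W.K) * (v : W.K) ^ 2 := by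
          rw [Finset.mul_sum, map_sum, Finset.sum_eq_single m]
          · rw [mul_smul_comm, map_nsmul, tr_ext_mul _ _ _ hαgr]
            have e2 : 2 * m - m = m := by omega
            rw [e2, one_mul, ← pow_succ, mul_one, ← pow_succ', htv, nsmul_eq_mul, sq]
          · intro l hl hne
            rw [mul_smul_comm, map_nsmul, tr_ext_mul _ _ _ hαgr, one_mul, ← pow_succ,
              htz (l + 1) (by omega), zero_mul, nsmul_zero]
          · intro h
            exfalso
            apply h
            rw [Finset.mem_range]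
            omega
        have s3 : W.tr (P.X.prod P.X) ((W.map (fst P.X P.X) α * W.map (snd P.X P.X) 1) *
            ∑ k ∈ range (2 * m + 1), (2 * m).choose k •
              (W.map (fst P.X P.X) (α ^ k * 1) * W.map (snd P.X P.X) (α ^ (2 * m - k) * α))) =
            ((2 * m).choose m : W.K) * (v : W.K) ^ 2 := by
          rw [Finset.mul_sum, map_sum, Finset.sum_eq_single m]
          · rw [mul_smul_comm, map_nsmul, tr_ext_mul _ _ _ h1gr]
            have e2 : 2 * m - m = m := by omega
            rw [e2, one_mul, ← pow_succ, mul_one, ← pow_succ', htv, nsmul_eq_mul, sq]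
          · intro l hl hne
            rw [mul_smul_comm, map_nsmul, tr_ext_mul _ _ _ h1gr, mul_one, ← pow_succ',
              htz (l + 1) (by omega), zero_mul, nsmul_zero]
          · intro h
            exfalso
            apply h
            rw [Finset.mem_range]
            omega
        have s4 : W.tr (P.X.prod P.X) ((W.map (fst P.X P.X) 1 * W.map (snd P.X P.X) α) *
            ∑ k ∈ range (2 * m + 1), (2 * m).choose k •
              (W.map (fst P.X P.X) (α ^ k * 1) * W.map (snd P.X P.X) (α ^ (2 * m - k) * α))) =
            ((2 * m).choose (m + 1) : W.K) * (v : W.K) ^ 2 := by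
          rw [Finset.mul_sum, map_sum, Finset.sum_eq_single (m + 1)]
          · rw [mul_smul_comm, map_nsmul, tr_ext_mul _ _ _ hαgr]
            by_cases hm0 : m = 0
            · subst hm0
              have e0 : (2 * 0).choose (0 + 1) = 0 := by decide
              rw [e0]
              simp
            · have e2 : 2 * m - (m + 1) = m - 1 := by omega
              have e3 : α * (α ^ (m - 1) * α) = α ^ (m + 1) := by
                rw [← pow_succ, ← pow_succ']
                congr 1
                omega
              rw [e2, e3, mul_one, one_mul, htv, nsmul_eq_mul, sq]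
          · intro l hl hne
            rw [mul_smul_comm, map_nsmul, tr_ext_mul _ _ _ hαgr, one_mul, mul_one,
              htz l (by omega), zero_mul, nsmul_zero]
          · intro h
            rw [Finset.mem_range] at h
            have hm0 : m = 0 := by omega
            subst hm0
            have e0 : (2 * 0).choose (0 + 1) = 0 := by decide
            rw [e0, zero_smul, mul_zero, map_zero]
        have key : W.tr (P.X.prod P.X)
            ((W.map (fst P.X P.X) α * W.map (snd P.X P.X) 1 -
              W.map (fst P.X P.X) 1 * W.map (snd P.X P.X) α) *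
            (∑ k ∈ range (2 * m + 1), (2 * m).choose k •
              (W.map (fst P.X P.X) (α ^ k * α) * W.map (snd P.X P.X) (α ^ (2 * m - k) * 1)) -
            ∑ k ∈ range (2 * m + 1), (2 * m).choose k •
              (W.map (fst P.X P.X) (α ^ k * 1) * W.map (snd P.X P.X) (α ^ (2 * m - k) * α)))) =
            2 * (((2 * m).choose (m + 1) : W.K) - ((2 * m).choose m : W.K)) * (v : W.K) ^ 2 := by
          rw [sub_mul, mul_sub, mul_sub, map_sub, map_sub, map_sub, s1, s2, s3, s4]
          ring
        refine (congrArg (fun r => (-1 : W.K) ^ 1 * r) key).trans ?_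
        push_cast
        ring
      exact_mod_cast h1
    rw [hpair, one_mul]
    have h1 : (2 * m).choose (m + 1) < (2 * m).choose m := by
      have h2 := Nat.choose_succ_right_eq (2 * m) m
      have h3 : 2 * m - m = m := by omega
      rw [h3] at h2
      have h4 : 0 < (2 * m).choose m := Nat.choose_pos (by omega)
      nlinarith
    have h2 : (((2 * m).choose (m + 1) : ℕ) : ℚ) < ((2 * m).choose m : ℕ) := by exact_mod_cast h1
    have h3 : (0 : ℚ) < ((2 * m).choose m : ℚ) - ((2 * m).choose (m + 1) : ℚ) := by linarith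
    positivity

end Pool.Agent.N536.HH
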