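import Pool.Agent.N536.HH.All

/-!
# The final statement
-/

open CategoryTheory AlgebraicGeometry Finset Filter

universe u v

namespace Pool.Agent.N536.HH

open Module
open Pool.Agent.H914 Pool.Agent.H914.VarClass Pool.Agent.H914.VarClass.Obj
  Pool.Agent.H914.WeilCohomology Pool.Agent.H281R3.HT Pool.Agent.W552 Pool.Agent.W539.Ker
  Pool.Agent.N202.HZ

variable {k : Type u} [Field k] {𝒱 : VarClass k} {ops : CycleOps 𝒱}

/-- With hard Lefschetz and the Lefschetz standard conjecture for `P`, nonnegativity on a power of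
`P` gives the conjecture modulo numerical equivalence. -/
lemma HodgeNonneg.num_power {W : WeilCohomology.{u, v} ops} {P : Polarized 𝒱} {K : ℕ}
    (h : HodgeNonneg W (power ops P K)) (hG : Good W P) :
    HodgeTypeNum W (power ops P K).X (power ops P K).D := by
  by_contra hno
  obtain ⟨f, G⟩ := exists_gd hG.isCyc hG.hardLefschetz hG.lefschetzB
  obtain ⟨f₁, G₁⟩ := exists_gd_power (ops := ops) G K
  obtain ⟨j, hj, z, hz, hneg, -⟩ := exists_neg G₁.fr hno
  have h1 := h j hj _ (hz 0)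
  have h2 := hneg 0
  linarith

theorem final2 (hBND : S_BND.{u, v}) (hDIF : S_DIF.{u, v}) (hBNJ : S_BNJ.{u, v})
    (hGRO : S_GRO.{u, v}) (hKUN : S_KUN.{u, v}) (hMUL : S_MUL.{u, v}) (hDFJ : S_DFJ.{u, v})
    (hSTR : S_STR.{u, v}) (W : WeilCohomology.{u, v} ops) :
    (∀ P : Polarized 𝒱, Pos P ops → KunnethStd W P.X → ∀ K : ℕ,
      (HodgeNonneg W (power ops P K) ∧
        (Good W P → HodgeTypeNum W (power ops P K).X (power ops P K).D)) ∨
      (∀ Q : Polarized 𝒱, Pos Q ops →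
        (∀ n, imbalance W (Q.prod ops (power ops P n)).X (Q.prod ops (power ops P n)).D ≤
            bsum W Q * bsum W P ^ (n % (4 * (K + 1)) + 1) *
              (bsum W P ^ (4 * (K + 1)) - 2) ^ (n / (4 * (K + 1))) ∧
          bsum W P ^ n ≤
            total W (Q.prod ops (power ops P n)).X (Q.prod ops (power ops P n)).D *
              (n + 2) ^ (bsum W P ^ 2)) ∧
        ∃ C c : ℝ, 0 < c ∧ c < 1 ∧ ∀ n : ℕ,
          (imbalance W (Q.prod ops (power ops P n)).X (Q.prod ops (power ops P n)).D : ℝ) ≤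
            C * c ^ n * total W (Q.prod ops (power ops P n)).X (Q.prod ops (power ops P n)).D) ∧
      ∃ C c : ℝ, 0 < c ∧ c < 1 ∧ ∀ n : ℕ,
        |(posSq W (power ops P n) : ℝ) - negSq W (power ops P n)| ≤
          C * c ^ n * (posSq W (power ops P n) + negSq W (power ops P n))) ∧
    ∀ 𝒢 : Set (Polarized 𝒱), (∀ P ∈ 𝒢, ∀ Q ∈ 𝒢, P.prod ops Q ∈ 𝒢) →
      (∀ P ∈ 𝒢, Pos P ops ∧ KunnethStd W P.X) → ∀ f : ℝ → ℝ,
      (∀ δ : ℝ, 0 < δ → Tendsto (fun y => f y * y ^ δ) atTop atTop) →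
      ((∀ P ∈ 𝒢, f (bsum W P) * total W P.X P.D ≤ imbalance W P.X P.D) ∨
        ∀ P ∈ 𝒢, f (bsum W P) * (posSq W P + negSq W P) ≤ |(posSq W P : ℝ) - negSq W P|) →
      ∀ P ∈ 𝒢, HodgeNonneg W P ∧ (Good W P → HodgeTypeNum W P.X P.D) := by
  refine ⟨fun P hP hC K => ?_, fun 𝒢 h1 h2 f h3 h4 P hPm => ?_⟩
  · by_cases hK : HodgeNonneg W (power ops P K)
    · exact Or.inl ⟨hK, hK.num_power⟩
    · refine Or.inr ⟨(law3 hBNJ hGRO hKUN hMUL hDFJ hSTR hP hC hK).2, ?_⟩
      exact (law1 hBND hGRO hKUN hMUL hDIF hSTR hP hC).resolve_left fun h => hK (h K)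
  · have h5 : HodgeNonneg W P := by
      rcases h4 with h4 | h4
      · exact law4 hBNJ hGRO hKUN hMUL hDFJ hSTR h1 h2 h3 h4 P hPm
      · exact law2 hBND hGRO hKUN hMUL hDIF hSTR h1 h2 h3 h4 P hPm
    exact ⟨h5, h5.num⟩

end Pool.Agent.N536.HH
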