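import Pool.Agent.N536.HH.Stm

/-!
# Operators which change the sign of the intersection form
-/

open CategoryTheory AlgebraicGeometry Finset

universe u v

namespace Pool.Agent.N536.HH

open Module
open Pool.Agent.H914 Pool.Agent.H914.VarClass Pool.Agent.H914.VarClass.Obj
  Pool.Agent.H914.WeilCohomology Pool.Agent.H281R3.HT Pool.Agent.W552 Pool.Agent.W539.Ker
  Pool.Agent.N202.HZ

variable {k : Type u} [Field k] {𝒱 : VarClass k} {ops : CycleOps 𝒱}
  {W : WeilCohomology.{u, v} ops} {X Y Z : 𝒱.Obj}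

/-- The rank one operator `x ↦ tr (x y) z`. -/
noncomputable def r1 (W : WeilCohomology.{u, v} ops) {X : 𝒱.Obj} (y z : W.H X) :
    Module.End W.K (W.H X) :=
  ((bil W X).flip y).smulRight z

lemma r1_apply (y z x : W.H X) : r1 W y z x = W.tr X (x * y) • z := rfl

lemma aop_r1 {y z : W.H X} (hy : AS W X y) (hz : AS W X z) : AOp W X X (r1 W y z) := by
  refine ⟨ext W y z, hy.ext hz, ?_⟩
  apply LinearMap.ext
  intro x
  rw [corr_ext_AS hz, r1_apply, AS.comm hy]

lemma r1_gr {d : ℕ} {y z : W.H X} (hd : 2 * X.dim = 2 * d) (hy : y ∈ W.gr X d) (hz : z ∈ W.gr X d)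
    {i : ℕ} {x : W.H X} (hx : x ∈ W.gr X i) : r1 W y z x ∈ W.gr X i := by
  rw [r1_apply]
  by_cases h : i = d
  · rw [h]; exact Submodule.smul_mem _ _ hz
  · rw [W.tr_eq_zero (W.mul_mem hx hy) (by omega), zero_smul]
    exact Submodule.zero_mem _

/-- The idempotent which kills the two classes. -/
noncomputable def oR (W : WeilCohomology.{u, v} ops) {X : 𝒱.Obj} (s t : ℚ) (y z : W.H X) :
    Module.End W.K (W.H X) :=
  1 - ((s⁻¹ : ℚ) : W.K) • r1 W y y - ((t⁻¹ : ℚ) : W.K) • r1 W z z

/-- The operator which exchanges the two classes. -/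
noncomputable def oT (W : WeilCohomology.{u, v} ops) {X : 𝒱.Obj} (y z : W.H X) :
    Module.End W.K (W.H X) :=
  r1 W y z + r1 W z y

lemma oR_apply (s t : ℚ) (y z x : W.H X) : oR W s t y z x =
    x - ((s : W.K)⁻¹ * W.tr X (x * y)) • y - ((t : W.K)⁻¹ * W.tr X (x * z)) • z := by
  rw [oR, LinearMap.sub_apply, LinearMap.sub_apply, Module.End.one_apply, LinearMap.smul_apply,
    LinearMap.smul_apply, r1_apply, r1_apply, smul_smul, smul_smul, Rat.cast_inv, Rat.cast_inv]

lemma oT_apply (y z x : W.H X) : oT W y z x = W.tr X (x * y) • z + W.tr X (x * z) • y := rfl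

section

variable {D : X.Cycles} {e : ℕ} {s t : ℚ} {y z : W.H X} (P : Opp W X D e y z s t)

include P

lemma Opp.ay : AS W X y := AS.of P.my.1

lemma Opp.az : AS W X z := AS.of P.mz.1

lemma Opp.sK : (s : W.K) ≠ 0 := by
  have : s ≠ 0 := by
    rintro rfl
    have := P.neg
    simp at this
  exact_mod_cast this

lemma Opp.tK : (t : W.K) ≠ 0 := by
  have : t ≠ 0 := by
    rintro rfl
    have := P.neg
    simp at this
  exact_mod_cast this

lemma Opp.zy : W.tr X (z * y) = 0 := by rw [P.az.comm, P.yz]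

lemma Opp.Ry (x : W.H X) : W.tr X (oR W s t y z x * y) = 0 := by
  have := P.sK
  rw [oR_apply, sub_mul, sub_mul, smul_mul_assoc, smul_mul_assoc, map_sub, map_sub, map_smul,
    map_smul, P.yy, P.zy, smul_eq_mul, smul_eq_mul, mul_zero, sub_zero]
  field_simp
  ring

lemma Opp.Rz (x : W.H X) : W.tr X (oR W s t y z x * z) = 0 := by
  have := P.tK
  rw [oR_apply, sub_mul, sub_mul, smul_mul_assoc, smul_mul_assoc, map_sub, map_sub, map_smul,
    map_smul, P.zz, P.yz, smul_eq_mul, smul_eq_mul, mul_zero, sub_zero]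
  field_simp
  ring

lemma Opp.yR (x : W.H X) : W.tr X (y * oR W s t y z x) = 0 := by rw [P.ay.comm, P.Ry]

lemma Opp.zR (x : W.H X) : W.tr X (z * oR W s t y z x) = 0 := by rw [P.az.comm, P.Rz]

lemma Opp.RT (x x' : W.H X) : W.tr X (oR W s t y z x * oT W y z x') = 0 := by
  rw [oT_apply, mul_add, mul_smul_comm, mul_smul_comm, map_add, map_smul, map_smul, P.Ry, P.Rz,
    smul_zero, smul_zero, add_zero]

lemma Opp.TR (x x' : W.H X) : W.tr X (oT W y z x * oR W s t y z x') = 0 := by
  rw [oT_apply, add_mul, smul_mul_assoc, smul_mul_assoc, map_add, map_smul, map_smul, P.yR, P.zR,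
    smul_zero, smul_zero, add_zero]

lemma Opp.RR (x x' : W.H X) : W.tr X (oR W s t y z x * oR W s t y z x') =
    W.tr X (oR W s t y z x * x') := by
  conv_lhs => rw [oR_apply s t y z x']
  rw [mul_sub, mul_sub, mul_smul_comm, mul_smul_comm, map_sub, map_sub, map_smul, map_smul, P.Ry,
    P.Rz, smul_zero, smul_zero, sub_zero, sub_zero]

lemma Opp.TT (x x' : W.H X) : W.tr X (oT W y z x * oT W y z x') =
    -((-(s * t) : ℚ) : W.K) * (W.tr X (x * x') - W.tr X (oR W s t y z x * x')) := by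
  have hs := P.sK
  have ht := P.tK
  have e1 : W.tr X (y * x') = W.tr X (x' * y) := by rw [P.ay.comm]
  have e2 : W.tr X (z * x') = W.tr X (x' * z) := by rw [P.az.comm]
  rw [oT_apply, oT_apply, oR_apply]
  simp only [mul_add, add_mul, sub_mul, smul_mul_assoc, mul_smul_comm, map_add, map_sub, map_smul,
    smul_eq_mul, P.yy, P.zz, P.yz, P.zy, e1, e2]
  push_cast
  field_simp
  ring

lemma Opp.idem : oR W s t y z ∘ₗ oR W s t y z = oR W s t y z := by
  apply LinearMap.ext
  intro x
  rw [LinearMap.comp_apply, oR_apply s t y z (oR W s t y z x), P.Ry, P.Rz, mul_zero, mul_zero,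
    zero_smul, zero_smul, sub_zero, sub_zero]

lemma Opp.aR : AOp W X X (oR W s t y z) :=
  AOp.ratSub.sub (AOp.ratSub.sub AOp.one ((aop_r1 P.ay P.ay).smul _))
    ((aop_r1 P.az P.az).smul _)

lemma Opp.aT : AOp W X X (oT W y z) := (aop_r1 P.ay P.az).add (aop_r1 P.az P.ay)

lemma Opp.hR {i : ℕ} {x : W.H X} (hx : x ∈ W.gr X i) : oR W s t y z x ∈ W.gr X i := by
  have hd : 2 * X.dim = 2 * (2 * e) := by rw [P.dim]
  rw [oR, LinearMap.sub_apply, LinearMap.sub_apply, LinearMap.smul_apply, LinearMap.smul_apply]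
  exact Submodule.sub_mem _ (Submodule.sub_mem _ hx (Submodule.smul_mem _ _
    (r1_gr hd (alg_gr P.my.1) (alg_gr P.my.1) hx)))
    (Submodule.smul_mem _ _ (r1_gr hd (alg_gr P.mz.1) (alg_gr P.mz.1) hx))

lemma Opp.hT {i : ℕ} {x : W.H X} (hx : x ∈ W.gr X i) : oT W y z x ∈ W.gr X i := by
  have hd : 2 * X.dim = 2 * (2 * e) := by rw [P.dim]
  exact Submodule.add_mem _ (r1_gr hd (alg_gr P.my.1) (alg_gr P.mz.1) hx)
    (r1_gr hd (alg_gr P.mz.1) (alg_gr P.my.1) hx)

lemma Opp.trL (hD : X.IsCyc 1 D) (x : W.H X) : W.tr X (W.cl X D * x * y) = 0 ∧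
    W.tr X (W.cl X D * x * z) = 0 := by
  have h1 : W.cl X D * x = x * W.cl X D := W.even_comm (W.cl_mem hD) x
  rw [h1, mul_assoc, mul_assoc, P.my.2, P.mz.2, mul_zero, map_zero]
  exact ⟨rfl, rfl⟩

lemma Opp.LR (hD : X.IsCyc 1 D) (x : W.H X) : oR W s t y z (W.cl X D * x) =
    W.cl X D * oR W s t y z x := by
  obtain ⟨h1, h2⟩ := P.trL hD x
  rw [oR_apply, oR_apply, h1, h2, mul_sub, mul_sub, mul_smul_comm, mul_smul_comm, P.my.2, P.mz.2]
  simp

lemma Opp.LT (hD : X.IsCyc 1 D) (x : W.H X) : oT W y z (W.cl X D * x) =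
    W.cl X D * oT W y z x := by
  obtain ⟨h1, h2⟩ := P.trL hD x
  rw [oT_apply, oT_apply, h1, h2, mul_add, mul_smul_comm, mul_smul_comm, P.my.2, P.mz.2]
  simp

/-- The idempotent has corank at least two. -/
lemma Opp.finrank : finrank W.K (LinearMap.range (oR W s t y z)) + 2 ≤
    finrank W.K (W.H X) := by
  have h1 := LinearMap.finrank_range_add_finrank_ker (oR W s t y z)
  have hy : oR W s t y z y = 0 := by
    rw [oR_apply, P.yy, P.yz, inv_mul_cancel₀ P.sK, one_smul, mul_zero, zero_smul, sub_self,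
      sub_zero]
  have hz : oR W s t y z z = 0 := by
    rw [oR_apply, P.zz, P.zy, mul_zero, zero_smul, sub_zero, inv_mul_cancel₀ P.tK, one_smul,
      sub_self]
  have hli : LinearIndependent W.K ![(⟨y, hy⟩ : LinearMap.ker (oR W s t y z)), ⟨z, hz⟩] := by
    rw [LinearIndependent.pair_iff]
    intro a b hst
    have h2 : a • y + b • z = 0 := congrArg Subtype.val hst
    constructor
    · have h3 := congrArg (fun x => W.tr X (x * y)) h2
      simp only [add_mul, smul_mul_assoc, map_add, map_smul, P.yy, P.zy, smul_eq_mul, mul_zero,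
        add_zero, zero_mul, map_zero] at h3
      exact (mul_eq_zero.1 h3).resolve_right P.sK
    · have h3 := congrArg (fun x => W.tr X (x * z)) h2
      simp only [add_mul, smul_mul_assoc, map_add, map_smul, P.yz, P.zz, smul_eq_mul, mul_zero,
        zero_add, zero_mul, map_zero] at h3
      exact (mul_eq_zero.1 h3).resolve_right P.tK
  have h2 := hli.fintype_card_le_finrank
  rw [Fintype.card_fin] at h2
  omega

end

/-- The start of the induction. -/
lemma Flip.base (W : WeilCohomology.{u, v} ops) (D : X.Cycles) (lam : ℚ) :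
    Flip W X D lam 1 0 where
  ag := AOp.one
  aT := AOp.zero
  hg _ _ hx := hx
  hT i x _ := by rw [LinearMap.zero_apply]; exact Submodule.zero_mem _
  Lg _ := rfl
  LT _ := by rw [LinearMap.zero_apply, LinearMap.zero_apply, mul_zero]
  idem := rfl
  form a b := by
    rw [LinearMap.zero_apply, zero_mul, map_zero, Module.End.one_apply, sub_self, mul_zero]

/-- The intersection form of a product. -/
lemma tr_ext {i j : ℕ} (p : W.H X) {q : W.H Y} {p' : W.H X} (q' : W.H Y) (hq : q ∈ W.gr Y j)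
    (hp' : p' ∈ W.gr X i) :
    W.tr (X.prod Y) (W.map (fst X Y) p * W.map (snd X Y) q *
      (W.map (fst X Y) p' * W.map (snd X Y) q')) =
      (-1 : W.K) ^ (j * i) * (W.tr X (p * p') * W.tr Y (q * q')) := by
  rw [tmul_mul hq hp', map_smul, W.tr_prod, smul_eq_mul]

lemma extOp_gr {u : Module.End W.K (W.H X)} {u' : Module.End W.K (W.H Y)}
    (h : ∀ i, ∀ x ∈ W.gr X i, u x ∈ W.gr X i) (h' : ∀ i, ∀ x ∈ W.gr Y i, u' x ∈ W.gr Y i) :
    ∀ i, ∀ x ∈ W.gr (X.prod Y) i, extOp W u u' x ∈ W.gr (X.prod Y) i := by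
  intro i x hx
  have key : ∀ c : W.H (X.prod Y), ∀ i, proj (W.isInternal (X.prod Y)) i (extOp W u u' c) =
      extOp W u u' (proj (W.isInternal (X.prod Y)) i c) := by
    intro c i
    refine W.kunneth_induction (p := fun c => proj (W.isInternal (X.prod Y)) i (extOp W u u' c) =
      extOp W u u' (proj (W.isInternal (X.prod Y)) i c)) ?_ ?_ c
    · intro a b ha hb
      rw [map_add, map_add, ha, hb, map_add, map_add]
    · intro a b p hp q hq
      have h1 : W.map (fst X Y) p * W.map (snd X Y) q ∈ W.gr (X.prod Y) (a + b) :=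
        W.mul_mem (W.map_mem _ hp) (W.map_mem _ hq)
      have h2 : extOp W u u' (W.map (fst X Y) p * W.map (snd X Y) q) ∈
          W.gr (X.prod Y) (a + b) := by
        rw [extOp_tmul]
        exact W.mul_mem (W.map_mem _ (h _ _ hp)) (W.map_mem _ (h' _ _ hq))
      by_cases hi : a + b = i
      · subst hi
        rw [proj_same _ h1, proj_same _ h2]
      · rw [proj_ne _ h1 hi, proj_ne _ h2 hi, map_zero]
  have h1 := key x i
  rw [proj_same _ hx] at h1
  rw [← h1]
  exact proj_mem _ _ _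

lemma extOp_L {D : X.Cycles} {E : Y.Cycles} (hD : X.IsCyc 1 D) (hE : Y.IsCyc 1 E)
    {u : Module.End W.K (W.H X)} {u' : Module.End W.K (W.H Y)}
    (h : ∀ x, u (W.cl X D * x) = W.cl X D * u x) (h' : ∀ x, u' (W.cl Y E * x) = W.cl Y E * u' x)
    (c : W.H (X.prod Y)) :
    extOp W u u' (W.cl (X.prod Y) (ops.pull (fst X Y) D + ops.pull (snd X Y) E) * c) =
      W.cl (X.prod Y) (ops.pull (fst X Y) D + ops.pull (snd X Y) E) * extOp W u u' c := by
  refine W.kunneth_induction (p := fun c => extOp W u u' (W.cl (X.prod Y)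
    (ops.pull (fst X Y) D + ops.pull (snd X Y) E) * c) =
      W.cl (X.prod Y) (ops.pull (fst X Y) D + ops.pull (snd X Y) E) * extOp W u u' c) ?_ ?_ c
  · intro a b ha hb
    rw [mul_add, map_add (extOp W u u'), ha, hb, map_add (extOp W u u'), mul_add]
  · intro i j p _ q _
    have e : ∀ (p : W.H X) (q : W.H Y),
        W.cl (X.prod Y) (ops.pull (fst X Y) D + ops.pull (snd X Y) E) *
        (W.map (fst X Y) p * W.map (snd X Y) q) =
        W.map (fst X Y) (W.cl X D * p) * W.map (snd X Y) q +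
          W.map (fst X Y) p * W.map (snd X Y) (W.cl Y E * q) := by
      intro p q
      have h2 : W.map (snd X Y) (W.cl Y E) * W.map (fst X Y) p =
          W.map (fst X Y) p * W.map (snd X Y) (W.cl Y E) :=
        W.even_comm (W.map_mem _ (W.cl_mem hE)) _
      rw [map_add, W.cl_pull, W.cl_pull, add_mul, ← mul_assoc, ← map_mul, ← mul_assoc, h2,
        mul_assoc, ← map_mul]
    rw [e, map_add, extOp_tmul, extOp_tmul, extOp_tmul, e, h, h']

/-- **The induction step.** -/
lemma Flip.step {D : X.Cycles} {E : Y.Cycles} (hD : X.IsCyc 1 D) (hE : Y.IsCyc 1 E) {e : ℕ}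
    {s t : ℚ} {y z : W.H Y} (P : Opp W Y E e y z s t) {g Θ : Module.End W.K (W.H X)}
    (N : Flip W X D (-(s * t)) g Θ) :
    Flip W (X.prod Y) (ops.pull (fst X Y) D + ops.pull (snd X Y) E) (-(s * t))
      (extOp W g (oR W s t y z)) (extOp W Θ (oR W s t y z) + extOp W 1 (oT W y z)) where
  ag := N.ag.ext P.aR
  aT := (N.aT.ext P.aR).add (AOp.one.ext P.aT)
  hg := extOp_gr N.hg (fun _ _ hx => P.hR hx)
  hT i x hx := by
    rw [LinearMap.add_apply]
    exact Submodule.add_mem _ (extOp_gr N.hT (fun _ _ hx => P.hR hx) _ _ hx)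
      (extOp_gr (fun _ _ hx => hx) (fun _ _ hx => P.hT hx) _ _ hx)
  Lg := extOp_L hD hE N.Lg (P.LR hE)
  LT x := by
    rw [LinearMap.add_apply, LinearMap.add_apply, extOp_L hD hE N.LT (P.LR hE),
      extOp_L hD hE (fun _ => rfl) (P.LT hE), mul_add]
  idem := by
    have h5 : extOp W g (oR W s t y z) * extOp W g (oR W s t y z) =
        extOp W g (oR W s t y z) := by
      rw [extOp_mul]
      congr 1
      · exact N.idem
      · exact P.idem
    exact h5
  form a b := by
    set TT : Module.End W.K (W.H (X.prod Y)) :=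
      extOp W Θ (oR W s t y z) + extOp W 1 (oT W y z) with hTT
    refine W.kunneth_induction (p := fun a => W.tr (X.prod Y) (TT a * TT b) =
      -((-(s * t) : ℚ) : W.K) * (W.tr (X.prod Y) (a * b) -
        W.tr (X.prod Y) (extOp W g (oR W s t y z) a * b))) ?_ ?_ a
    · intro c d hc hd
      rw [map_add, add_mul, map_add, hc, hd, map_add, add_mul, add_mul, map_add, map_add]
      ring
    intro i j x _ w hw
    refine W.kunneth_induction (p := fun b => W.tr (X.prod Y)
      (TT (W.map (fst X Y) x * W.map (snd X Y) w) * TT b) =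
      -((-(s * t) : ℚ) : W.K) * (W.tr (X.prod Y) ((W.map (fst X Y) x * W.map (snd X Y) w) * b) -
        W.tr (X.prod Y) (extOp W g (oR W s t y z)
          (W.map (fst X Y) x * W.map (snd X Y) w) * b))) ?_ ?_ b
    · intro c d hc hd
      rw [map_add, mul_add, map_add, hc, hd, mul_add, mul_add, map_add, map_add]
      ring
    intro i' j' x' hx' w' _
    rw [hTT, LinearMap.add_apply, LinearMap.add_apply, extOp_tmul, extOp_tmul, extOp_tmul, extOp_tmul,
      extOp_tmul, Module.End.one_apply, Module.End.one_apply, add_mul, mul_add, mul_add, map_add,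
      map_add, map_add, tr_ext _ _ (P.hR hw) (N.hT _ _ hx'), tr_ext _ _ (P.hR hw) hx',
      tr_ext _ _ (P.hT hw) (N.hT _ _ hx'), tr_ext _ _ (P.hT hw) hx', tr_ext _ _ hw hx',
      tr_ext _ _ (P.hR hw) hx', P.RT, P.TR, P.RR, P.TT, N.form]
    ring

/-- The operators on the towers. -/
lemma exists_flip_tower {Q R : Polarized 𝒱} (hQ : Q.X.IsCyc 1 Q.D) (hR : R.X.IsCyc 1 R.D) {e : ℕ}
    {s t : ℚ} {y z : W.H R.X} (P : Opp W R.X R.D e y z s t) (n : ℕ) :
    ∃ g Θ, Flip W (tower ops Q R n).X (tower ops Q R n).D (-(s * t)) g Θ ∧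
      finrank W.K (LinearMap.range g) ≤
        finrank W.K (W.H Q.X) * (finrank W.K (W.H R.X) - 2) ^ n := by
  induction n with
  | zero =>
    refine ⟨1, 0, Flip.base W Q.D _, ?_⟩
    rw [pow_zero, mul_one]
    exact Submodule.finrank_le _
  | succ n ih =>
    obtain ⟨g, Θ, N, hg⟩ := ih
    refine ⟨_, _, Flip.step (isCyc_tower hQ hR n) hR P N, ?_⟩
    have h1 := P.finrank
    have h2 := Y129.Half.finrank_extOp (W := W) N.idem P.idem
    calc finrank W.K (LinearMap.range (extOp W g (oR W s t y z))) =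
        finrank W.K (LinearMap.range g) *
          finrank W.K (LinearMap.range (oR W s t y z)) := h2
      _ ≤ (finrank W.K (W.H Q.X) * (finrank W.K (W.H R.X) - 2) ^ n) *
          (finrank W.K (W.H R.X) - 2) := Nat.mul_le_mul hg (by omega)
      _ = _ := by rw [pow_succ, mul_assoc]

/-- **The bound for the signatures of products.** -/
theorem sig_tower_le (hBND : S_BND.{u, v}) {Q R : Polarized 𝒱} (hQ : Q.X.IsCyc 1 Q.D)
    (hR : R.X.IsCyc 1 R.D) {e : ℕ} {s t : ℚ} {y z : W.H R.X} (P : Opp W R.X R.D e y z s t) (n : ℕ)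
    {m : ℕ} (hm : (tower ops Q R n).X.dim = 2 * m) :
    |(nPos W (tower ops Q R n).X (tower ops Q R n).D m : ℤ) -
      nNeg W (tower ops Q R n).X (tower ops Q R n).D m| ≤
      finrank W.K (W.H Q.X) * (finrank W.K (W.H R.X) - 2 : ℕ) ^ n := by
  obtain ⟨g, Θ, N, hg⟩ := exists_flip_tower hQ hR P n
  have h1 := hBND W (tower ops Q R n).X (tower ops Q R n).D (isCyc_tower hQ hR n) m hm
    (-(s * t)) (by have := P.neg; linarith) g Θ N
  exact h1.trans (by exact_mod_cast hg)

end Pool.Agent.N536.HH
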