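import Pool.Agent.N536.HH.Stm
import Pool.Agent.N202.HZ.Grow

/-!
# The growth of the number of squares in the middle codimension, without hard Lefschetz
-/

open CategoryTheory AlgebraicGeometry Finset

universe u v

namespace Pool.Agent.N536.HH

namespace GRO

open Module
open Pool.Agent.H914 Pool.Agent.H914.VarClass Pool.Agent.H914.VarClass.Obj
  Pool.Agent.H914.WeilCohomology Pool.Agent.H281R3.HT Pool.Agent.W552 Pool.Agent.W539.Ker
  Pool.Agent.N202.HZ Pool.Agent.W539.Sig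
open Pool.Agent.Y129.Half (pw prj pfst psnd tau tau_prj rho PH wb wb_eq exists_hbasis prj_last
  prj_castSucc finrank_pw)

/-- **The Gram matrix argument.** -/
theorem gram_bound {M : Type*} [AddCommGroup M] [Module ℚ M] {B : M →ₗ[ℚ] M →ₗ[ℚ] ℚ}
    (hB : ∀ x y, B x y = B y x) {ι : Type*} [Fintype ι] {x : ι → M} (hx : OM B x) {N n : ℕ}
    (c : Equiv.Perm (Fin (n + 1)) → M) (t : Equiv.Perm (Fin (n + 1)) → ℤ)
    (hA : ∀ σ τ, B (c σ) (c τ) = (t (σ⁻¹ * τ) : ℚ))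
    (ht2 : ∀ τ, |t τ| ≤ nfix (Fin N) (n + 1) τ) (ht0 : t 1 = (N : ℤ) ^ (n + 1)) :
    N ^ (2 * (n + 1)) ≤ Fintype.card ι * (n + 2) ^ (N ^ 2) := by
  classical
  have hsym : ∀ σ τ, t (σ⁻¹ * τ) = t (τ⁻¹ * σ) := by
    intro σ τ
    have h1 := hB (c σ) (c τ)
    rw [hA, hA] at h1
    exact_mod_cast h1
  let Gm : Matrix (Equiv.Perm (Fin (n + 1))) (Equiv.Perm (Fin (n + 1))) ℝ :=
    Matrix.of fun σ τ => (t (σ⁻¹ * τ) : ℝ)
  have hG : Gm.IsHermitian := by
    ext σ τ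
    change star ((t (τ⁻¹ * σ) : ℤ) : ℝ) = ((t (σ⁻¹ * τ) : ℤ) : ℝ)
    rw [star_trivial, hsym]
  have hrank : Gm.rank ≤ Fintype.card ι := by
    refine rank_le_card (A := Matrix.of fun σ i => ((B (c σ) (x i) : ℚ) : ℝ))
      (d := fun i => ((B (x i) (x i) : ℚ) : ℝ)⁻¹) ?_
    ext σ τ
    rw [Matrix.mul_apply]
    change ((t (σ⁻¹ * τ) : ℤ) : ℝ) = _
    have h1 := hA σ τ
    rw [OM_expand hB hx] at h1
    have h2 : ((t (σ⁻¹ * τ) : ℤ) : ℝ) = ((t (σ⁻¹ * τ) : ℚ) : ℝ) := by push_cast; rfl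
    rw [h2, ← h1, Rat.cast_sum]
    apply Finset.sum_congr rfl
    intro i _
    rw [Matrix.mul_diagonal, Matrix.transpose_apply, Matrix.of_apply, Matrix.of_apply]
    push_cast
    ring
  have htr : Gm.trace = ((n + 1).factorial : ℝ) * (N : ℝ) ^ (n + 1) := by
    have h1 : ∀ σ : Equiv.Perm (Fin (n + 1)), Gm σ σ = (N : ℝ) ^ (n + 1) := by
      intro σ
      change ((t (σ⁻¹ * σ) : ℤ) : ℝ) = _
      rw [inv_mul_cancel, ht0]
      push_cast
      rfl
    have h2 : Gm.trace = ∑ σ : Equiv.Perm (Fin (n + 1)), (N : ℝ) ^ (n + 1) :=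
      Finset.sum_congr rfl fun σ _ => h1 σ
    rw [h2, Finset.sum_const, Finset.card_univ, Fintype.card_perm, Fintype.card_fin,
      nsmul_eq_mul]
  have htr2 : (Gm * Gm).trace ≤ ((n + 1).factorial : ℝ) *
      (((n + 1).factorial : ℝ) * ((n : ℝ) + 2) ^ (N ^ 2)) := by
    have h1 : (Gm * Gm).trace = ∑ σ : Equiv.Perm (Fin (n + 1)),
        ∑ τ : Equiv.Perm (Fin (n + 1)), ((t τ : ℤ) : ℝ) ^ 2 := by
      rw [Matrix.trace]
      apply Finset.sum_congr rfl
      intro σ _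
      rw [Matrix.diag_apply, Matrix.mul_apply, ← Equiv.sum_comp (Equiv.mulLeft σ⁻¹)
        (fun τ => ((t τ : ℤ) : ℝ) ^ 2)]
      apply Finset.sum_congr rfl
      intro τ _
      change ((t (σ⁻¹ * τ) : ℤ) : ℝ) * ((t (τ⁻¹ * σ) : ℤ) : ℝ) = ((t (σ⁻¹ * τ) : ℤ) : ℝ) ^ 2
      rw [hsym τ σ, sq]
    rw [h1, Finset.sum_const, Finset.card_univ, Fintype.card_perm, Fintype.card_fin,
      nsmul_eq_mul]
    apply mul_le_mul_of_nonneg_left _ (Nat.cast_nonneg _)
    have h2 : ∀ τ : Equiv.Perm (Fin (n + 1)), ((t τ : ℤ) : ℝ) ^ 2 ≤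
        ((nfix (Fin N) (n + 1) τ ^ 2 : ℕ) : ℝ) := by
      intro τ
      have h3 : |((t τ : ℤ) : ℝ)| ≤ (nfix (Fin N) (n + 1) τ : ℝ) := by exact_mod_cast ht2 τ
      rw [← sq_abs]
      push_cast
      exact pow_le_pow_left₀ (abs_nonneg _) h3 2
    refine (Finset.sum_le_sum fun τ _ => h2 τ).trans ?_
    have h3 := sum_nfix_sq_le (Fin N) (n + 1)
    rw [Fintype.card_fin] at h3
    have h4 : ((∑ τ : Equiv.Perm (Fin (n + 1)), nfix (Fin N) (n + 1) τ ^ 2 : ℕ) : ℝ) ≤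
        (((n + 1).factorial * (n + 1 + 1) ^ (N ^ 2) : ℕ) : ℝ) := by exact_mod_cast h3
    rw [Nat.cast_sum] at h4
    refine h4.trans (le_of_eq ?_)
    push_cast
    ring
  have hmain := trace_sq_le hG
  rw [htr] at hmain
  have hr : (Gm.rank : ℝ) ≤ Fintype.card ι := by exact_mod_cast hrank
  have hnn : 0 ≤ (Gm * Gm).trace := by
    rw [Matrix.trace]
    apply Finset.sum_nonneg
    intro σ _
    rw [Matrix.diag_apply, Matrix.mul_apply]
    apply Finset.sum_nonneg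
    intro τ _
    change 0 ≤ ((t (σ⁻¹ * τ) : ℤ) : ℝ) * ((t (τ⁻¹ * σ) : ℤ) : ℝ)
    rw [hsym τ σ]
    exact mul_self_nonneg _
  have h5 : (((n + 1).factorial : ℝ) * (N : ℝ) ^ (n + 1)) ^ 2 ≤
      (Fintype.card ι : ℝ) * (((n + 1).factorial : ℝ) *
        (((n + 1).factorial : ℝ) * ((n : ℝ) + 2) ^ (N ^ 2))) :=
    hmain.trans ((mul_le_mul_of_nonneg_right hr hnn).trans
      (mul_le_mul_of_nonneg_left htr2 (Nat.cast_nonneg _)))
  have h6 : (0 : ℝ) < ((n + 1).factorial : ℝ) ^ 2 := by positivity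
  have h7 : ((n + 1).factorial : ℝ) ^ 2 * (N : ℝ) ^ (2 * (n + 1)) ≤
      ((n + 1).factorial : ℝ) ^ 2 * ((Fintype.card ι : ℝ) * ((n : ℝ) + 2) ^ (N ^ 2)) := by
    calc ((n + 1).factorial : ℝ) ^ 2 * (N : ℝ) ^ (2 * (n + 1)) =
        (((n + 1).factorial : ℝ) * (N : ℝ) ^ (n + 1)) ^ 2 := by ring
      _ ≤ _ := h5
      _ = _ := by ring
  have h8 := le_of_mul_le_mul_left h7 h6
  exact_mod_cast h8

variable {k : Type u} [Field k] {𝒱 : VarClass k} {ops : CycleOps 𝒱}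
  {W : WeilCohomology.{u, v} ops} {X Y Z : 𝒱.Obj} {D : X.Cycles}

/-! ## The top degree -/

lemma eq_zero_of_top {a : W.H X} (ha : a ∈ W.gr X (2 * X.dim)) (h0 : W.tr X a = 0) : a = 0 := by
  apply W.nondeg
  intro b
  refine gr_induction (W.isInternal X) (p := fun b => W.tr X (a * b) = 0) ?_ ?_ b
  · intro i b hb
    by_cases hi : i = 0
    · subst hi
      rw [W.gr_zero] at hb
      obtain ⟨q, rfl⟩ := Submodule.mem_span_singleton.1 hb
      rw [mul_smul_comm, mul_one, map_smul, h0, smul_zero]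
    · exact W.tr_eq_zero (W.mul_mem ha hb) (by omega)
  · intro b b' hb hb'
    rw [mul_add, map_add, hb, hb', add_zero]

lemma exists_top (W : WeilCohomology.{u, v} ops) {X : 𝒱.Obj} (h1 : (1 : W.H X) ≠ 0) :
    ∃ p ∈ W.gr X (2 * X.dim), W.tr X p = 1 := by
  by_contra hcon
  push Not at hcon
  apply h1
  apply W.nondeg
  intro b
  rw [one_mul]
  refine gr_induction (W.isInternal X) (p := fun b => W.tr X b = 0) ?_ ?_ b
  · intro i b hb
    by_cases hi : i = 2 * X.dim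
    · subst hi
      by_contra h0
      apply hcon ((W.tr X b)⁻¹ • b) (Submodule.smul_mem _ _ hb)
      rw [map_smul, smul_eq_mul, inv_mul_cancel₀ h0]
    · exact W.tr_eq_zero hb hi
  · intro b b' hb hb'
    rw [map_add, hb, hb', add_zero]

/-- The class of a point on a power. -/
noncomputable def pt (W : WeilCohomology.{u, v} ops) {X : 𝒱.Obj} (p : W.H X) (n : ℕ) :
    W.H (pw X n) := (List.ofFn fun i => W.map (prj X n i) p).prod

lemma pt_zero (p : W.H X) : pt W p 0 = p := by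
  rw [pt, List.ofFn_succ, List.ofFn_zero, List.prod_singleton]
  exact W.map_id _ _

lemma pt_succ (p : W.H X) (n : ℕ) :
    pt W p (n + 1) = W.map (pfst X n) (pt W p n) * W.map (psnd X n) p := by
  rw [pt, List.ofFn_succ', List.prod_concat, prj_last, pt, map_list_prod, List.map_ofFn]
  congr 3
  funext i
  rw [Function.comp_apply, prj_castSucc, W.map_comp]

lemma pt_mem {p : W.H X} (hp : p ∈ W.gr X (2 * X.dim)) (n : ℕ) :
    pt W p n ∈ W.gr (pw X n) (2 * (pw X n).dim) := by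
  induction n with
  | zero => rw [pt_zero]; exact hp
  | succ n ih =>
    rw [pt_succ]
    have h1 := W.mul_mem (W.map_mem (pfst X n) ih) (W.map_mem (psnd X n) hp)
    have h2 : (pw X (n + 1)).dim = (pw X n).dim + X.dim := rfl
    rwa [h2, mul_add]

lemma tr_pt {p : W.H X} (hp : W.tr X p = 1) (n : ℕ) : W.tr (pw X n) (pt W p n) = 1 := by
  induction n with
  | zero => rw [pt_zero]; exact hp
  | succ n ih =>
    rw [pt_succ]
    have h1 := W.tr_prod (X := pw X n) (Y := X) (pt W p n) p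
    rw [ih, hp, one_mul] at h1
    exact h1

lemma map_tau_pt {p : W.H X} (hp : p ∈ W.gr X (2 * X.dim)) (n : ℕ)
    (σ : Equiv.Perm (Fin (n + 1))) : W.map (tau X n σ) (pt W p n) = pt W p n := by
  rw [pt, map_list_prod, List.map_ofFn]
  have h1 : (W.map (tau X n σ)) ∘ (fun i => W.map (prj X n i) p) =
      (fun i => W.map (prj X n i) p) ∘ σ := by
    funext i
    rw [Function.comp_apply, Function.comp_apply, ← W.map_comp, tau_prj]
  rw [h1]
  refine List.Perm.prod_eq' (σ.ofFn_comp_perm _) ?_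
  rw [List.pairwise_iff_forall_sublist]
  intro a b hab
  have h2 : a ∈ List.ofFn ((fun i => W.map (prj X n i) p) ∘ σ) := hab.subset (by simp)
  rw [List.mem_ofFn] at h2
  obtain ⟨i, rfl⟩ := h2
  exact W.even_comm (W.map_mem _ hp) b

lemma tr_tau (n : ℕ) (σ : Equiv.Perm (Fin (n + 1))) (a : W.H (pw X n)) :
    W.tr (pw X n) (W.map (tau X n σ) a) = W.tr (pw X n) a := by
  by_cases h1 : (1 : W.H X) = 0
  · have h2 : (1 : W.H (pw X n)) = 0 := by
      rw [← map_one (W.map (prj X n 0)), h1, map_zero]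
    have h3 : a = 0 := by rw [← mul_one a, h2, mul_zero]
    rw [h3, map_zero]
  · obtain ⟨p, hp, hp1⟩ := exists_top W h1
    refine gr_induction (W.isInternal (pw X n))
      (p := fun a => W.tr (pw X n) (W.map (tau X n σ) a) = W.tr (pw X n) a) ?_ ?_ a
    · intro i a ha
      by_cases hi : i = 2 * (pw X n).dim
      · subst hi
        have h2 : a - (W.tr (pw X n) a) • pt W p n = 0 := by
          apply eq_zero_of_top (Submodule.sub_mem _ ha (Submodule.smul_mem _ _ (pt_mem hp n)))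
          rw [map_sub, map_smul, tr_pt hp1, smul_eq_mul, mul_one, sub_self]
        have h3 : a = (W.tr (pw X n) a) • pt W p n := sub_eq_zero.1 h2
        have h4 : W.map (tau X n σ) a = a := by
          rw [h3, map_smul, map_tau_pt hp]
        rw [h4]
      · rw [W.tr_eq_zero (W.map_mem _ ha) hi, W.tr_eq_zero ha hi]
    · intro a b ha hb
      rw [map_add, map_add, map_add, ha, hb]

/-! ## The graphs -/

lemma rop_map (θ : X ⟶ X) : ROp W X 0 (W.map θ).toLinearMap := by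
  have h1 : (X.prod X).IsCyc X.dim (ops.push (Obj.lift θ (𝟙 X)) X.V.fundCycle) := by
    refine ops.push_mem _ X.V.fundCycle_mem ?_
    rw [dim_prod, zero_add]
  have h2 := rop_of_cyc (W := W) h1
  rwa [W.cl_push, W.cl_fund, show W.push (Obj.lift θ (𝟙 X)) (1 : W.H X) = gcl W θ from rfl,
    corr_gcl] at h2

lemma rop_rho (n : ℕ) (σ : Equiv.Perm (Fin (n + 1))) : ROp W (pw X n) 0 (rho W X n σ) :=
  rop_map _

lemma rho_inv (n : ℕ) (σ : Equiv.Perm (Fin (n + 1))) (b : W.H (pw X n)) :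
    W.map (tau X n σ) (rho W X n σ⁻¹ b) = b := by
  have h1 : rho W X n σ * rho W X n σ⁻¹ = 1 := by rw [← map_mul, mul_inv_cancel, map_one]
  exact congrArg (fun T => T b) h1

lemma tp_rho (n : ℕ) (σ : Equiv.Perm (Fin (n + 1))) :
    tp W (pw X n) (rho W X n σ) = rho W X n σ⁻¹ := by
  apply tp_unique (rop_rho n σ)
  intro a b
  have h1 := tr_tau n σ (a * rho W X n σ⁻¹ b)
  rw [map_mul, rho_inv] at h1
  exact h1

lemma rho_L (W : WeilCohomology.{u, v} ops) {X : 𝒱.Obj} (D : X.Cycles) (n : ℕ)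
    (σ : Equiv.Perm (Fin (n + 1))) :
    rho W X n σ * LinearMap.mulLeft W.K (W.cl (pw X n) (dpw ops D n)) =
      LinearMap.mulLeft W.K (W.cl (pw X n) (dpw ops D n)) * rho W X n σ := by
  apply LinearMap.ext
  intro a
  change W.map (tau X n σ) (W.cl (pw X n) (dpw ops D n) * a) =
    W.cl (pw X n) (dpw ops D n) * W.map (tau X n σ) a
  rw [map_mul, tau_cl]

lemma dpw_cyc (ops : CycleOps 𝒱) {X : 𝒱.Obj} {D : X.Cycles} (hD : X.IsCyc 1 D) (n : ℕ) :
    (pw X n).IsCyc 1 (dpw ops D n) := by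
  induction n with
  | zero => exact hD
  | succ n ih => exact (ops.pull_mem _ ih).add (ops.pull_mem _ hD)

/-- The cycle attached to a permutation. -/
lemma exists_cyc {Z : 𝒱.Obj} {E : Z.Cycles} (hE : Z.IsCyc 1 E) (hK : KunnethStd W Z)
    {y : Module.End W.K (W.H Z)} (hy : ROp W Z 0 y)
    (hL : y * LinearMap.mulLeft W.K (W.cl Z E) = LinearMap.mulLeft W.K (W.cl Z E) * y) :
    ∃ z, Primitive W (Z.prod Z) (boxSum ops E) Z.dim z ∧
      sgn W Z * W.corr (W.cl _ z) = y := by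
  obtain ⟨z, hz, hz'⟩ := cyc_of_rop (rop_mul0 (rop_sgn hK) hy)
  refine ⟨z, ⟨hz, ?_⟩, ?_⟩
  · have h1 : (Z.prod Z).dim - 2 * Z.dim + 1 = 1 := by rw [dim_prod]; omega
    rw [cl_divPow, h1, pow_one, LinearMap.mulLeft_apply]
    apply corr_inj
    rw [corr_boxSum hE, dbl_apply, hz', ring_anti (sgn_L hE) hL, neg_add_cancel]
  · rw [hz', ← mul_assoc, sgn_sq, one_mul]

/-- The value of the pairing in the middle codimension. -/
lemma pairing_eq {Z : 𝒱.Obj} {E : Z.Cycles} (hK : KunnethStd W Z) {z w : (Z.prod Z).Cycles}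
    (hz : (Z.prod Z).IsCyc Z.dim z) (hw : (Z.prod Z).IsCyc Z.dim w) :
    ((pairing ops (Z.prod Z) (boxSum ops E) Z.dim z w : ℚ) : W.K) =
      LinearMap.trace W.K (W.H Z) ((sgn W Z * W.corr (W.cl _ z)) *
        tp W Z (sgn W Z * W.corr (W.cl _ w))) := by
  rw [← form_eq hK hz hw, pairing]
  have h1 : (Z.prod Z).dim - 2 * Z.dim = 0 := by rw [dim_prod]; omega
  rw [h1]
  rfl

theorem gro_pw (W : WeilCohomology.{u, v} ops) {X : 𝒱.Obj} {D : X.Cycles} (hD : X.IsCyc 1 D)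
    (n : ℕ) (hK : KunnethStd W (pw X n)) :
    finrank W.K (W.H X) ^ (2 * (n + 1)) ≤
      (nPos W ((pw X n).prod (pw X n)) (boxSum ops (dpw ops D n)) (pw X n).dim +
        nNeg W ((pw X n).prod (pw X n)) (boxSum ops (dpw ops D n)) (pw X n).dim) *
      (n + 2) ^ (finrank W.K (W.H X) ^ 2) := by
  classical
  obtain ⟨N, hN⟩ : ∃ N, N = finrank W.K (W.H X) := ⟨_, rfl⟩
  rw [← hN]
  obtain ⟨e, he⟩ : ∃ e : Basis (Fin N) W.K (W.H X), ∀ j, ∃ a, e j ∈ PH W X a := by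
    rw [hN]
    exact exists_hbasis W X
  have hE : (pw X n).IsCyc 1 (dpw ops D n) := dpw_cyc ops hD n
  have hbox : ((pw X n).prod (pw X n)).IsCyc 1 (boxSum ops (dpw ops D n)) := boxSum_mem hE
  have hle : 2 * (pw X n).dim ≤ ((pw X n).prod (pw X n)).dim := by rw [dim_prod]; omega
  obtain ⟨M, x, hx⟩ := exists_prim W hbox hle
  rw [← card_eq_nPos hbox hle hx]
  choose t ht1 ht2 using exists_trace e he n
  choose c hc hcy using fun σ : Equiv.Perm (Fin (n + 1)) =>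
    exists_cyc hE hK (rop_rho (W := W) (X := X) n σ⁻¹) (rho_L W D n σ⁻¹)
  have h := gram_bound (B := BP W hbox (pw X n).dim hle) (BP_symm hbox hle) hx (N := N)
    (fun σ => (⟨c σ, hc σ⟩ : PM W ((pw X n).prod (pw X n)) (boxSum ops (dpw ops D n))
      (pw X n).dim)) t ?_ ht2 ?_
  · rwa [Fintype.card_fin] at h
  · intro σ τ
    rw [BP_apply]
    have h1 := pairing_eq (E := dpw ops D n) hK (hc σ).1 (hc τ).1
    rw [hcy, hcy, tp_rho, inv_inv, ← map_mul, ht1] at h1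
    exact_mod_cast h1
  · have h1 := ht1 1
    rw [map_one, Module.End.one_eq_id, LinearMap.trace_id, finrank_pw, ← hN] at h1
    have h2 : ((N ^ (n + 1) : ℕ) : W.K) = (((t 1 : ℤ)) : W.K) := h1
    have h3 : ((N ^ (n + 1) : ℕ) : ℤ) = t 1 := by exact_mod_cast h2
    rw [← h3]
    push_cast
    rfl

end GRO

theorem t_GRO : S_GRO.{u, v} := by
  intro k _ 𝒱 ops W P hD n hK
  have h1 := Pool.Agent.N202.HZ.power_eq (ops := ops) P n
  rw [h1] at hK ⊢
  exact GRO.gro_pw W hD n hK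

end Pool.Agent.N536.HH
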