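import Pool.Agent.N536.HH.Stm

/-!
# The Kunneth standard conjecture is stable under products
-/

set_option autoImplicit false

open CategoryTheory AlgebraicGeometry

universe u v

namespace Pool.Agent.N536.HH

open Module
open Pool.Agent.H914 Pool.Agent.H914.VarClass Pool.Agent.H914.VarClass.Obj
  Pool.Agent.H914.WeilCohomology Pool.Agent.H281R3.HT Pool.Agent.W552 Pool.Agent.W539.Ker
  Pool.Agent.N202.HZ

namespace KUN

variable {k : Type u} [Field k] {𝒱 : VarClass k} {ops : CycleOps 𝒱}
  {W : WeilCohomology.{u, v} ops} {X Y : 𝒱.Obj}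

/-- the projectors of a product -/
lemma proj_prod (l : ℕ) : proj (W.isInternal (X.prod Y)) l =
    ∑ i ∈ Finset.range (l + 1),
      extOp W (proj (W.isInternal X) i) (proj (W.isInternal Y) (l - i)) := by
  classical
  apply LinearMap.ext
  intro c
  refine W.kunneth_induction (p := fun c => proj (W.isInternal (X.prod Y)) l c =
    (∑ i ∈ Finset.range (l + 1),
      extOp W (proj (W.isInternal X) i) (proj (W.isInternal Y) (l - i))) c) ?_ ?_ c
  · intro a b ha hb
    rw [map_add, ha, hb, map_add]
  · intro i j a ha b hb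
    have hm : W.map (fst X Y) a * W.map (snd X Y) b ∈ W.gr (X.prod Y) (i + j) :=
      W.mul_mem (W.map_mem _ ha) (W.map_mem _ hb)
    rw [LinearMap.sum_apply]
    by_cases h : i + j = l
    · subst h
      rw [proj_same _ hm, Finset.sum_eq_single i]
      · rw [extOp_tmul, proj_same _ ha, Nat.add_sub_cancel_left, proj_same _ hb]
      · intro i' _ hi'
        rw [extOp_tmul, proj_ne _ ha hi'.symm, map_zero, zero_mul]
      · intro h
        exact absurd (Finset.mem_range.2 (by omega)) h
    · rw [proj_ne _ hm h, Finset.sum_eq_zero]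
      intro i' hi'
      rw [Finset.mem_range] at hi'
      rw [extOp_tmul]
      by_cases h1 : i = i'
      · rw [proj_ne _ hb (show j ≠ l - i' by omega), map_zero, mul_zero]
      · rw [proj_ne _ ha h1, map_zero, zero_mul]

/-- the projectors have weight zero -/
lemma hm_proj (l : ℕ) : Hm W 0 (proj (W.isInternal X) l) := by
  rw [Hm]
  apply gr_ext (W.isInternal X)
  intro i x hx
  rw [LinearMap.add_apply, LinearMap.comp_apply, LinearMap.comp_apply, LinearMap.smul_apply,
    Fr.wt_gr hx, map_smul, Int.cast_zero, zero_smul, add_zero]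
  by_cases h : i = l
  · subst h
    rw [proj_same _ hx, Fr.wt_gr hx]
  · rw [proj_ne _ hx h, map_zero, smul_zero]

end KUN

/-- **KUN** -/
theorem t_KUN : S_KUN.{u, v} := by
  intro k _ 𝒱 ops W X Y hX hY l
  have hA : AOp W (X.prod Y) (X.prod Y) (proj (W.isInternal (X.prod Y)) l) := by
    rw [KUN.proj_prod]
    apply AOp.ratSub.sum
    intro i _
    exact (AOp.of_rop (rop_proj hX i)).ext (AOp.of_rop (rop_proj hY (l - i)))
  obtain ⟨c, hc, hcl⟩ := hA
  have h1 : Hm W 0 (W.corr c) := by
    rw [hcl]
    exact KUN.hm_proj l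
  have h2 := hm_corr.1 h1
  have h3 : c ∈ W.gr ((X.prod Y).prod (X.prod Y)) (2 * (X.prod Y).dim) := by
    refine (mem_gr_of_wt (W.isInternal _) W_hbd h2).1 _ ?_
    simp only [dim_prod]
    push_cast
    ring
  obtain ⟨z, hz, hzc⟩ := hc.alg h3
  refine ⟨z, hz, ?_⟩
  intro j a ha
  rw [hzc, hcl]
  split_ifs with h
  · subst h
    exact proj_same _ ha
  · exact proj_ne _ ha h

end Pool.Agent.N536.HH
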