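import Pool.Agent.N536.HH.Asm

/-!
# The law
-/

open CategoryTheory AlgebraicGeometry Finset

universe u v

namespace Pool.Agent.N536.HH

open Module
open Pool.Agent.H914 Pool.Agent.H914.VarClass Pool.Agent.H914.VarClass.Obj
  Pool.Agent.H914.WeilCohomology Pool.Agent.H281R3.HT Pool.Agent.W552 Pool.Agent.W539.Ker
  Pool.Agent.N202.HZ

variable {k : Type u} [Field k] {𝒱 : VarClass k} {ops : CycleOps 𝒱}
  {W : WeilCohomology.{u, v} ops}

/-- The number of positive squares of the form `(-1)^d deg (z · w)` on the primitive algebraic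
classes of the middle codimension `d = dim P` on `P × P`. -/
noncomputable def posSq (W : WeilCohomology.{u, v} ops) (P : Polarized 𝒱) : ℕ :=
  nPos W (P.prod ops P).X (P.prod ops P).D P.X.dim

/-- The number of negative squares of this form. -/
noncomputable def negSq (W : WeilCohomology.{u, v} ops) (P : Polarized 𝒱) : ℕ :=
  nNeg W (P.prod ops P).X (P.prod ops P).D P.X.dim

/-- The sum of the Betti numbers. -/
noncomputable def bsum (W : WeilCohomology.{u, v} ops) (P : Polarized 𝒱) : ℕ :=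
  finrank W.K (W.H P.X)

/-- The form of the standard conjecture of Hodge type is nonnegative on the primitive algebraic
classes of all codimensions. -/
def HodgeNonneg (W : WeilCohomology.{u, v} ops) (P : Polarized 𝒱) : Prop :=
  ∀ j, 2 * j ≤ P.X.dim → ∀ z, Primitive W P.X P.D j z → 0 ≤ pairing ops P.X P.D j z z

section

variable (hMUL : S_MUL.{u, v}) (hDIF : S_DIF.{u, v}) (hSTR : S_STR.{u, v})

include hMUL hDIF in
/-- The two primitive classes of codimension `m + 1` on `(P × P) ^ (m + 1)`. -/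
lemma fam_two {P : Polarized 𝒱} (hP : Pos P ops) {j : ℕ} (hj : 2 * j ≤ P.X.dim) (hj1 : 1 ≤ j)
    (h : HasFamily W P.X P.D j (-1) 1) (m : ℕ) :
    HasFamily W (power ops (P.prod ops P) m).X (power ops (P.prod ops P) m).D (m + 1) 1 1 ∧
    HasFamily W (power ops (P.prod ops P) m).X (power ops (P.prod ops P) m).D j (-1) 1 := by
  have hPP : Pos (P.prod ops P) ops := deg_pos_prod W hP hP
  have hd : (P.prod ops P).X.dim = 2 * P.X.dim := by
    change P.X.dim + P.X.dim = _
    ring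
  have h1 : HasFamily W (P.prod ops P).X (P.prod ops P).D 1 1 1 := hDIF W P hP (by omega)
  have h2 : HasFamily W (P.prod ops P).X (P.prod ops P).D j (-1) 1 := by
    have := hMUL W P P hP.isCyc hP.isCyc j 0 hj (by omega) (-1) 1 h (hP.fund W)
    simpa using this
  induction m with
  | zero => exact ⟨h1, h2⟩
  | succ m ih =>
    have hdm := dim_pow (ops := ops) (P.prod ops P) m
    have hle : 2 * (m + 1) ≤ (power ops (P.prod ops P) m).X.dim := by
      rw [hdm, hd]
      nlinarith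
    constructor
    · have := hMUL W (power ops (P.prod ops P) m) (P.prod ops P) (hPP.power W m).isCyc hPP.isCyc
        (m + 1) 1 hle (by omega) 1 1 ih.1 h1
      rw [mul_one] at this
      exact this
    · have := hMUL W (power ops (P.prod ops P) m) (P.prod ops P) (hPP.power W m).isCyc hPP.isCyc
        0 j (by omega) (by omega) 1 (-1) ((hPP.power W m).fund W) h2
      rw [one_mul, zero_add] at this
      exact this

include hMUL hDIF hSTR in
/-- A negative square on a power gives two orthogonal classes of opposite signs in the middle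
codimension of another power. -/
theorem exists_opp_power {P : Polarized 𝒱} (hP : Pos P ops) {n : ℕ}
    (h : ¬ HodgeNonneg W (power ops P n)) :
    ∃ M e y z s t, Opp W (power ops P (2 * M + 1)).X (power ops P (2 * M + 1)).D e y z s t := by
  rw [HodgeNonneg] at h
  push Not at h
  obtain ⟨j, hj, z, hz, hneg⟩ := h
  have hF : HasFamily W (power ops P n).X (power ops P n).D j (-1) 1 := by
    refine ⟨fun _ => z, fun _ => hz, fun _ => by linarith, fun i i' hii => ?_⟩
    exact absurd (Subsingleton.elim i i') hii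
  have hPn := hP.power W n
  -- the general step
  have key : ∀ (Z : Polarized 𝒱) (N : ℕ), Pos Z ops → PolIso W Z (power ops P N) → ∀ i,
      2 * i ≤ Z.X.dim → HasFamily W Z.X Z.D i 1 1 → HasFamily W Z.X Z.D i (-1) 1 →
      ∃ M e y z s t, Opp W (power ops P (2 * M + 1)).X (power ops P (2 * M + 1)).D e y z s t := by
    intro Z N hZ hiso i hi h1 h2
    have e1 := hSTR W Z hZ.isCyc i hi 1 1 h1 h1
    have e2 := hSTR W Z hZ.isCyc i hi (-1) 1 h2 h1
    rw [one_mul] at e1
    rw [mul_one] at e2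
    have hiso2 : PolIso W (power ops P (2 * N + 1)) (Z.prod ops Z) := by
      have h3 := (hiso.prod hiso).trans (power_add W P N N)
      rw [show N + N + 1 = 2 * N + 1 by ring] at h3
      exact h3.symm
    have hdim : (power ops P (2 * N + 1)).X.dim = 2 * Z.X.dim := by
      rw [hiso2.dim_eq]
      change Z.X.dim + Z.X.dim = _
      ring
    have hZZ := deg_pos_prod W hZ hZ
    have f1 := hiso2.hasFamily (hP.power W _).isCyc hZZ.isCyc (by omega) e1
    have f2 := hiso2.hasFamily (hP.power W _).isCyc hZZ.isCyc (by omega) e2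
    obtain ⟨y, z, s, t, hO⟩ := exists_opp (hP.power W _).isCyc hdim f1 f2
    exact ⟨N, Z.X.dim, y, z, s, t, hO⟩
  rcases Nat.eq_zero_or_pos j with rfl | hj1
  · exact key (power ops P n) n hPn (PolIso.refl _) 0 hj (hPn.fund W) hF
  · obtain ⟨h1, h2⟩ := fam_two hMUL hDIF hPn hj hj1 hF (j - 1)
    rw [show j - 1 + 1 = j by omega] at h1
    have hiso : PolIso W (power ops ((power ops P n).prod ops (power ops P n)) (j - 1))
        (power ops P ((n + n + 1 + 1) * (j - 1) + (n + n + 1))) :=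
      (PolIso.power (power_add W P n n) (j - 1)).trans (power_power W P (n + n + 1) (j - 1))
    refine key _ _ ((deg_pos_prod W hPn hPn).power W _) hiso j ?_ h1 h2
    rw [dim_pow]
    change 2 * j ≤ (j - 1 + 1) * ((power ops P n).X.dim + (power ops P n).X.dim)
    rw [show j - 1 + 1 = j by omega]
    nlinarith

end

section

variable (hBND : S_BND.{u, v}) (hGRO : S_GRO.{u, v}) (hKUN : S_KUN.{u, v})

include hKUN in
lemma kun_power {P : Polarized 𝒱} (h : KunnethStd W P.X) (n : ℕ) :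
    KunnethStd W (power ops P n).X := by
  induction n with
  | zero => exact h
  | succ n ih => exact hKUN W _ _ ih h

/-- The squares on `P ^ (n + 1) × P ^ (n + 1)`. -/
lemma posSq_power {P : Polarized 𝒱} (hP : P.X.IsCyc 1 P.D) (n : ℕ) {m : ℕ}
    (hm : m = (n + 1) * P.X.dim) :
    nPos W (power ops P (2 * n + 1)).X (power ops P (2 * n + 1)).D m =
      posSq W (power ops P n) ∧
    nNeg W (power ops P (2 * n + 1)).X (power ops P (2 * n + 1)).D m =
      negSq W (power ops P n) := by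
  have h1 : PolIso W ((power ops P n).prod ops (power ops P n)) (power ops P (2 * n + 1)) := by
    have := power_add W P n n
    rwa [show n + n + 1 = 2 * n + 1 by ring] at this
  have h2 := isCyc_power (ops := ops) hP n
  have h3 := isCyc_prod (ops := ops) h2 h2
  have h4 := isCyc_power (ops := ops) hP (2 * n + 1)
  have hd : ((power ops P n).prod ops (power ops P n)).X.dim =
      (power ops P n).X.dim + (power ops P n).X.dim := rfl
  have hm' : m = (power ops P n).X.dim := by rw [hm, dim_pow]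
  subst hm'
  exact ⟨(h1.nPos_eq h3 h4 (by omega)).symm, (h1.nNeg_eq h3 h4 (by omega)).symm⟩

include hBND in
/-- The bound for the signatures on the powers. -/
lemma sig_power_le {P : Polarized 𝒱} (hP : P.X.IsCyc 1 P.D) {M e : ℕ}
    {y z : W.H (power ops P (2 * M + 1)).X} {s t : ℚ}
    (O : Opp W (power ops P (2 * M + 1)).X (power ops P (2 * M + 1)).D e y z s t) (n : ℕ) :
    |(posSq W (power ops P n) : ℤ) - negSq W (power ops P n)| ≤
      (bsum W P) ^ ((2 * n + 1) % (2 * M + 1 + 1) + 1) *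
        ((bsum W P ^ (2 * M + 1 + 1) - 2 : ℕ) : ℤ) ^ ((2 * n + 1) / (2 * M + 1 + 1)) := by
  set K := 2 * M + 1 with hK
  set r := (2 * n + 1) % (K + 1) with hr
  set q := (2 * n + 1) / (K + 1) with hq
  have hn : r + (K + 1) * q = 2 * n + 1 := Nat.mod_add_div _ _
  have h1 : PolIso W (tower ops (power ops P r) (power ops P K) q) (power ops P (2 * n + 1)) := by
    have := tower_power' W P r K q
    rwa [hn] at this
  have hr' := isCyc_power (ops := ops) hP r
  have hK' := isCyc_power (ops := ops) hP K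
  have ht := isCyc_tower (ops := ops) hr' hK' q
  have h4 := isCyc_power (ops := ops) hP (2 * n + 1)
  have hdim : (tower ops (power ops P r) (power ops P K) q).X.dim = 2 * ((n + 1) * P.X.dim) := by
    rw [h1.dim_eq, dim_pow]
    ring
  have h5 := sig_tower_le hBND hr' hK' O q hdim
  rw [h1.nPos_eq ht h4 (by omega), h1.nNeg_eq ht h4 (by omega), (posSq_power hP n rfl).1,
    (posSq_power hP n rfl).2, finrank_power, finrank_power] at h5
  rw [bsum]
  exact_mod_cast h5

include hBND hGRO hKUN in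
/-- **The law**, if there are classes of opposite signs. -/
theorem law_of_opp {P : Polarized 𝒱} (hP : P.X.IsCyc 1 P.D) (hC : KunnethStd W P.X) {M e : ℕ}
    {y z : W.H (power ops P (2 * M + 1)).X} {s t : ℚ}
    (O : Opp W (power ops P (2 * M + 1)).X (power ops P (2 * M + 1)).D e y z s t) :
    2 ≤ bsum W P ∧ (∀ n, 0 < posSq W (power ops P n) + negSq W (power ops P n)) ∧
    ∃ C c : ℝ, 0 < c ∧ c < 1 ∧ ∀ n : ℕ,
      |(posSq W (power ops P n) : ℝ) - negSq W (power ops P n)| ≤
        C * c ^ n * (posSq W (power ops P n) + negSq W (power ops P n)) := by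
  have hB0 : 2 ≤ finrank W.K (W.H P.X) ^ (2 * M + 1 + 1) := by
    have := O.finrank
    rw [finrank_power] at this
    omega
  set K := 2 * M + 1 with hKdef
  set N := bsum W P with hN
  have hB : 2 ≤ N ^ (K + 1) := hB0
  have hN2 : 2 ≤ N := by
    by_contra h0
    have h0 : N = 0 ∨ N = 1 := by omega
    rcases h0 with h0 | h0
    · rw [h0, zero_pow (by omega)] at hB
      omega
    · rw [h0, one_pow] at hB
      omega
  have hlow : ∀ n, N ^ (2 * (n + 1)) ≤ (posSq W (power ops P n) + negSq W (power ops P n)) *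
      (n + 2) ^ (N ^ 2) := fun n => hGRO W P hP n (kun_power hKUN hC n)
  refine ⟨hN2, fun n => ?_, ?_⟩
  · have h3 := hlow n
    by_contra h4
    have h5 : posSq W (power ops P n) + negSq W (power ops P n) = 0 := by omega
    rw [h5, zero_mul] at h3
    have : 0 < N ^ (2 * (n + 1)) := pow_pos (by omega) _
    omega
  obtain ⟨C, c, hc0, hc1, hC0, hbound⟩ := exists_bound K (N ^ 2)
    (B := ((N ^ (K + 1) : ℕ) : ℝ)) (by exact_mod_cast hB)
  refine ⟨((N ^ (K + 1) : ℕ) : ℝ) * C, c, hc0, hc1, fun n => ?_⟩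
  have hup := sig_power_le hBND hP O n
  have hl := hlow n
  rw [← hN] at hup
  set p := posSq W (power ops P n) with hp
  set m := negSq W (power ops P n) with hm
  set q := (2 * n + 1) / (K + 1) with hq
  have hmod : (2 * n + 1) % (K + 1) + 1 ≤ K + 1 := Nat.mod_lt _ (Nat.succ_pos K)
  have hN1 : 1 ≤ N := by omega
  have h3 : |((p : ℤ) : ℝ) - (m : ℤ)| ≤ ((N ^ (K + 1) : ℕ) : ℝ) *
      (((N ^ (K + 1) : ℕ) : ℝ) - 2) ^ q := by
    have h5 : ((N ^ (K + 1) - 2 : ℕ) : ℝ) = ((N ^ (K + 1) : ℕ) : ℝ) - 2 := by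
      rw [Nat.cast_sub hB]
      norm_num
    have h6 : (|(p : ℤ) - m| : ℤ) ≤ ((N ^ (K + 1) * (N ^ (K + 1) - 2) ^ q : ℕ) : ℤ) := by
      refine hup.trans ?_
      push_cast
      refine mul_le_mul_of_nonneg_right ?_ (by positivity)
      exact_mod_cast Nat.pow_le_pow_right hN1 hmod
    rw [← h5]
    have h7 : ((|(p : ℤ) - m| : ℤ) : ℝ) ≤
        (((N ^ (K + 1) * (N ^ (K + 1) - 2) ^ q : ℕ) : ℤ) : ℝ) := by exact_mod_cast h6
    push_cast at h7 ⊢
    exact h7
  have h3' : |(p : ℝ) - m| ≤ ((N ^ (K + 1) : ℕ) : ℝ) *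
      (((N ^ (K + 1) : ℕ) : ℝ) - 2) ^ q := by
    push_cast at h3 ⊢
    exact h3
  have h5 : (((N ^ (K + 1) : ℕ) : ℝ)) ^ q ≤ ((p : ℝ) + m) * ((n : ℝ) + 2) ^ (N ^ 2) := by
    have h6 : (N ^ (K + 1)) ^ q ≤ (p + m) * (n + 2) ^ (N ^ 2) := by
      refine le_trans ?_ hl
      rw [← pow_mul]
      apply Nat.pow_le_pow_right hN1
      have := Nat.mul_div_le (2 * n + 1) (K + 1)
      rw [← hq] at this
      omega
    exact_mod_cast h6
  have h6 := hbound (2 * n + 1)
  rw [← hq] at h6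
  have hpos : (0 : ℝ) < ((n : ℝ) + 2) ^ (N ^ 2) := by positivity
  have hNB : (0 : ℝ) ≤ ((N ^ (K + 1) : ℕ) : ℝ) := by positivity
  have hBR : (2 : ℝ) ≤ ((N ^ (K + 1) : ℕ) : ℝ) := by exact_mod_cast hB
  have h7 : |(p : ℝ) - m| * ((n : ℝ) + 2) ^ (N ^ 2) ≤
      (((N ^ (K + 1) : ℕ) : ℝ) * C * c ^ n * (p + m)) * ((n : ℝ) + 2) ^ (N ^ 2) := by
    have hn2 : ((n : ℝ) + 2) ^ (N ^ 2) ≤ (((2 * n + 1 : ℕ) : ℝ) + 2) ^ (N ^ 2) := by
      apply pow_le_pow_left₀ (by positivity)
      push_cast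
      have : (0 : ℝ) ≤ n := Nat.cast_nonneg n
      linarith
    have hcn : c ^ (2 * n + 1) ≤ c ^ n := pow_le_pow_of_le_one hc0.le hc1.le (by omega)
    calc |(p : ℝ) - m| * ((n : ℝ) + 2) ^ (N ^ 2) ≤
        (((N ^ (K + 1) : ℕ) : ℝ) * (((N ^ (K + 1) : ℕ) : ℝ) - 2) ^ q) *
          ((n : ℝ) + 2) ^ (N ^ 2) := mul_le_mul_of_nonneg_right h3' hpos.le
      _ = ((N ^ (K + 1) : ℕ) : ℝ) * ((((N ^ (K + 1) : ℕ) : ℝ) - 2) ^ q *
          ((n : ℝ) + 2) ^ (N ^ 2)) := by ring
      _ ≤ ((N ^ (K + 1) : ℕ) : ℝ) * ((((N ^ (K + 1) : ℕ) : ℝ) - 2) ^ q *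
          (((2 * n + 1 : ℕ) : ℝ) + 2) ^ (N ^ 2)) :=
        mul_le_mul_of_nonneg_left (mul_le_mul_of_nonneg_left hn2
          (pow_nonneg (by linarith) _)) hNB
      _ ≤ ((N ^ (K + 1) : ℕ) : ℝ) * (C * c ^ (2 * n + 1) *
          (((N ^ (K + 1) : ℕ) : ℝ)) ^ q) := mul_le_mul_of_nonneg_left h6 hNB
      _ ≤ ((N ^ (K + 1) : ℕ) : ℝ) * (C * c ^ n *
          (((N ^ (K + 1) : ℕ) : ℝ)) ^ q) :=
        mul_le_mul_of_nonneg_left (mul_le_mul_of_nonneg_right
          (mul_le_mul_of_nonneg_left hcn hC0) (by positivity)) hNB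
      _ ≤ ((N ^ (K + 1) : ℕ) : ℝ) * (C * c ^ n *
          (((p : ℝ) + m) * ((n : ℝ) + 2) ^ (N ^ 2))) :=
        mul_le_mul_of_nonneg_left (mul_le_mul_of_nonneg_left h5 (by positivity)) hNB
      _ = _ := by ring
  exact le_of_mul_le_mul_right h7 hpos

end

section

variable (hBND : S_BND.{u, v}) (hGRO : S_GRO.{u, v}) (hKUN : S_KUN.{u, v})
  (hMUL : S_MUL.{u, v}) (hDIF : S_DIF.{u, v}) (hSTR : S_STR.{u, v})

include hBND hGRO hKUN hMUL hDIF hSTR

/-- **The zero-one-half law.** -/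
theorem law1 {P : Polarized 𝒱} (hP : Pos P ops) (hC : KunnethStd W P.X) :
    (∀ n, HodgeNonneg W (power ops P n)) ∨ ∃ C c : ℝ, 0 < c ∧ c < 1 ∧ ∀ n : ℕ,
      |(posSq W (power ops P n) : ℝ) - negSq W (power ops P n)| ≤
        C * c ^ n * (posSq W (power ops P n) + negSq W (power ops P n)) := by
  by_cases h : ∀ n, HodgeNonneg W (power ops P n)
  · exact Or.inl h
  · right
    push Not at h
    obtain ⟨n, hn⟩ := h
    obtain ⟨M, e, y, z, s, t, O⟩ := exists_opp_power hMUL hDIF hSTR hP hn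
    exact (law_of_opp hBND hGRO hKUN hP.isCyc hC O).2.2

/-- **Positivity of a small surplus suffices.** -/
theorem law2 {𝒢 : Set (Polarized 𝒱)} (hprod : ∀ P ∈ 𝒢, ∀ Q ∈ 𝒢, P.prod ops Q ∈ 𝒢)
    (hpos : ∀ P ∈ 𝒢, Pos P ops ∧ KunnethStd W P.X) {f : ℝ → ℝ}
    (hf : ∀ δ : ℝ, 0 < δ → Filter.Tendsto (fun y => f y * y ^ δ) Filter.atTop Filter.atTop)
    (h : ∀ P ∈ 𝒢, f (bsum W P) * ((posSq W P : ℝ) + negSq W P) ≤
      |(posSq W P : ℝ) - negSq W P|) :
    ∀ P ∈ 𝒢, HodgeNonneg W P := by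
  intro P hPm
  by_contra hno
  obtain ⟨hP, hC⟩ := hpos P hPm
  obtain ⟨M, e, y, z, s, t, O⟩ := exists_opp_power (n := 0) hMUL hDIF hSTR hP hno
  obtain ⟨hb, hsq, C, c, hc0, hc1, hlaw⟩ := law_of_opp hBND hGRO hKUN hP.isCyc hC O
  have hmem : ∀ n, power ops P n ∈ 𝒢 := by
    intro n
    induction n with
    | zero => exact hPm
    | succ n ih => exact hprod _ ih _ hPm
  set b : ℝ := (bsum W P : ℝ) with hbdef
  have hb1 : (1 : ℝ) < b := by
    rw [hbdef]
    exact_mod_cast (by omega : 1 < bsum W P)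
  have hb0 : 0 < b := by linarith
  have hbn : ∀ n, ((bsum W (power ops P n) : ℕ) : ℝ) = b ^ (n + 1) := by
    intro n
    rw [bsum, finrank_power, hbdef, bsum]
    push_cast
    rfl
  set δ : ℝ := -Real.log c / Real.log b with hδ
  have hlb : 0 < Real.log b := Real.log_pos hb1
  have hlc : Real.log c < 0 := Real.log_neg hc0 hc1
  have hδ0 : 0 < δ := div_pos (by linarith) hlb
  have hbδ : b ^ δ = c⁻¹ := by
    rw [Real.rpow_def_of_pos hb0, hδ, mul_div_cancel₀ _ hlb.ne', Real.exp_neg,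
      Real.exp_log hc0]
  have h1 := hf δ hδ0
  have h2 : Filter.Tendsto (fun n : ℕ => b ^ (n + 1)) Filter.atTop Filter.atTop :=
    (tendsto_pow_atTop_atTop_of_one_lt hb1).comp (Filter.tendsto_add_atTop_nat 1)
  have h3 := h1.comp h2
  obtain ⟨n, hn⟩ := (h3.eventually (Filter.eventually_gt_atTop (C * c⁻¹))).exists
  have h4 := h _ (hmem n)
  have h5 := hlaw n
  have h6 : (0 : ℝ) < (posSq W (power ops P n) : ℝ) + negSq W (power ops P n) := by
    exact_mod_cast hsq n
  have h7 : f (b ^ (n + 1)) ≤ C * c ^ n := by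
    have h8 := h4.trans h5
    rw [hbn] at h8
    exact le_of_mul_le_mul_right h8 h6
  have h8 : (b ^ (n + 1)) ^ δ = c⁻¹ ^ (n + 1) := by
    rw [← Real.rpow_natCast, ← Real.rpow_mul hb0.le, mul_comm, Real.rpow_mul hb0.le, hbδ,
      Real.rpow_natCast]
  have h9 : f (b ^ (n + 1)) * (b ^ (n + 1)) ^ δ ≤ C * c⁻¹ := by
    rw [h8]
    calc f (b ^ (n + 1)) * c⁻¹ ^ (n + 1) ≤ (C * c ^ n) * c⁻¹ ^ (n + 1) :=
          mul_le_mul_of_nonneg_right h7 (by positivity)
      _ = C * c⁻¹ * (c ^ n * c⁻¹ ^ n) := by ring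
      _ = C * c⁻¹ := by
        rw [← mul_pow, mul_inv_cancel₀ hc0.ne', one_pow, mul_one]
  exact absurd hn (not_lt.2 h9)

end

end Pool.Agent.N536.HH
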