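import Pool.Agent.N286.HH.Base

/-!
# Products of primitive classes (project HH, part MUL, helper286)
-/

open CategoryTheory AlgebraicGeometry Finset

universe u v

namespace Pool.Agent.N536.HH

open Pool.Agent.H914 Pool.Agent.H914.VarClass Pool.Agent.H914.VarClass.Obj
  Pool.Agent.H914.WeilCohomology Pool.Agent.H281R3.HT Pool.Agent.W539.Ker Pool.Agent.N286.HH

theorem t_MUL : S_MUL.{u, v} := by
  intro k _ 𝒱 ops W P Q hP hQ i j hi hj s t hs ht
  show HasFamily W (P.X.prod Q.X) (dD ops P.D Q.D) (i + j) (s * t) 1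
  obtain ⟨z, hz, hsz⟩ := of_hasFamily hs
  obtain ⟨w, hw, htw⟩ := of_hasFamily ht
  have hα : W.cl P.X P.D ∈ W.gr P.X 2 := W.cl_mem hP
  have hβ : W.cl Q.X Q.D ∈ W.gr Q.X 2 := W.cl_mem hQ
  have hx := W.cl_mem hz.1
  have hy := W.cl_mem hw.1
  have hx0 := prim_pow hz
  have hy0 := prim_pow hw
  obtain ⟨α, hαe⟩ : ∃ α, α = W.cl P.X P.D := ⟨_, rfl⟩
  obtain ⟨β, hβe⟩ : ∃ β, β = W.cl Q.X Q.D := ⟨_, rfl⟩
  obtain ⟨x, hxe⟩ : ∃ x, x = W.cl P.X z := ⟨_, rfl⟩
  obtain ⟨y, hye⟩ : ∃ y, y = W.cl Q.X w := ⟨_, rfl⟩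
  have hdim : (P.X.prod Q.X).dim = P.X.dim + Q.X.dim := rfl
  have hcyc : (P.X.prod Q.X).IsCyc (i + j)
      (ops.mul (ops.pull (fst P.X Q.X) z) (ops.pull (snd P.X Q.X) w)) :=
    ops.mul_mem (ops.pull_mem (fst P.X Q.X) hz.1) (ops.pull_mem (snd P.X Q.X) hw.1)
  have hcl : W.cl (P.X.prod Q.X)
      (ops.mul (ops.pull (fst P.X Q.X) z) (ops.pull (snd P.X Q.X) w)) =
      W.map (fst P.X Q.X) x * W.map (snd P.X Q.X) y := by
    rw [hxe, hye]
    rw [W.cl_mul, W.cl_pull, W.cl_pull]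
  rw [← hαe] at hα hx0
  rw [← hβe] at hβ hy0
  rw [← hxe] at hx hx0
  rw [← hye] at hy hy0
  have hDP := isCyc_dD (ops := ops) hP hQ
  have hLD : W.cl (P.X.prod Q.X) (dD ops P.D Q.D) =
      W.map (fst P.X Q.X) α + W.map (snd P.X Q.X) β := by
    rw [cl_dD, hαe, hβe]
  refine hasFamily_of _ ⟨hcyc, ?_⟩ ?_
  · rw [cl_divPow, mulLeft_pow, hcl, hLD, pow_L β hβ x y]
    refine Finset.sum_eq_zero fun l _ => ?_
    by_cases hl : P.X.dim - 2 * i + 1 ≤ l
    · rw [pow_van hx0 hl, map_zero, zero_mul, smul_zero]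
    · have h1 : Q.X.dim - 2 * j + 1 ≤ (P.X.prod Q.X).dim - 2 * (i + j) + 1 - l := by
        rw [hdim]
        omega
      rw [pow_van hy0 h1, map_zero, mul_zero, smul_zero]
  · have hpair : pairing ops (P.X.prod Q.X) (dD ops P.D Q.D) (i + j)
        (ops.mul (ops.pull (fst P.X Q.X) z) (ops.pull (snd P.X Q.X) w))
        (ops.mul (ops.pull (fst P.X Q.X) z) (ops.pull (snd P.X Q.X) w)) =
        ((P.X.dim - 2 * i + (Q.X.dim - 2 * j)).choose (P.X.dim - 2 * i) : ℚ) *
          pairing ops P.X P.D i z z * pairing ops Q.X Q.D j w w := by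
      have h1 : ((pairing ops (P.X.prod Q.X) (dD ops P.D Q.D) (i + j)
          (ops.mul (ops.pull (fst P.X Q.X) z) (ops.pull (snd P.X Q.X) w))
          (ops.mul (ops.pull (fst P.X Q.X) z) (ops.pull (snd P.X Q.X) w)) : ℚ) : W.K) =
          ((((P.X.dim - 2 * i + (Q.X.dim - 2 * j)).choose (P.X.dim - 2 * i) : ℚ) *
          pairing ops P.X P.D i z z * pairing ops Q.X Q.D j w w : ℚ) : W.K) := by
        rw [Rat.cast_mul, Rat.cast_mul, pairing_cast' hDP (by rw [hdim]; omega) hcyc hcyc,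
          pairing_cast' hP hi hz.1 hz.1, pairing_cast' hQ hj hw.1 hw.1, hcl, hLD, pow_L β hβ x y,
          Finset.mul_sum, map_sum]
        have h2 : (P.X.prod Q.X).dim - 2 * (i + j) =
            P.X.dim - 2 * i + (Q.X.dim - 2 * j) := by
          rw [hdim]
          omega
        rw [h2, Finset.sum_eq_single (P.X.dim - 2 * i)]
        · rw [mul_smul_comm, map_nsmul, tr_ext_mul x _ _ hy, nsmul_eq_mul, Nat.add_sub_cancel_left,
            ← hαe, ← hβe, ← hxe, ← hye, Rat.cast_natCast, pow_add]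
          ring
        · intro l hl hne
          rw [Finset.mem_range] at hl
          rcases lt_or_gt_of_ne hne with h3 | h3
          · have h4 : Q.X.dim - 2 * j + 1 ≤ P.X.dim - 2 * i + (Q.X.dim - 2 * j) - l := by omega
            rw [pow_van hy0 h4, map_zero, mul_zero, smul_zero, mul_zero, map_zero]
          · have h4 : P.X.dim - 2 * i + 1 ≤ l := by omega
            rw [pow_van hx0 h4, map_zero, zero_mul, smul_zero, mul_zero, map_zero]
        · intro h
          exfalso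
          apply h
          rw [Finset.mem_range]
          omega
      exact_mod_cast h1
    rw [hpair]
    have h1 : (0 : ℚ) < ((P.X.dim - 2 * i + (Q.X.dim - 2 * j)).choose (P.X.dim - 2 * i) : ℚ) := by
      exact_mod_cast Nat.choose_pos (Nat.le_add_right _ _)
    have h2 := mul_pos h1 (mul_pos hsz htw)
    calc (0 : ℚ) < _ := h2
      _ = _ := by ring

end Pool.Agent.N536.HH
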