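import Pool.Agent.N286.HH.Base

/-!
# A primitive class of the middle codimension from two strings (project HH, part STR, helper286)
-/

open CategoryTheory AlgebraicGeometry Finset

universe u v

namespace Pool.Agent.N536.HH

open Pool.Agent.H914 Pool.Agent.H914.VarClass Pool.Agent.H914.VarClass.Obj
  Pool.Agent.H914.WeilCohomology Pool.Agent.H281R3.HT Pool.Agent.W539.Ker Pool.Agent.N286.HH

namespace STR

variable {k : Type u} [Field k] {𝒱 : VarClass k} {ops : CycleOps 𝒱}
  {W : WeilCohomology.{u, v} ops} {X Y : 𝒱.Obj}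

lemma isCyc_sum {n : ℕ} {ι : Type} (s : Finset ι) (f : ι → X.Cycles)
    (h : ∀ i ∈ s, X.IsCyc n (f i)) : X.IsCyc n (∑ i ∈ s, f i) := by
  classical
  induction s using Finset.induction_on with
  | empty =>
    rw [Finset.sum_empty]
    exact SmVar.IsCyc.zero _ _
  | insert a s ha ih =>
    rw [Finset.sum_insert ha]
    exact (h a (Finset.mem_insert_self a s)).add
      (ih fun i hi => h i (Finset.mem_insert_of_mem hi))

lemma L_one {a : W.H X} {b : W.H Y} (hb : b ∈ W.gr Y 2) (x : W.H X) (y : W.H Y) :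
    (W.map (fst X Y) a + W.map (snd X Y) b) * (W.map (fst X Y) x * W.map (snd X Y) y) =
      W.map (fst X Y) (a * x) * W.map (snd X Y) y +
        W.map (fst X Y) x * W.map (snd X Y) (b * y) := by
  have h1 : W.map (snd X Y) b * W.map (fst X Y) x = W.map (fst X Y) x * W.map (snd X Y) b :=
    W.even_comm (p := 1) (W.map_mem (snd X Y) hb) _
  rw [add_mul, map_mul, map_mul, mul_assoc, ← mul_assoc (W.map (snd X Y) b), h1, mul_assoc]

end STR

open STR in
theorem t_STR : S_STR.{u, v} := by
  intro k _ 𝒱 ops W P hP j hj s t hs ht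
  show HasFamily W (P.X.prod P.X) (dD ops P.D P.D) P.X.dim (s * t) 1
  obtain ⟨z, hz, hsz⟩ := of_hasFamily hs
  obtain ⟨w, hw, htw⟩ := of_hasFamily ht
  obtain ⟨m, hm⟩ : ∃ m, m = P.X.dim - 2 * j := ⟨_, rfl⟩
  have hα : W.cl P.X P.D ∈ W.gr P.X 2 := W.cl_mem hP
  have hx := W.cl_mem hz.1
  have hy := W.cl_mem hw.1
  have hx0 := prim_pow hz
  have hy0 := prim_pow hw
  obtain ⟨α, hαe⟩ : ∃ α, α = W.cl P.X P.D := ⟨_, rfl⟩
  obtain ⟨x, hxe⟩ : ∃ x, x = W.cl P.X z := ⟨_, rfl⟩
  obtain ⟨y, hye⟩ : ∃ y, y = W.cl P.X w := ⟨_, rfl⟩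
  rw [← hαe] at hα hx0 hy0
  rw [← hxe] at hx hx0
  rw [← hye] at hy hy0
  rw [← hm] at hx0 hy0
  have hdim : (P.X.prod P.X).dim = P.X.dim + P.X.dim := rfl
  have hDP := isCyc_dD (ops := ops) hP hP
  have hLD : W.cl (P.X.prod P.X) (dD ops P.D P.D) =
      W.map (fst P.X P.X) α + W.map (snd P.X P.X) α := by
    rw [cl_dD, hαe]
  obtain ⟨Z, hZ⟩ : ∃ Z : (P.X.prod P.X).Cycles, Z = ∑ i ∈ range (m + 1), ((-1 : ℚ) ^ i) •
      ops.mul (ops.pull (fst P.X P.X) (divPow ops P.D (m - i) z))
        (ops.pull (snd P.X P.X) (divPow ops P.D i w)) := ⟨_, rfl⟩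
  have hcyc : (P.X.prod P.X).IsCyc P.X.dim Z := by
    rw [hZ]
    refine isCyc_sum _ _ fun i hi => ?_
    rw [Finset.mem_range] at hi
    apply SmVar.IsCyc.smul
    have h1 := ops.mul_mem
      (ops.pull_mem (fst P.X P.X) (divPow_mem (ops := ops) hP (m - i) hz.1))
      (ops.pull_mem (snd P.X P.X) (divPow_mem (ops := ops) hP i hw.1))
    have h2 : j + (m - i) + (j + i) = P.X.dim := by omega
    rw [h2] at h1
    exact h1
  have hcl : W.cl (P.X.prod P.X) Z = ∑ i ∈ range (m + 1), ((-1 : W.K) ^ i) •
      (W.map (fst P.X P.X) (α ^ (m - i) * x) * W.map (snd P.X P.X) (α ^ i * y)) := by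
    rw [hZ, map_sum]
    refine Finset.sum_congr rfl fun i _ => ?_
    rw [W.cl_smul, W.cl_mul, W.cl_pull, W.cl_pull, cl_divPow, cl_divPow, mulLeft_pow, mulLeft_pow,
      ← hαe, ← hxe, ← hye]
    push_cast
    rfl
  refine hasFamily_of Z ⟨hcyc, ?_⟩ ?_
  · have h1 : (P.X.prod P.X).dim - 2 * P.X.dim + 1 = 1 := by
      rw [hdim]
      omega
    rw [cl_divPow, mulLeft_pow, hcl, hLD, h1, pow_one, Finset.mul_sum]
    obtain ⟨S, hS⟩ : ∃ S : ℕ → W.H (P.X.prod P.X), S = fun i => ((-1 : W.K) ^ i) •
      (W.map (fst P.X P.X) (α ^ (m + 1 - i) * x) * W.map (snd P.X P.X) (α ^ i * y)) := ⟨_, rfl⟩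
    have h2 : ∀ i ∈ range (m + 1), (W.map (fst P.X P.X) α + W.map (snd P.X P.X) α) *
        (((-1 : W.K) ^ i) • (W.map (fst P.X P.X) (α ^ (m - i) * x) *
          W.map (snd P.X P.X) (α ^ i * y))) = S i - S (i + 1) := by
      intro i hi
      rw [Finset.mem_range] at hi
      rw [mul_smul_comm, L_one hα, hS]
      have e1 : α * (α ^ (m - i) * x) = α ^ (m + 1 - i) * x := by
        rw [← mul_assoc, ← pow_succ']
        congr 2
        omega
      have e2 : α * (α ^ i * y) = α ^ (i + 1) * y := by
        rw [← mul_assoc, ← pow_succ']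
      have e3 : m + 1 - (i + 1) = m - i := by omega
      simp only [e3]
      rw [e1, e2, smul_add, pow_succ (-1 : W.K) i, mul_neg_one, neg_smul, sub_neg_eq_add]
    rw [Finset.sum_congr rfl h2, Finset.sum_range_sub', hS]
    simp only [Nat.sub_zero, Nat.sub_self]
    rw [hx0, hy0, map_zero, map_zero, zero_mul, mul_zero, smul_zero, smul_zero, sub_zero]
  · have hpair : pairing ops (P.X.prod P.X) (dD ops P.D P.D) P.X.dim Z Z =
        ((m : ℚ) + 1) * pairing ops P.X P.D j z z * pairing ops P.X P.D j w w := by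
      have h1 : ((pairing ops (P.X.prod P.X) (dD ops P.D P.D) P.X.dim Z Z : ℚ) : W.K) =
          ((((m : ℚ) + 1) * pairing ops P.X P.D j z z * pairing ops P.X P.D j w w : ℚ) :
            W.K) := by
        have h0 : (P.X.prod P.X).dim - 2 * P.X.dim = 0 := by
          rw [hdim]
          omega
        rw [Rat.cast_mul, Rat.cast_mul, pairing_cast' hDP (by rw [hdim]; omega) hcyc hcyc,
          pairing_cast' hP hj hz.1 hz.1, pairing_cast' hP hj hw.1 hw.1, h0, pow_zero, one_mul,
          ← hm, ← hαe, ← hxe, ← hye, hcl, Finset.sum_mul_sum, map_sum]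
        have hcx : ∀ a b : ℕ, (α ^ a * x) * (α ^ b * x) = α ^ (a + b) * (x * x) := by
          intro a b
          have h3 : x * α ^ b = α ^ b * x := W.even_comm hx _
          rw [mul_assoc, ← mul_assoc x, h3, pow_add]
          simp only [mul_assoc]
        have hcy : ∀ a b : ℕ, (α ^ a * y) * (α ^ b * y) = α ^ (a + b) * (y * y) := by
          intro a b
          have h3 : y * α ^ b = α ^ b * y := W.even_comm hy _
          rw [mul_assoc, ← mul_assoc y, h3, pow_add]
          simp only [mul_assoc]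
        have hxx : ∀ n, m + 1 ≤ n → α ^ n * (x * x) = 0 := by
          intro n hn
          rw [← mul_assoc, pow_van hx0 hn, zero_mul]
        have hyy : ∀ n, m + 1 ≤ n → α ^ n * (y * y) = 0 := by
          intro n hn
          rw [← mul_assoc, pow_van hy0 hn, zero_mul]
        have hyg : ∀ i, α ^ i * y ∈ W.gr P.X (2 * (i + j)) := by
          intro i
          rw [mul_add]
          exact W.mul_mem (pow_gr hα i) hy
        have hterm : ∀ a b : ℕ, W.tr (P.X.prod P.X) ((((-1 : W.K) ^ a) •
            (W.map (fst P.X P.X) (α ^ (m - a) * x) * W.map (snd P.X P.X) (α ^ a * y))) *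
            (((-1 : W.K) ^ b) •
            (W.map (fst P.X P.X) (α ^ (m - b) * x) * W.map (snd P.X P.X) (α ^ b * y)))) =
            (-1 : W.K) ^ (a + b) * (W.tr P.X (α ^ (m - a + (m - b)) * (x * x)) *
              W.tr P.X (α ^ (a + b) * (y * y))) := by
          intro a b
          rw [smul_mul_smul_comm, map_smul, tr_ext_mul _ _ _ (hyg a), hcx, hcy, smul_eq_mul,
            pow_add (-1 : W.K) a b]
        have hin : ∀ a ∈ range (m + 1), W.tr (P.X.prod P.X) (∑ b ∈ range (m + 1),
            (((-1 : W.K) ^ a) •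
            (W.map (fst P.X P.X) (α ^ (m - a) * x) * W.map (snd P.X P.X) (α ^ a * y))) *
            (((-1 : W.K) ^ b) •
            (W.map (fst P.X P.X) (α ^ (m - b) * x) * W.map (snd P.X P.X) (α ^ b * y)))) =
            (-1 : W.K) ^ m * (W.tr P.X (α ^ m * (x * x)) * W.tr P.X (α ^ m * (y * y))) := by
          intro a ha
          rw [Finset.mem_range] at ha
          rw [map_sum, Finset.sum_eq_single (m - a)]
          · rw [hterm]
            have e1 : m - a + (m - (m - a)) = m := by omega
            have e2 : a + (m - a) = m := by omega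
            rw [e1, e2]
          · intro b hb hne
            rw [Finset.mem_range] at hb
            rw [hterm]
            rcases lt_or_gt_of_ne hne with h3 | h3
            · rw [hxx _ (by omega), map_zero, zero_mul, mul_zero]
            · rw [hyy _ (by omega), map_zero, mul_zero, mul_zero]
          · intro h
            exfalso
            apply h
            rw [Finset.mem_range]
            omega
        have hsum := Finset.sum_congr rfl hin
        rw [Finset.sum_const, Finset.card_range, nsmul_eq_mul] at hsum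
        refine (congrArg (fun r => (-1 : W.K) ^ P.X.dim * r) hsum).trans ?_
        have e1 : W.tr P.X (x * (α ^ m * x)) = W.tr P.X (α ^ m * (x * x)) := by
          have h3 := hcx 0 m
          rw [pow_zero, one_mul, zero_add] at h3
          rw [h3]
        have e2 : W.tr P.X (y * (α ^ m * y)) = W.tr P.X (α ^ m * (y * y)) := by
          have h3 := hcy 0 m
          rw [pow_zero, one_mul, zero_add] at h3
          rw [h3]
        rw [e1, e2]
        have e3 : (-1 : W.K) ^ P.X.dim * (-1) ^ m = 1 := by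
          rw [← pow_add]
          apply Even.neg_one_pow
          exact ⟨j + m, by omega⟩
        have e4 : (-1 : W.K) ^ j * (-1) ^ j = 1 := by
          rw [← pow_add]
          apply Even.neg_one_pow
          exact ⟨j, rfl⟩
        push_cast
        linear_combination ((m : W.K) + 1) * W.tr P.X (α ^ m * (x * x)) *
          W.tr P.X (α ^ m * (y * y)) * (e3 - e4)
      exact_mod_cast h1
    rw [hpair]
    have h1 : (0 : ℚ) < (m : ℚ) + 1 := by positivity
    have h2 := mul_pos h1 (mul_pos hsz htw)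
    calc (0 : ℚ) < _ := h2
      _ = _ := by ring

end Pool.Agent.N536.HH
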