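import Pool.Agent.N202.HZ.Iso
import Pool.Agent.W539.Sig.Geo2

/-!
# The zero-one-half law without the Lefschetz standard conjecture: statements
-/

open CategoryTheory AlgebraicGeometry

universe u v

namespace Pool.Agent.N536.HH

open Module
open Pool.Agent.H914 Pool.Agent.H914.VarClass Pool.Agent.H914.VarClass.Obj
  Pool.Agent.H914.WeilCohomology Pool.Agent.H281R3.HT Pool.Agent.W552 Pool.Agent.W539.Ker
  Pool.Agent.N202.HZ
open Pool.Agent.Y129.Half (pw)

variable {k : Type u} [Field k] {𝒱 : VarClass k} {ops : CycleOps 𝒱}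

/-- The class `x` is an algebraic class of codimension `e` with `D · x = 0`. -/
def Mid (W : WeilCohomology.{u, v} ops) (X : 𝒱.Obj) (D : X.Cycles) (e : ℕ) (x : W.H X) : Prop :=
  x ∈ algClasses W X e ∧ W.cl X D * x = 0

/-- Two orthogonal primitive algebraic classes of the middle codimension with squares of opposite
signs. -/
structure Opp (W : WeilCohomology.{u, v} ops) (X : 𝒱.Obj) (D : X.Cycles) (e : ℕ) (y z : W.H X)
    (s t : ℚ) : Prop where
  dim : X.dim = 2 * e
  my : Mid W X D e y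
  mz : Mid W X D e z
  yy : W.tr X (y * y) = (s : W.K)
  zz : W.tr X (z * z) = (t : W.K)
  yz : W.tr X (y * z) = 0
  neg : s * t < 0

/-- The algebraic operator `Θ` changes the sign of the intersection form, up to the algebraic
idempotent `g`; both preserve the degrees and commute with the Lefschetz operator. -/
structure Flip (W : WeilCohomology.{u, v} ops) (X : 𝒱.Obj) (D : X.Cycles) (lam : ℚ)
    (g Θ : Module.End W.K (W.H X)) : Prop where
  ag : AOp W X X g
  aT : AOp W X X Θ
  hg : ∀ i, ∀ x ∈ W.gr X i, g x ∈ W.gr X i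
  hT : ∀ i, ∀ x ∈ W.gr X i, Θ x ∈ W.gr X i
  Lg : ∀ x, g (W.cl X D * x) = W.cl X D * g x
  LT : ∀ x, Θ (W.cl X D * x) = W.cl X D * Θ x
  idem : g ∘ₗ g = g
  form : ∀ a b, W.tr X (Θ a * Θ b) = -(lam : W.K) * (W.tr X (a * b) - W.tr X (g a * b))

/-- The divisor `D` is a divisor with positive self-intersection number. -/
structure Pos (P : Polarized 𝒱) (ops : CycleOps 𝒱) : Prop where
  isCyc : P.X.IsCyc 1 P.D
  deg_pos : 0 < P.X.V.degCycle (divPow ops P.D P.X.dim P.X.V.fundCycle)

/-- **BND**: the bound for the signature in the middle codimension. -/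
def S_BND : Prop :=
  ∀ {k : Type u} [Field k] {𝒱 : VarClass k} {ops : CycleOps 𝒱}
    (W : WeilCohomology.{u, v} ops) (X : 𝒱.Obj) (D : X.Cycles) (_ : X.IsCyc 1 D) (e : ℕ)
    (_ : X.dim = 2 * e) (lam : ℚ) (_ : 0 < lam) (g Θ : Module.End W.K (W.H X))
    (_ : Flip W X D lam g Θ),
    |(nPos W X D e : ℤ) - nNeg W X D e| ≤ finrank W.K (LinearMap.range g)

/-- **KUN**: the Kunneth standard conjecture is stable under products. -/
def S_KUN : Prop :=
  ∀ {k : Type u} [Field k] {𝒱 : VarClass k} {ops : CycleOps 𝒱}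
    (W : WeilCohomology.{u, v} ops) (X Y : 𝒱.Obj), KunnethStd W X → KunnethStd W Y →
    KunnethStd W (X.prod Y)

/-- **GRO**: the growth of the number of squares in the middle codimension of `X^(n+1) × X^(n+1)`. -/
def S_GRO : Prop :=
  ∀ {k : Type u} [Field k] {𝒱 : VarClass k} {ops : CycleOps 𝒱}
    (W : WeilCohomology.{u, v} ops) (P : Polarized 𝒱) (_ : P.X.IsCyc 1 P.D) (n : ℕ)
    (_ : KunnethStd W (power ops P n).X),
    finrank W.K (W.H P.X) ^ (2 * (n + 1)) ≤
      (nPos W ((power ops P n).prod ops (power ops P n)).X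
          ((power ops P n).prod ops (power ops P n)).D (power ops P n).X.dim +
        nNeg W ((power ops P n).prod ops (power ops P n)).X
          ((power ops P n).prod ops (power ops P n)).D (power ops P n).X.dim) *
      (n + 2) ^ (finrank W.K (W.H P.X) ^ 2)

/-- **MUL**: products of primitive classes. -/
def S_MUL : Prop :=
  ∀ {k : Type u} [Field k] {𝒱 : VarClass k} {ops : CycleOps 𝒱}
    (W : WeilCohomology.{u, v} ops) (P Q : Polarized 𝒱) (_ : P.X.IsCyc 1 P.D)
    (_ : Q.X.IsCyc 1 Q.D) (i j : ℕ) (_ : 2 * i ≤ P.X.dim) (_ : 2 * j ≤ Q.X.dim) (s t : ℚ),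
    HasFamily W P.X P.D i s 1 → HasFamily W Q.X Q.D j t 1 →
    HasFamily W (P.prod ops Q).X (P.prod ops Q).D (i + j) (s * t) 1

/-- **DIF**: the class `D × X - X × D` on `X × X`. -/
def S_DIF : Prop :=
  ∀ {k : Type u} [Field k] {𝒱 : VarClass k} {ops : CycleOps 𝒱}
    (W : WeilCohomology.{u, v} ops) (P : Polarized 𝒱) (_ : Pos P ops) (_ : 1 ≤ P.X.dim),
    HasFamily W (P.prod ops P).X (P.prod ops P).D 1 1 1

/-- **STR**: two primitive classes of the same codimension give a primitive class of the middle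
codimension on the square. -/
def S_STR : Prop :=
  ∀ {k : Type u} [Field k] {𝒱 : VarClass k} {ops : CycleOps 𝒱}
    (W : WeilCohomology.{u, v} ops) (P : Polarized 𝒱) (_ : P.X.IsCyc 1 P.D) (j : ℕ)
    (_ : 2 * j ≤ P.X.dim) (s t : ℚ),
    HasFamily W P.X P.D j s 1 → HasFamily W P.X P.D j t 1 →
    HasFamily W (P.prod ops P).X (P.prod ops P).D P.X.dim (s * t) 1

end Pool.Agent.N536.HH
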