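import Pool.Agent.N536.HH.Stm

/-!
# The zero-one-half law in all codimensions, without the Lefschetz standard conjecture: statements
-/

open CategoryTheory AlgebraicGeometry

universe u v

namespace Pool.Agent.N536.HH

open Module
open Pool.Agent.H914 Pool.Agent.H914.VarClass Pool.Agent.H914.VarClass.Obj
  Pool.Agent.H914.WeilCohomology Pool.Agent.H281R3.HT Pool.Agent.W552 Pool.Agent.W539.Ker
  Pool.Agent.N202.HZ

/-- **BNJ**: the bound for the signatures in all codimensions. -/
def S_BNJ : Prop :=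
  ∀ {k : Type u} [Field k] {𝒱 : VarClass k} {ops : CycleOps 𝒱}
    (W : WeilCohomology.{u, v} ops) (X : 𝒱.Obj) (D : X.Cycles) (_ : X.IsCyc 1 D) (lam : ℚ)
    (_ : 0 < lam) (g Θ : Module.End W.K (W.H X)) (_ : Flip W X D lam g Θ),
    imbalance W X D ≤ finrank W.K (LinearMap.range g)

/-- **DFJ**: the primitive class of codimension `j` in the subring of `H(X × X)` generated by
`D × X` and `X × D`. -/
def S_DFJ : Prop :=
  ∀ {k : Type u} [Field k] {𝒱 : VarClass k} {ops : CycleOps 𝒱}
    (W : WeilCohomology.{u, v} ops) (P : Polarized 𝒱) (_ : Pos P ops) (j : ℕ)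
    (_ : j ≤ P.X.dim), HasFamily W (P.prod ops P).X (P.prod ops P).D j 1 1

end Pool.Agent.N536.HH
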