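import Pool.Agent.N536.HH.Law
import Pool.Agent.N536.HH.Stm2
import Pool.Agent.N286.HH.Base

/-!
# Products with an arbitrary variety do not decrease the number of squares
-/

open CategoryTheory AlgebraicGeometry Finset

universe u v

namespace Pool.Agent.N536.HH

open Module
open Pool.Agent.H914 Pool.Agent.H914.VarClass Pool.Agent.H914.VarClass.Obj
  Pool.Agent.H914.WeilCohomology Pool.Agent.H281R3.HT Pool.Agent.W552 Pool.Agent.W539.Ker
  Pool.Agent.N202.HZ Pool.Agent.N286.HH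

variable {k : Type u} [Field k] {𝒱 : VarClass k} {ops : CycleOps 𝒱}
  {W : WeilCohomology.{u, v} ops}

/-- Families on `Z` give families on `Q × Z`. -/
lemma family_prod {Q Z : Polarized 𝒱} (hQ : Pos Q ops) (hZ : Z.X.IsCyc 1 Z.D) {j : ℕ}
    (hj : 2 * j ≤ Z.X.dim) {s : ℚ} {r : ℕ} (h : HasFamily W Z.X Z.D j s r) :
    HasFamily W (Q.prod ops Z).X (Q.prod ops Z).D j s r := by
  show HasFamily W (Q.X.prod Z.X) (dD ops Q.D Z.D) j s r
  obtain ⟨z, hz, hs, horth⟩ := h
  have hP := hQ.isCyc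
  have hα : W.cl Q.X Q.D ∈ W.gr Q.X 2 := W.cl_mem hP
  have hβ : W.cl Z.X Z.D ∈ W.gr Z.X 2 := W.cl_mem hZ
  obtain ⟨v, hv⟩ : ∃ v, v = Q.X.V.degCycle (divPow ops Q.D Q.X.dim Q.X.V.fundCycle) := ⟨_, rfl⟩
  have hv0 : 0 < v := hv ▸ hQ.deg_pos
  have hfd := divPow_mem (ops := ops) hP Q.X.dim (SmVar.fundCycle_mem Q.X.V)
  rw [zero_add] at hfd
  have htv : W.tr Q.X (W.cl Q.X Q.D ^ Q.X.dim) = (v : W.K) := by
    have h1 := W.tr_cl hfd
    rw [cl_divPow, mulLeft_pow] at h1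
    have h2 : W.cl Q.X Q.X.V.fundCycle = 1 := W.cl_fund Q.X
    rw [h2, mul_one] at h1
    rw [h1, hv]
  have hdim : (Q.X.prod Z.X).dim = Q.X.dim + Z.X.dim := rfl
  have hDP := isCyc_dD (ops := ops) hP hZ
  have hLD := cl_dD (ops := ops) W Q.D Z.D
  have hα0 : ∀ n, Q.X.dim + 1 ≤ n → W.cl Q.X Q.D ^ n = 0 := by
    intro n hn
    have h1 := pow_gr hα n
    rw [W.gr_eq_bot Q.X (2 * n) (by omega)] at h1
    exact (Submodule.mem_bot _).1 h1
  have hcl : ∀ i, W.cl (Q.X.prod Z.X) (ops.pull (snd Q.X Z.X) (z i)) =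
      W.map (fst Q.X Z.X) 1 * W.map (snd Q.X Z.X) (W.cl Z.X (z i)) := by
    intro i
    rw [W.cl_pull, map_one, one_mul]
  have hcyc : ∀ i, (Q.X.prod Z.X).IsCyc j (ops.pull (snd Q.X Z.X) (z i)) := fun i =>
    ops.pull_mem _ (hz i).1
  have hpair : ∀ i l, pairing ops (Q.X.prod Z.X) (dD ops Q.D Z.D) j
      (ops.pull (snd Q.X Z.X) (z i)) (ops.pull (snd Q.X Z.X) (z l)) =
      ((Q.X.dim + (Z.X.dim - 2 * j)).choose Q.X.dim : ℚ) * v * pairing ops Z.X Z.D j (z i) (z l) := by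
    intro i l
    have h1 : ((pairing ops (Q.X.prod Z.X) (dD ops Q.D Z.D) j
      (ops.pull (snd Q.X Z.X) (z i)) (ops.pull (snd Q.X Z.X) (z l)) : ℚ) : W.K) =
      ((((Q.X.dim + (Z.X.dim - 2 * j)).choose Q.X.dim : ℚ) * v *
        pairing ops Z.X Z.D j (z i) (z l) : ℚ) : W.K) := by
      rw [Rat.cast_mul, Rat.cast_mul, pairing_cast' hDP (by rw [hdim]; omega) (hcyc i) (hcyc l),
        pairing_cast' hZ hj (hz i).1 (hz l).1, hcl, hcl, hLD, pow_L _ hβ, Finset.mul_sum, map_sum]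
      have h2 : (Q.X.prod Z.X).dim - 2 * j = Q.X.dim + (Z.X.dim - 2 * j) := by
        rw [hdim]
        omega
      rw [h2, Finset.sum_eq_single Q.X.dim]
      · rw [mul_smul_comm, map_nsmul, tr_ext_mul _ _ _ (W.cl_mem (hz i).1), nsmul_eq_mul,
          Nat.add_sub_cancel_left, mul_one, one_mul, htv, Rat.cast_natCast]
        ring
      · intro a ha hne
        rw [Finset.mem_range] at ha
        rcases lt_or_gt_of_ne hne with h3 | h3
        · have h4 : Z.X.dim - 2 * j + 1 ≤ Q.X.dim + (Z.X.dim - 2 * j) - a := by omega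
          rw [pow_van (prim_pow (hz l)) h4, map_zero, mul_zero, smul_zero, mul_zero, map_zero]
        · rw [hα0 a (by omega), zero_mul, map_zero, zero_mul, smul_zero, mul_zero, map_zero]
      · intro h
        exfalso
        apply h
        rw [Finset.mem_range]
        omega
    exact_mod_cast h1
  have hc : (0 : ℚ) < ((Q.X.dim + (Z.X.dim - 2 * j)).choose Q.X.dim : ℚ) * v := by
    refine mul_pos ?_ hv0
    exact_mod_cast Nat.choose_pos (Nat.le_add_right _ _)
  refine ⟨fun i => ops.pull (snd Q.X Z.X) (z i), fun i => ⟨hcyc i, ?_⟩, fun i => ?_,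
    fun i l hil => ?_⟩
  · rw [cl_divPow, mulLeft_pow, hcl, hLD, pow_L _ hβ]
    refine Finset.sum_eq_zero fun a _ => ?_
    by_cases ha : Q.X.dim + 1 ≤ a
    · rw [hα0 a ha, zero_mul, map_zero, zero_mul, smul_zero]
    · have h1 : Z.X.dim - 2 * j + 1 ≤ (Q.X.prod Z.X).dim - 2 * j + 1 - a := by
        rw [hdim]
        omega
      rw [pow_van (prim_pow (hz i)) h1, map_zero, mul_zero, smul_zero]
  · rw [hpair]
    calc (0 : ℚ) < (((Q.X.dim + (Z.X.dim - 2 * j)).choose Q.X.dim : ℚ) * v) *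
        (s * pairing ops Z.X Z.D j (z i) (z i)) := mul_pos hc (hs i)
      _ = _ := by ring
  · rw [hpair, horth i l hil, mul_zero]

/-- **Multiplication by a polarized variety does not decrease the number of squares.** -/
theorem total_le_prod' {Q Z : Polarized 𝒱} (hQ : Pos Q ops) (hZ : Z.X.IsCyc 1 Z.D) :
    total W Z.X Z.D ≤ total W (Q.prod ops Z).X (Q.prod ops Z).D := by
  have hdim : (Q.prod ops Z).X.dim = Q.X.dim + Z.X.dim := rfl
  have hQZ : (Q.prod ops Z).X.IsCyc 1 (Q.prod ops Z).D := isCyc_prod hQ.isCyc hZ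
  rw [total, total]
  refine (Finset.sum_le_sum (fun n hn => ?_)).trans
    (Finset.sum_le_sum_of_subset (Finset.range_mono (by omega)))
  rw [Finset.mem_range] at hn
  have h2 : 2 * n ≤ Z.X.dim := by omega
  have h3 : 2 * n ≤ (Q.prod ops Z).X.dim := by omega
  obtain ⟨b1, b2⟩ := bddAbove_family W hQZ h3
  have key : ∀ s : ℚ, BddAbove {r | HasFamily W (Q.prod ops Z).X (Q.prod ops Z).D n s r} →
      sSup {r | HasFamily W Z.X Z.D n s r} ≤
        sSup {r | HasFamily W (Q.prod ops Z).X (Q.prod ops Z).D n s r} := by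
    intro s hb
    apply csSup_le'
    intro r hr
    exact le_csSup hb (family_prod hQ hZ h2 hr)
  exact Nat.add_le_add (key 1 b1) (key (-1) b2)

end Pool.Agent.N536.HH
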